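import Pool.Agent.CSV.WFun

set_option autoImplicit false

open Set Filter Topology

namespace Pool.Agent.CSV

variable {ι : Type*} [Fintype ι]

/-- `∑ log (1 + t_j)`. -/
noncomputable def LL (p : ι → E) (x : E) : ℝ := ∑ j, Real.log (1 + ‖x - p j‖ ^ 2)

theorem LL_contDiff (p : ι → E) : ContDiff ℝ 2 (LL p) :=
  contDiff_iff_contDiffAt.mpr fun _ => ContDiffAt.sum fun _ _ =>
    contDiffAt_log_add (by positivity)

theorem lap_LL (p : ι → E) (x : E) : Lap (LL p) x = -GG p x := by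
  have h := lap_sum (Finset.univ : Finset ι) (f := fun j y => Real.log (1 + ‖y - p j‖ ^ 2)) (x := x)
    (fun j _ => contDiffAt_log_add (by positivity))
  have e : Lap (LL p) x = ∑ j, Lap (fun y => Real.log (1 + ‖y - p j‖ ^ 2)) x := h
  rw [e]
  unfold GG
  rw [← Finset.sum_neg_distrib]
  refine Finset.sum_congr rfl fun j _ => ?_
  rw [lap_log_add (by positivity)]
  ring

theorem bb_mul_exp_LL (p : ι → E) (x : E) :
    bb p x * Real.exp (LL p x) = ∏ j, ‖x - p j‖ ^ 2 := by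
  unfold bb LL
  rw [Real.exp_sum, ← Finset.prod_mul_distrib]
  refine Finset.prod_congr rfl fun j _ => ?_
  have h1 : 0 < 1 + ‖x - p j‖ ^ 2 := by positivity
  rw [Real.exp_log h1]
  field_simp

theorem WW_le {M : ℝ} (hM : 0 < M) (p : ι → E) (x : E) :
    WW M p x ≤ LL p x - Fintype.card ι * Real.log M := by
  unfold WW LL
  have : ∀ j ∈ (Finset.univ : Finset ι), phiM M (‖x - p j‖ ^ 2) ≤
      Real.log (1 + ‖x - p j‖ ^ 2) - Real.log M := by
    intro j _
    set t := ‖x - p j‖ ^ 2 with ht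
    have ht0 : 0 ≤ t := by positivity
    have hP := PM_pos hM ht0
    unfold phiM
    have h1 : Real.log M + Real.log (t + M) ≤ Real.log (PM M t) := by
      rw [← Real.log_mul hM.ne' (by positivity)]
      refine Real.log_le_log (by positivity) ?_
      unfold PM; nlinarith [sq_nonneg t, sq_nonneg M]
    linarith
  refine (Finset.sum_le_sum this).trans ?_
  rw [Finset.sum_sub_distrib]
  simp

/-! ### The first barrier -/

noncomputable def V1 (L : ℝ) (p : ι → E) (x : E) : ℝ := LL p x + ((-1/16) * ‖x - 0‖ ^ 2 + L ^ 2 / 16)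

theorem V1_contDiff (L : ℝ) (p : ι → E) : ContDiff ℝ 2 (V1 L p) :=
  (LL_contDiff p).add ((contDiff_const.mul (contDiff_nsq 2 0)).add contDiff_const)

theorem barrier_V1 {R0 L : ℝ} (hL : L = R0 + 1) {p : ι → E} (hp : ∀ j, ‖p j‖ ≤ R0) :
    Barrier (bb p) (GG p) (Metric.ball 0 L) (V1 L p) where
  isOpen := Metric.isOpen_ball
  bounded := Metric.isBounded_ball
  c2 := V1_contDiff L p
  ineq := by
    intro x _ _
    have h1 : Lap (V1 L p) x = -GG p x + (-1/16) * 4 := by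
      have hc1 : ContDiffAt ℝ 2 (fun y : E => (-1/16 : ℝ) * ‖y - 0‖ ^ 2) x :=
        (contDiff_const.mul (contDiff_nsq 2 0)).contDiffAt
      have e1 : Lap (V1 L p) x = Lap (LL p) x +
          Lap (fun y : E => (-1/16 : ℝ) * ‖y - 0‖ ^ 2 + L ^ 2 / 16) x :=
        lap_add (LL_contDiff p).contDiffAt (hc1.add contDiffAt_const)
      rw [e1, lap_LL, lap_add hc1 contDiffAt_const, lap_const,
        lap_const_mul _ (contDiff_nsq 2 0).contDiffAt, lap_nsq]
      ring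
    rw [h1]
    unfold H
    have := Fn_le (bb p x * Real.exp (V1 L p x))
    linarith
  bdry := by
    intro x hx
    have hx' : ‖x‖ = L := by
      have h1 := Metric.frontier_ball_subset_sphere hx
      simpa using h1
    unfold V1
    rw [Real.exp_add, ← mul_assoc, bb_mul_exp_LL, sub_zero, hx']
    have e : (-1/16) * L ^ 2 + L ^ 2 / 16 = 0 := by ring
    rw [e, Real.exp_zero, mul_one]
    have : ∏ _j : ι, (1:ℝ) ≤ ∏ j, ‖x - p j‖ ^ 2 := by
      refine Finset.prod_le_prod (fun _ _ => zero_le_one) fun j _ => ?_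
      have h2 : 1 ≤ ‖x - p j‖ := by
        have := norm_sub_norm_le x (p j)
        have := hp j
        linarith
      nlinarith
    simpa using this

theorem WW_le_V1 {M L : ℝ} (hM : 1 ≤ M) {p : ι → E} {x : E} (hx : x ∈ Metric.ball (0:E) L) :
    WW M p x ≤ V1 L p x := by
  have h1 := WW_le (lt_of_lt_of_le one_pos hM) p x
  have h2 : 0 ≤ Real.log M := Real.log_nonneg hM
  have h3 : ‖x‖ < L := by simpa using hx
  unfold V1
  rw [sub_zero]
  have h4 : 0 ≤ (Fintype.card ι : ℝ) * Real.log M := by positivity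
  nlinarith [norm_nonneg x]

theorem bb_ge {R0 L : ℝ} (hL : L = R0 + 1) {p : ι → E} (hp : ∀ j, ‖p j‖ ≤ R0)
    {x : E} (hx : x ∉ Metric.ball (0:E) L) : (1/2 : ℝ) ^ (Fintype.card ι) ≤ bb p x := by
  have h1 : ∏ _j : ι, (1/2:ℝ) ≤ bb p x := by
    unfold bb
    refine Finset.prod_le_prod (fun _ _ => by norm_num) fun j _ => ?_
    have h2 : L ≤ ‖x‖ := by simpa using hx
    have h3 : 1 ≤ ‖x - p j‖ := by
      have := norm_sub_norm_le x (p j)
      have := hp j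
      linarith
    rw [le_div_iff₀ (by positivity)]
    nlinarith
  simpa using h1

/-! ### The second barrier -/

/-- `E = ρ^{-2N} ∏ t_j`. -/
noncomputable def EE (ρ : ℝ) (p : ι → E) (x : E) : ℝ := ∏ j, (‖x - p j‖ ^ 2 / ρ ^ 2)

theorem EE_contDiff (ρ : ℝ) (p : ι → E) : ContDiff ℝ 2 (EE ρ p) :=
  contDiff_prod fun j _ => (contDiff_nsq 2 (p j)).div_const _

theorem EE_nonneg (ρ : ℝ) (p : ι → E) (x : E) : 0 ≤ EE ρ p x :=
  Finset.prod_nonneg fun _ _ => by positivity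

/-- The harmonic function `∑ log t_j - log ρ²`. -/
noncomputable def FF (ρ : ℝ) (p : ι → E) (x : E) : ℝ :=
  ∑ j, (Real.log (0 + ‖x - p j‖ ^ 2) - Real.log (ρ ^ 2))

theorem EE_eq {ρ : ℝ} (hρ : 0 < ρ) {p : ι → E} {x : E} (hx : ∀ j, x ≠ p j) :
    EE ρ p x = Real.exp (FF ρ p x) := by
  unfold EE FF
  rw [Real.exp_sum]
  refine Finset.prod_congr rfl fun j _ => ?_
  have h1 : 0 < ‖x - p j‖ ^ 2 := by
    have : 0 < ‖x - p j‖ := norm_pos_iff.mpr (sub_ne_zero.mpr (hx j))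
    positivity
  rw [zero_add, Real.exp_sub, Real.exp_log h1, Real.exp_log (by positivity)]

theorem FF_contDiffAt (ρ : ℝ) {p : ι → E} {x : E} (hx : ∀ j, x ≠ p j) :
    ContDiffAt ℝ 2 (FF ρ p) x := by
  refine ContDiffAt.sum fun j _ => ?_
  refine (contDiffAt_log_add ?_).sub contDiffAt_const
  rw [zero_add]
  have : 0 < ‖x - p j‖ := norm_pos_iff.mpr (sub_ne_zero.mpr (hx j))
  positivity

theorem lap_FF (ρ : ℝ) {p : ι → E} {x : E} (hx : ∀ j, x ≠ p j) : Lap (FF ρ p) x = 0 := by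
  have h0 : ∀ j, (0:ℝ) + ‖x - p j‖ ^ 2 ≠ 0 := fun j => by
    rw [zero_add]
    have : 0 < ‖x - p j‖ := norm_pos_iff.mpr (sub_ne_zero.mpr (hx j))
    positivity
  have h := lap_sum (Finset.univ : Finset ι)
    (f := fun j y => Real.log (0 + ‖y - p j‖ ^ 2) - Real.log (ρ ^ 2)) (x := x)
    (fun j _ => (contDiffAt_log_add (h0 j)).sub contDiffAt_const)
  have e : Lap (FF ρ p) x = ∑ j, Lap (fun y => Real.log (0 + ‖y - p j‖ ^ 2) - Real.log (ρ ^ 2)) x := h
  rw [e]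
  refine Finset.sum_eq_zero fun j _ => ?_
  rw [lap_sub (contDiffAt_log_add (h0 j)) contDiffAt_const, lap_log_add (h0 j), lap_const]
  ring

theorem fderiv_FF (ρ : ℝ) {p : ι → E} {x : E} (hx : ∀ j, x ≠ p j) (v : E) :
    fderiv ℝ (FF ρ p) x v = ∑ j, (2 * inner ℝ (x - p j) v) / ‖x - p j‖ ^ 2 := by
  have h1 : ∀ j ∈ (Finset.univ : Finset ι), HasFDerivAt
      (fun y : E => Real.log (0 + ‖y - p j‖ ^ 2) - Real.log (ρ ^ 2))
      ((0 + ‖x - p j‖ ^ 2)⁻¹ • (2 • innerSL ℝ (x - p j))) x := by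
    intro j _
    have h2 : HasFDerivAt (fun x : E => x - p j) (ContinuousLinearMap.id ℝ E) x :=
      (hasFDerivAt_id x).sub_const (p j)
    have h3 : HasFDerivAt (fun x : E => ‖x - p j‖ ^ 2) (2 • innerSL ℝ (x - p j)) x := by
      have h3 := (hasStrictFDerivAt_norm_sq (x - p j)).hasFDerivAt.comp x h2
      exact h3.congr_fderiv (ContinuousLinearMap.comp_id _)
    have h4 : HasFDerivAt (fun x : E => 0 + ‖x - p j‖ ^ 2) (2 • innerSL ℝ (x - p j)) x :=
      h3.const_add 0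
    have h5 : (0:ℝ) + ‖x - p j‖ ^ 2 ≠ 0 := by
      rw [zero_add]
      have : 0 < ‖x - p j‖ := norm_pos_iff.mpr (sub_ne_zero.mpr (hx j))
      positivity
    exact (h4.log h5).sub_const _
  have h6 : HasFDerivAt (FF ρ p) (∑ j, ((0 + ‖x - p j‖ ^ 2)⁻¹ • (2 • innerSL ℝ (x - p j)))) x :=
    HasFDerivAt.fun_sum h1
  rw [h6.fderiv]
  rw [sum_apply]
  refine Finset.sum_congr rfl fun j _ => ?_
  simp only [zero_add, smul_apply, two_smul, add_apply,
    innerSL_apply_apply, smul_eq_mul]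
  ring

theorem lap_EE {ρ : ℝ} (hρ : 0 < ρ) {p : ι → E} {x : E} (hx : ∀ j, x ≠ p j) :
    Lap (EE ρ p) x = EE ρ p x *
      ∑ i : Fin 2, (fderiv ℝ (FF ρ p) x (EuclideanSpace.single i (1 : ℝ))) ^ 2 := by
  have hev : ∀ᶠ y in 𝓝 x, ∀ j, y ≠ p j := by
    rw [eventually_all]
    intro j
    exact continuousAt_id.eventually_ne (hx j)
  have e : EE ρ p =ᶠ[𝓝 x] fun y => Real.exp (FF ρ p y) := by
    filter_upwards [hev] with y hy using EE_eq hρ hy
  rw [lap_congr e, lap_exp (FF_contDiffAt ρ hx), lap_FF ρ hx, zero_add, EE_eq hρ hx]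

theorem lap_EE_nonneg {ρ : ℝ} (hρ : 0 < ρ) (p : ι → E) (x : E) : 0 ≤ Lap (EE ρ p) x := by
  by_cases hx : ∀ j, x ≠ p j
  · rw [lap_EE hρ hx]
    exact mul_nonneg (EE_nonneg _ _ _) (Finset.sum_nonneg fun i _ => sq_nonneg _)
  · push Not at hx
    obtain ⟨j, hj⟩ := hx
    refine lap_nonneg_of_isLocalMin (EE_contDiff ρ p).contDiffAt (Eventually.of_forall fun y => ?_)
    have h0 : EE ρ p x = 0 := by
      unfold EE
      refine Finset.prod_eq_zero (Finset.mem_univ j) ?_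
      rw [hj]; simp
    rw [h0]; exact EE_nonneg _ _ _

theorem lap_EE_ge {ρ : ℝ} (hρ : 0 < ρ) {p : ι → E} {x : E} (hx : ∀ j, x ≠ p j)
    (hpx : ∀ j, ‖p j‖ ≤ ‖x‖) :
    (Fintype.card ι : ℝ) ^ 2 * EE ρ p x ≤ ‖x‖ ^ 2 * Lap (EE ρ p) x := by
  rw [lap_EE hρ hx]
  set a : Fin 2 → ℝ := fun i => fderiv ℝ (FF ρ p) x (EuclideanSpace.single i (1 : ℝ)) with ha
  have h1 : (Fintype.card ι : ℝ) ≤ fderiv ℝ (FF ρ p) x x := by
    rw [fderiv_FF ρ hx]
    have : ∑ _j : ι, (1:ℝ) ≤ ∑ j, (2 * inner ℝ (x - p j) x) / ‖x - p j‖ ^ 2 := by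
      refine Finset.sum_le_sum fun j _ => ?_
      have hpos : 0 < ‖x - p j‖ := norm_pos_iff.mpr (sub_ne_zero.mpr (hx j))
      rw [le_div_iff₀ (by positivity), one_mul]
      have e1 : ‖x - p j‖ ^ 2 = ‖x‖ ^ 2 - 2 * inner ℝ x (p j) + ‖p j‖ ^ 2 := norm_sub_sq_real x (p j)
      have e2 : inner ℝ (x - p j) x = ‖x‖ ^ 2 - inner ℝ x (p j) := by
        rw [inner_sub_left, real_inner_self_eq_norm_sq, real_inner_comm]
      rw [e1, e2]
      have := hpx j
      nlinarith [norm_nonneg (p j)]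
    simpa using this
  have hx2 : x = ∑ i : Fin 2, (inner ℝ x (EuclideanSpace.single i (1 : ℝ))) •
      (EuclideanSpace.single i (1 : ℝ) : E) := by
    ext j
    fin_cases j <;> simp [Fin.sum_univ_two, EuclideanSpace.inner_single_right]
  have h2 : fderiv ℝ (FF ρ p) x x = ∑ i : Fin 2, (inner ℝ x (EuclideanSpace.single i (1 : ℝ) : E)) * a i := by
    conv_lhs => arg 2; rw [hx2]
    simp only [map_sum, map_smul, smul_eq_mul, ha]
  have h3 : (∑ i : Fin 2, (inner ℝ x (EuclideanSpace.single i (1 : ℝ) : E)) * a i) ^ 2 ≤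
      ‖x‖ ^ 2 * ∑ i : Fin 2, a i ^ 2 := by
    rw [← sum_inner_sq x]
    exact Finset.sum_mul_sq_le_sq_mul_sq _ _ _
  have h4 : (Fintype.card ι : ℝ) ^ 2 ≤ ‖x‖ ^ 2 * ∑ i : Fin 2, a i ^ 2 := by
    refine le_trans ?_ h3
    rw [← h2]
    exact pow_le_pow_left₀ (by positivity) h1 2
  have h5 := EE_nonneg ρ p x
  calc (Fintype.card ι : ℝ) ^ 2 * EE ρ p x ≤ (‖x‖ ^ 2 * ∑ i : Fin 2, a i ^ 2) * EE ρ p x :=
        mul_le_mul_of_nonneg_right h4 h5
    _ = ‖x‖ ^ 2 * (EE ρ p x * ∑ i : Fin 2, a i ^ 2) := by ring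

end Pool.Agent.CSV
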