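import Pool.Agent.CSV.Bar

set_option autoImplicit false

open Set Filter Topology

namespace Pool.Agent.CSV

variable {ι : Type*} [Fintype ι]

noncomputable def V2 (ρ η : ℝ) (p : ι → E) (x : E) : ℝ :=
  (LL p x - Fintype.card ι * Real.log (ρ ^ 2)) + ((-1/4) * EE ρ p x + (-η/4) * ‖x - 0‖ ^ 2)

theorem V2_contDiff (ρ η : ℝ) (p : ι → E) : ContDiff ℝ 2 (V2 ρ η p) :=
  ((LL_contDiff p).sub contDiff_const).add
    ((contDiff_const.mul (EE_contDiff ρ p)).add (contDiff_const.mul (contDiff_nsq 2 0)))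

theorem lap_V2 (ρ η : ℝ) (p : ι → E) (x : E) :
    Lap (V2 ρ η p) x = -GG p x + ((-1/4) * Lap (EE ρ p) x + (-η/4) * 4) := by
  have hc1 : ContDiffAt ℝ 2 (fun y : E => (-1/4 : ℝ) * EE ρ p y) x :=
    (contDiff_const.mul (EE_contDiff ρ p)).contDiffAt
  have hc2 : ContDiffAt ℝ 2 (fun y : E => (-η/4 : ℝ) * ‖y - 0‖ ^ 2) x :=
    (contDiff_const.mul (contDiff_nsq 2 0)).contDiffAt
  have hc3 : ContDiffAt ℝ 2 (fun y : E => LL p y - Fintype.card ι * Real.log (ρ ^ 2)) x :=
    ((LL_contDiff p).sub contDiff_const).contDiffAt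
  have e1 : Lap (V2 ρ η p) x = Lap (fun y : E => LL p y - Fintype.card ι * Real.log (ρ ^ 2)) x +
      Lap (fun y : E => (-1/4) * EE ρ p y + (-η/4) * ‖y - 0‖ ^ 2) x := lap_add hc3 (hc1.add hc2)
  rw [e1, lap_add hc1 hc2, lap_const_mul _ (EE_contDiff ρ p).contDiffAt,
    lap_const_mul _ (contDiff_nsq 2 0).contDiffAt, lap_nsq,
    lap_sub (LL_contDiff p).contDiffAt contDiffAt_const, lap_const, lap_LL]
  ring

theorem bb_mul_exp_V2 {ρ : ℝ} (hρ : 0 < ρ) (η : ℝ) (p : ι → E) (x : E) :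
    bb p x * Real.exp (V2 ρ η p x) =
      EE ρ p x * Real.exp ((-1/4) * EE ρ p x + (-η/4) * ‖x - 0‖ ^ 2) := by
  unfold V2
  rw [Real.exp_add, ← mul_assoc, Real.exp_sub, ← mul_div_assoc, bb_mul_exp_LL]
  congr 1
  have h1 : Real.exp (Fintype.card ι * Real.log (ρ ^ 2)) = ∏ _j : ι, ρ ^ 2 := by
    rw [Finset.prod_const, Finset.card_univ, ← Real.rpow_natCast (ρ ^ 2) (Fintype.card ι),
      Real.rpow_def_of_pos (by positivity), mul_comm]
  rw [h1, EE, Finset.prod_div_distrib]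

/-- Standing assumptions for the second barrier. -/
structure Conf (R0 : ℝ) (p : ι → E) : Prop where
  pos : 0 < R0
  norm_le : ∀ j, ‖p j‖ ≤ R0
  big : 18 * R0 ≤ Fintype.card ι

namespace Conf

variable {R0 : ℝ} {p : ι → E}

theorem card_pos (h : Conf R0 p) : 1 ≤ Fintype.card ι := by
  have h1 := h.big
  have h2 := h.pos
  have : (0:ℝ) < Fintype.card ι := by linarith
  exact_mod_cast this

/-- outside the ball of radius `9R0` the function `E` is at least `4`. -/
theorem four_le_EE (h : Conf R0 p) {x : E} (hx : 9 * R0 ≤ ‖x‖) : 4 ≤ EE (4 * R0) p x := by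
  have h0 := h.pos
  have h1 : ∏ _j : ι, (4:ℝ) ≤ EE (4 * R0) p x := by
    unfold EE
    refine Finset.prod_le_prod (fun _ _ => by norm_num) fun j _ => ?_
    rw [le_div_iff₀ (by positivity)]
    have h2 : 8 * R0 ≤ ‖x - p j‖ := by
      have := norm_sub_norm_le x (p j)
      have := h.norm_le j
      linarith
    nlinarith
  rw [Finset.prod_const, Finset.card_univ] at h1
  have h2 : (4:ℝ) ^ 1 ≤ 4 ^ Fintype.card ι := pow_le_pow_right₀ (by norm_num) h.card_pos
  linarith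

theorem four_lt_EE (h : Conf R0 p) {x : E} (hx : 9 * R0 < ‖x‖) : 4 < EE (4 * R0) p x := by
  have h0 := h.pos
  have hne : (Finset.univ : Finset ι).Nonempty := by
    rw [Finset.univ_nonempty_iff, ← Fintype.card_pos_iff]; exact h.card_pos
  have h1 : ∏ _j : ι, (4:ℝ) < EE (4 * R0) p x := by
    unfold EE
    refine Finset.prod_lt_prod_of_nonempty (fun _ _ => by norm_num) (fun j _ => ?_) hne
    rw [lt_div_iff₀ (by positivity)]
    have h2 : 8 * R0 < ‖x - p j‖ := by
      have := norm_sub_norm_le x (p j)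
      have := h.norm_le j
      linarith
    nlinarith
  rw [Finset.prod_const, Finset.card_univ] at h1
  have h2 : (4:ℝ) ^ 1 ≤ 4 ^ Fintype.card ι := pow_le_pow_right₀ (by norm_num) h.card_pos
  linarith

theorem EE_le_inside (h : Conf R0 p) {x : E} (hx : ‖x‖ ≤ R0) :
    EE (4 * R0) p x ≤ (1/4) ^ Fintype.card ι := by
  have h0 := h.pos
  have h1 : EE (4 * R0) p x ≤ ∏ _j : ι, (1/4:ℝ) := by
    unfold EE
    refine Finset.prod_le_prod (fun _ _ => by positivity) fun j _ => ?_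
    rw [div_le_iff₀ (by positivity)]
    have h2 : ‖x - p j‖ ≤ 2 * R0 := by
      have := norm_sub_le x (p j)
      have := h.norm_le j
      linarith
    nlinarith [norm_nonneg (x - p j)]
  simpa using h1

theorem eta_bound (h : Conf R0 p) {x : E} (hx : ‖x‖ ≤ 9 * R0) :
    (1/4 : ℝ) ^ Fintype.card ι * ‖x‖ ^ 2 ≤ 1/4 := by
  have h0 := h.pos
  have h1 := h.big
  set N := Fintype.card ι with hN
  have h2 : ‖x‖ ^ 2 ≤ (N:ℝ) ^ 2 / 4 := by
    have : ‖x‖ ≤ (N:ℝ) / 2 := by linarith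
    nlinarith [norm_nonneg x]
  have h3 : (N:ℝ) ^ 2 ≤ 4 ^ N := by
    have h4 : (N:ℝ) ≤ 2 ^ N := by exact_mod_cast (Nat.lt_two_pow_self (n := N)).le
    have h5 : (4:ℝ) ^ N = (2 ^ N) ^ 2 := by
      rw [← pow_mul, mul_comm, pow_mul]; norm_num
    rw [h5]
    exact pow_le_pow_left₀ (by positivity) h4 2
  have h6 : (1/4 : ℝ) ^ N * 4 ^ N = 1 := by rw [← mul_pow]; norm_num
  have h7 : (0:ℝ) ≤ (1/4 : ℝ) ^ N := by positivity
  calc (1/4 : ℝ) ^ N * ‖x‖ ^ 2 ≤ (1/4 : ℝ) ^ N * ((N:ℝ) ^ 2 / 4) := by gcongr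
    _ ≤ (1/4 : ℝ) ^ N * (4 ^ N / 4) := by gcongr
    _ = 1/4 := by linarith

/-- the second barrier is a barrier on `{E < 4}` -/
theorem barrier (h : Conf R0 p) :
    Barrier (bb p) (GG p) {x | EE (4 * R0) p x < 4} (V2 (4 * R0) ((1/4) ^ Fintype.card ι) p) := by
  have h0 := h.pos
  have hρ : 0 < 4 * R0 := by linarith
  have hcont : Continuous (EE (4 * R0) p) := (EE_contDiff _ _).continuous
  refine ⟨isOpen_lt hcont continuous_const, ?_, V2_contDiff _ _ _, ?_, ?_⟩
  · refine (Metric.isBounded_ball (x := (0:E)) (r := 9 * R0)).subset fun x hx => ?_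
    rw [mem_ball_zero_iff]
    by_contra hcon
    push Not at hcon
    have := h.four_le_EE hcon
    exact absurd hx (not_lt.mpr this)
  · intro x hx _
    have hx9 : ‖x‖ < 9 * R0 := by
      by_contra hcon
      push Not at hcon
      exact absurd hx (not_lt.mpr (h.four_le_EE hcon))
    rw [lap_V2]
    unfold H
    set N := Fintype.card ι with hN
    set s := bb p x * Real.exp (V2 (4 * R0) ((1/4) ^ N) p x) with hs
    have hE := EE_nonneg (4 * R0) p x
    have hs1 : s ≤ EE (4 * R0) p x := by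
      rw [hs, bb_mul_exp_V2 hρ]
      have h3 : Real.exp ((-1/4) * EE (4 * R0) p x + (-(1/4) ^ N/4) * ‖x - 0‖ ^ 2) ≤ 1 := by
        rw [Real.exp_le_one_iff]
        have h4 : 0 ≤ (1/4 : ℝ) ^ N * ‖x - 0‖ ^ 2 := by positivity
        have e : (-(1/4 : ℝ) ^ N/4) * ‖x - 0‖ ^ 2 = -((1/4 : ℝ) ^ N * ‖x - 0‖ ^ 2) / 4 := by ring
        rw [e]
        linarith
      calc EE (4 * R0) p x * _ ≤ EE (4 * R0) p x * 1 := mul_le_mul_of_nonneg_left h3 hE
        _ = _ := mul_one _
    have hs0 : 0 ≤ s := mul_nonneg (bb_nonneg p x) (Real.exp_nonneg _)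
    have hF : Fn s ≤ EE (4 * R0) p x := by
      unfold Fn
      nlinarith [sq_nonneg s]
    have hlap0 := lap_EE_nonneg hρ p x
    have hη : (0:ℝ) ≤ (1/4 : ℝ) ^ N := by positivity
    have key : Fn s ≤ (1/4) * Lap (EE (4 * R0) p) x + (1/4) ^ N := by
      by_cases hxR : ‖x‖ ≤ R0
      · have := h.EE_le_inside hxR
        linarith
      · push Not at hxR
        have hxp : ∀ j, x ≠ p j := by
          intro j hj
          have := h.norm_le j
          rw [← hj] at this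
          linarith
        have h5 := lap_EE_ge hρ hxp fun j => (h.norm_le j).trans hxR.le
        have h6 : ‖x‖ ^ 2 ≤ (N:ℝ) ^ 2 / 4 := by
          have h7 := h.big
          have : ‖x‖ ≤ (N:ℝ) / 2 := by linarith
          nlinarith [norm_nonneg x]
        have h8 : (N:ℝ) ^ 2 * EE (4 * R0) p x ≤ (N:ℝ) ^ 2 * (Lap (EE (4 * R0) p) x / 4) := by
          calc (N:ℝ) ^ 2 * EE (4 * R0) p x ≤ ‖x‖ ^ 2 * Lap (EE (4 * R0) p) x := h5
            _ ≤ ((N:ℝ) ^ 2 / 4) * Lap (EE (4 * R0) p) x := mul_le_mul_of_nonneg_right h6 hlap0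
            _ = _ := by ring
        have hNpos : (0:ℝ) < (N:ℝ) ^ 2 := by
          have h7 := h.big
          have : (0:ℝ) < N := by linarith
          positivity
        have h9 := le_of_mul_le_mul_left h8 hNpos
        linarith
    linarith
  · intro x hx
    have hx4 : EE (4 * R0) p x = 4 := frontier_lt_subset_eq hcont continuous_const hx
    have hx9 : ‖x‖ ≤ 9 * R0 := by
      by_contra hcon
      push Not at hcon
      have := h.four_lt_EE hcon
      linarith
    rw [bb_mul_exp_V2 hρ, hx4]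
    have h1 := h.eta_bound hx9
    set N := Fintype.card ι with hN
    have h3 : (1:ℝ) + 1/16 ≤ Real.log 4 := by
      have h4 : Real.log 4 = 2 * Real.log 2 := by
        rw [show (4:ℝ) = 2 ^ 2 by norm_num, Real.log_pow]; norm_num
      rw [h4]
      have := Real.log_two_gt_d9
      linarith
    rw [sub_zero]
    have h5 : 4 * Real.exp ((-1/4) * 4 + (-(1/4) ^ N/4) * ‖x‖ ^ 2) =
        Real.exp (Real.log 4 + ((-1/4) * 4 + (-(1/4) ^ N/4) * ‖x‖ ^ 2)) := by
      rw [Real.exp_add (Real.log 4), Real.exp_log (by norm_num)]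
    rw [h5, Real.one_le_exp_iff]
    have e : (-(1/4 : ℝ) ^ N/4) * ‖x‖ ^ 2 = -((1/4 : ℝ) ^ N * ‖x‖ ^ 2) / 4 := by ring
    rw [e]
    linarith

theorem WW_le_V2 (h : Conf R0 p) {M : ℝ} (hM : 4 * (4 * R0) ^ 2 ≤ M) {x : E}
    (hx : EE (4 * R0) p x < 4) :
    WW M p x ≤ V2 (4 * R0) ((1/4) ^ Fintype.card ι) p x := by
  have h0 := h.pos
  have hMpos : 0 < M := lt_of_lt_of_le (by positivity) hM
  have h1 := WW_le hMpos p x
  have hx9 : ‖x‖ ≤ 9 * R0 := by
    by_contra hcon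
    push Not at hcon
    have := h.four_lt_EE hcon
    linarith
  have h2 := h.eta_bound hx9
  have hcard : (1:ℝ) ≤ Fintype.card ι := by exact_mod_cast h.card_pos
  have h3 : Real.log 4 + Real.log ((4 * R0) ^ 2) ≤ Real.log M := by
    rw [← Real.log_mul (by norm_num) (by positivity)]
    exact Real.log_le_log (by positivity) hM
  have h4 : (1:ℝ) + 1/16 ≤ Real.log 4 := by
    have h4 : Real.log 4 = 2 * Real.log 2 := by
      rw [show (4:ℝ) = 2 ^ 2 by norm_num, Real.log_pow]; norm_num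
    rw [h4]
    have := Real.log_two_gt_d9
    linarith
  unfold V2
  rw [sub_zero]
  have e : (-(1/4 : ℝ) ^ Fintype.card ι/4) * ‖x‖ ^ 2 = -((1/4 : ℝ) ^ Fintype.card ι * ‖x‖ ^ 2) / 4 := by
    ring
  rw [e]
  nlinarith [mul_le_mul_of_nonneg_left h3 (by linarith : (0:ℝ) ≤ Fintype.card ι)]

end Conf

end Pool.Agent.CSV
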