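import Mathlib

/-!
# Basic definitions for the Chern-Simons vortex non-uniqueness proof (MP_e9ba27_mp)
-/

set_option autoImplicit false

open Set Filter Topology MeasureTheory

namespace Pool.Agent.CSV

/-- The Euclidean plane. -/
abbrev E := EuclideanSpace ℝ (Fin 2)

/-- The Laplacian, written exactly as in the frozen statement. -/
noncomputable def Lap (g : E → ℝ) (x : E) : ℝ :=
  ∑ i : Fin 2, iteratedFDeriv ℝ 2 g x
    ![EuclideanSpace.single i (1 : ℝ), EuclideanSpace.single i (1 : ℝ)]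

/-- Bounded `C^1` functions with bounded derivative. -/
structure CB1 (h : E → ℝ) : Prop where
  contDiff : ContDiff ℝ 1 h
  bdd : ∃ C, ∀ x, |h x| ≤ C
  dbdd : ∃ C, ∀ x, ‖fderiv ℝ h x‖ ≤ C

/-- Gaussian density on the plane. -/
noncomputable def gauss (z : E) : ℝ := (2 * Real.pi)⁻¹ * Real.exp (-‖z‖ ^ 2 / 2)

/-- The Gaussian average at scale `s`. -/
noncomputable def P (h : E → ℝ) (s : ℝ) (x : E) : ℝ := ∫ z : E, h (x + s • z) * gauss z

/-- The resolvent `(1 - Lap)⁻¹`, as an average over Gaussians. -/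
noncomputable def R (h : E → ℝ) (x : E) : ℝ :=
  ∫ s in Ioi (0 : ℝ), s * Real.exp (-s ^ 2 / 2) * P h s x

/-- The directional derivative of the resolvent. -/
noncomputable def S (v : E) (h : E → ℝ) (x : E) : ℝ :=
  ∫ s in Ioi (0 : ℝ), Real.exp (-s ^ 2 / 2) * ∫ z : E, inner ℝ z v * h (x + s • z) * gauss z

end Pool.Agent.CSV
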