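import Pool.Agent.CSV.Iter

set_option autoImplicit false

open Set Filter Topology MeasureTheory

namespace Pool.Agent.CSV

/-- Properties preserved by the iteration. -/
structure Good (b w : E → ℝ) : Prop where
  cb1 : CB1 w
  c2 : ContDiff ℝ 2 w
  lim : Tendsto w (cocompact E) (𝓝 0)
  le_one : ∀ x, b x * Real.exp (w x) ≤ 1

theorem tendsto_exp_comp {w : E → ℝ} (hw : Tendsto w (cocompact E) (𝓝 0)) :
    Tendsto (fun x => Real.exp (w x)) (cocompact E) (𝓝 1) := by
  have := (Real.continuous_exp.tendsto 0).comp hw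
  rw [Real.exp_zero] at this
  exact this

theorem H_tendsto_zero {b G w : E → ℝ} (hD : Data b G) (hw : Tendsto w (cocompact E) (𝓝 0)) :
    Tendsto (H b G w) (cocompact E) (𝓝 0) := by
  have h1 : Tendsto (fun x => Real.exp (w x)) (cocompact E) (𝓝 1) := tendsto_exp_comp hw
  have h2 : Tendsto (fun x => b x * Real.exp (w x)) (cocompact E) (𝓝 1) := by
    simpa using hD.b_lim.mul h1
  have h3 : Tendsto (fun x => Fn (b x * Real.exp (w x))) (cocompact E) (𝓝 0) := by
    have hc : Continuous Fn := by unfold Fn; fun_prop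
    have := (hc.tendsto 1).comp h2
    have e : Fn 1 = 0 := by simp [Fn]
    rw [e] at this
    exact this
  have h4 := (hw.add h3).add hD.G_lim
  rw [add_zero, add_zero] at h4
  exact h4

theorem R_H_facts {b G w : E → ℝ} (hD : Data b G) (hw : Good b w) :
    CB1 (R (H b G w)) ∧ ContDiff ℝ 2 (R (H b G w)) ∧
      (∀ x, R (H b G w) x - Lap (R (H b G w)) x = H b G w x) ∧
      Tendsto (R (H b G w)) (cocompact E) (𝓝 0) := by
  have hH : CB1 (H b G w) := CB1.H hD.b_cb1 hD.G_cb1 hw.cb1
  obtain ⟨C, hC⟩ := hH.bdd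
  obtain ⟨h1, h2⟩ := R_C2 hH
  exact ⟨R_CB1 hH.continuous hC, h1, h2,
    R_zero_at_infty hH.measurable hC (H_tendsto_zero hD hw.lim)⟩

theorem good_step {b G w : E → ℝ} (hD : Data b G) (hw : Good b w) : Good b (R (H b G w)) := by
  obtain ⟨h1, h2, h3, h4⟩ := R_H_facts hD hw
  refine ⟨h1, h2, h4, ?_⟩
  set w' := R (H b G w) with hw'
  by_contra hcon
  push Not at hcon
  obtain ⟨x1, hx1⟩ := hcon
  set φ : E → ℝ := fun x => b x * Real.exp (w' x) with hφ
  have hφc : Continuous φ := hD.b_c2.continuous.mul (Real.continuous_exp.comp h2.continuous)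
  have hφlim : Tendsto φ (cocompact E) (𝓝 1) := by
    have h5 : Tendsto (fun x => Real.exp (w' x)) (cocompact E) (𝓝 1) := tendsto_exp_comp h4
    simpa using hD.b_lim.mul h5
  obtain ⟨y, hy⟩ : ∃ y, ∀ x, φ x ≤ φ y := by
    have h5 : ∀ᶠ y in cocompact E, φ y ≤ φ x1 := by
      filter_upwards [hφlim.eventually (gt_mem_nhds hx1)] with y hy using hy.le
    exact hφc.exists_forall_ge' x1 h5
  have hφy : 1 < φ y := lt_of_lt_of_le hx1 (hy x1)
  have hby : 0 < b y := by
    have h6 : 0 < b y * Real.exp (w' y) := lt_trans one_pos hφy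
    exact (pos_iff_pos_of_mul_pos h6).mpr (Real.exp_pos _)
  have hev : ∀ᶠ x in 𝓝 y, 0 < b x := hD.b_c2.continuous.continuousAt.eventually (lt_mem_nhds hby)
  have hlogc : ContDiffAt ℝ 2 (fun x => Real.log (b x)) y := hD.b_c2.contDiffAt.log hby.ne'
  have hmin : IsLocalMin (fun x => 0 - (Real.log (b x) + w' x)) y := by
    filter_upwards [hev] with x hx
    have h7 : Real.log (b x) + w' x ≤ Real.log (b y) + w' y := by
      have e1 : Real.log (b x) + w' x = Real.log (φ x) := by
        rw [hφ]; simp only; rw [Real.log_mul hx.ne' (Real.exp_pos _).ne', Real.log_exp]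
      have e2 : Real.log (b y) + w' y = Real.log (φ y) := by
        rw [hφ]; simp only; rw [Real.log_mul hby.ne' (Real.exp_pos _).ne', Real.log_exp]
      rw [e1, e2]
      exact Real.log_le_log (mul_pos hx (Real.exp_pos _)) (hy x)
    linarith
  have hlap := lap_nonneg_of_isLocalMin
    (z := fun x => 0 - (Real.log (b x) + w' x)) (contDiffAt_const.sub (hlogc.add h2.contDiffAt)) hmin
  rw [lap_sub contDiffAt_const (hlogc.add h2.contDiffAt), lap_const,
    lap_add hlogc h2.contDiffAt, hD.lap_log y hby.ne'] at hlap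
  have h8 := h3 y
  unfold H at h8
  set s := b y * Real.exp (w y) with hs
  have hs1 : s ≤ 1 := hw.le_one y
  have hs0 : 0 < s := mul_pos hby (Real.exp_pos _)
  have h9 : w' y ≤ w y + Fn s := by linarith
  have h10 : Real.log (b y) + w y = Real.log s := by
    rw [hs, Real.log_mul hby.ne' (Real.exp_pos _).ne', Real.log_exp]
  have h11 : Real.log s ≤ s - 1 := Real.log_le_sub_one_of_pos hs0
  have h12 : Real.log (b y) + w' y = Real.log (φ y) := by
    rw [hφ]; simp only; rw [Real.log_mul hby.ne' (Real.exp_pos _).ne', Real.log_exp]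
  have h13 : Real.log (φ y) ≤ 0 := by
    rw [← h12]
    unfold Fn at h9
    nlinarith [sq_nonneg (1 - s)]
  have h14 : 0 < Real.log (φ y) := Real.log_pos hφy
  linarith

theorem step_mono {b G w v : E → ℝ} (hD : Data b G) (hw : Good b w) (hv : Good b v)
    (h : ∀ x, w x ≤ v x) (x : E) : R (H b G w) x ≤ R (H b G v) x := by
  have h1 : CB1 (H b G w) := CB1.H hD.b_cb1 hD.G_cb1 hw.cb1
  have h2 : CB1 (H b G v) := CB1.H hD.b_cb1 hD.G_cb1 hv.cb1
  obtain ⟨C, hC⟩ := h1.bdd
  obtain ⟨C', hC'⟩ := h2.bdd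
  refine R_mono (C := max C C') h1.measurable h2.measurable (fun x => (hC x).trans (le_max_left _ _))
    (fun x => (hC' x).trans (le_max_right _ _)) (fun x => ?_) x
  unfold H
  have := H_mono_aux (hD.b_nonneg x) (h x) (hv.le_one x)
  linarith

theorem barrier_step {b G w : E → ℝ} (hD : Data b G) (hw : Good b w) {Ω : Set E} {V : E → ℝ}
    (hB : Barrier b G Ω V) (h : ∀ x ∈ Ω, w x ≤ V x) : ∀ x ∈ Ω, R (H b G w) x ≤ V x := by
  obtain ⟨h1, h2, h3, h4⟩ := R_H_facts hD hw
  have hg := good_step hD hw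
  set w' := R (H b G w) with hw'
  intro x hx
  by_contra hcon
  push Not at hcon
  have hcomp : IsCompact (closure Ω) := hB.bounded.isCompact_closure
  have hzc : Continuous (fun x => V x - w' x) := hB.c2.continuous.sub h2.continuous
  obtain ⟨y, hyΩ, hy⟩ := hcomp.exists_isMinOn ⟨x, subset_closure hx⟩ hzc.continuousOn
  have hyx : V y - w' y ≤ V x - w' x := hy (subset_closure hx)
  have hneg : V y - w' y < 0 := by linarith
  by_cases hyo : y ∈ Ω
  · have hlt : V y < w' y := by linarith
    have h5 : b y * Real.exp (V y) ≤ 1 :=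
      (mul_le_mul_of_nonneg_left (Real.exp_le_exp.mpr hlt.le) (hD.b_nonneg y)).trans (hg.le_one y)
    have h6 := hB.ineq y hyo h5
    have h7 := H_mono_aux (hD.b_nonneg y) (h y hyo) h5
    have h8 := h3 y
    have hmin : IsLocalMin (fun x => V x - w' x) y := by
      filter_upwards [hB.isOpen.mem_nhds hyo] with u hu
      exact hy (subset_closure hu)
    have hlap := lap_nonneg_of_isLocalMin (hB.c2.contDiffAt.sub h2.contDiffAt) hmin
    rw [lap_sub hB.c2.contDiffAt h2.contDiffAt] at hlap
    unfold H at h6 h8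
    linarith
  · have hfr : y ∈ frontier Ω := by
      rw [frontier, hB.isOpen.interior_eq]
      exact ⟨hyΩ, hyo⟩
    have h5 := hB.bdry y hfr
    have hby : 0 < b y := by
      by_contra hb0
      have : b y = 0 := le_antisymm (not_lt.mp hb0) (hD.b_nonneg y)
      rw [this, zero_mul] at h5
      linarith
    have h6 := hg.le_one y
    have h7 : Real.exp (w' y) ≤ Real.exp (V y) := by
      have := h6.trans h5
      exact le_of_mul_le_mul_left this hby
    have h8 : w' y ≤ V y := Real.exp_le_exp.mp h7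
    linarith

/-- The iterates. -/
noncomputable def seq (b G w0 : E → ℝ) : ℕ → E → ℝ
  | 0 => w0
  | n + 1 => R (H b G (seq b G w0 n))

theorem exists_solution {b G : E → ℝ} (hD : Data b G) {w0 : E → ℝ} (hw0 : Good b w0)
    (hsub : ∀ x, w0 x - Lap w0 x ≤ H b G w0 x)
    {Ω1 : Set E} {V1 : E → ℝ} (hB1 : Barrier b G Ω1 V1) (hw1 : ∀ x ∈ Ω1, w0 x ≤ V1 x)
    {c : ℝ} (hc : 0 < c) (hcb : ∀ x, x ∉ Ω1 → c ≤ b x) :
    ∃ w : E → ℝ, ContDiff ℝ 2 w ∧ (∀ x, w0 x ≤ w x) ∧ Tendsto w (cocompact E) (𝓝 0) ∧
      (∀ x, b x * Real.exp (w x) ≤ 1) ∧ (∀ x, w x - Lap w x = H b G w x) ∧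
      ∀ Ω V, Barrier b G Ω V → (∀ x ∈ Ω, w0 x ≤ V x) → ∀ x ∈ Ω, w x ≤ V x := by
  set w := seq b G w0 with hw
  have hgood : ∀ n, Good b (w n) := by
    intro n
    induction n with
    | zero => exact hw0
    | succ n ih => exact good_step hD ih
  have hmono1 : ∀ n x, w n x ≤ w (n + 1) x := by
    intro n
    induction n with
    | zero =>
      intro x
      obtain ⟨h1, h2, h3, h4⟩ := R_H_facts hD hw0
      have hz := nonneg_of_sub_lap_nonneg (z := fun x => w 1 x - w 0 x)
        (h2.sub hw0.c2) (by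
          have h7 := h4.sub hw0.lim
          rw [sub_zero] at h7
          exact h7) (fun x => by
          have e : Lap (fun x => w 1 x - w 0 x) x = Lap (w 1) x - Lap (w 0) x :=
            lap_sub h2.contDiffAt hw0.c2.contDiffAt
          rw [e]
          have h5 := h3 x
          have h6 := hsub x
          have e1 : w 1 = R (H b G w0) := rfl
          have e0 : w 0 = w0 := rfl
          rw [e1, e0]
          linarith) x
      rw [zero_add]
      linarith
    | succ n ih => intro x; exact step_mono hD (hgood n) (hgood (n+1)) ih x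
  have hmono : ∀ x, Monotone (fun n => w n x) := fun x => monotone_nat_of_le_succ fun n => hmono1 n x
  have hbar : ∀ Ω V, Barrier b G Ω V → (∀ x ∈ Ω, w0 x ≤ V x) → ∀ n, ∀ x ∈ Ω, w n x ≤ V x := by
    intro Ω V hB h0 n
    induction n with
    | zero => exact h0
    | succ n ih => exact barrier_step hD (hgood n) hB ih
  -- uniform bound
  obtain ⟨K0, hK0⟩ := hw0.cb1.bdd
  obtain ⟨K1, hK1⟩ : ∃ K1, ∀ x ∈ Ω1, V1 x ≤ K1 := by
    have hcomp : IsCompact (closure Ω1) := hB1.bounded.isCompact_closure
    obtain ⟨C, hC⟩ := hcomp.exists_bound_of_continuousOn hB1.c2.continuous.continuousOn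
    exact ⟨C, fun x hx => (le_abs_self _).trans (hC x (subset_closure hx))⟩
  set K := max K0 (max K1 (-Real.log c)) with hK
  have hupper : ∀ n x, w n x ≤ K := by
    intro n x
    by_cases hx : x ∈ Ω1
    · exact ((hbar Ω1 V1 hB1 hw1 n x hx).trans (hK1 x hx)).trans
        ((le_max_left _ _).trans (le_max_right _ _))
    · have h1 := (hgood n).le_one x
      have h2 := hcb x hx
      have h3 : c * Real.exp (w n x) ≤ 1 :=
        (mul_le_mul_of_nonneg_right h2 (Real.exp_nonneg _)).trans h1
      have h4 : w n x ≤ -Real.log c := by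
        have h5 : Real.log (c * Real.exp (w n x)) ≤ 0 :=
          Real.log_nonpos (mul_nonneg hc.le (Real.exp_nonneg _)) h3
        rw [Real.log_mul hc.ne' (Real.exp_pos _).ne', Real.log_exp] at h5
        linarith
      exact h4.trans ((le_max_right _ _).trans (le_max_right _ _))
  have hlower : ∀ n x, w0 x ≤ w n x := fun n x => hmono x (Nat.zero_le n)
  have habs : ∀ n x, |w n x| ≤ K := by
    intro n x
    rw [abs_le]
    refine ⟨?_, hupper n x⟩
    have h1 := (abs_le.mp (hK0 x)).1
    have h2 := hlower n x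
    have h3 : K0 ≤ K := le_max_left _ _
    linarith
  -- limit
  have hbddabove : ∀ x, BddAbove (range fun n => w n x) := fun x => ⟨K, by
    rintro _ ⟨n, rfl⟩; exact hupper n x⟩
  set W : E → ℝ := fun x => ⨆ n, w n x with hW
  have hlim : ∀ x, Tendsto (fun n => w n x) atTop (𝓝 (W x)) := fun x =>
    tendsto_atTop_ciSup (hmono x) (hbddabove x)
  have hWabs : ∀ x, |W x| ≤ K := fun x =>
    le_of_tendsto ((hlim x).abs) (Eventually.of_forall fun n => habs n x)
  have hWmeas : Measurable W :=
    measurable_of_tendsto_metrizable (fun n => (hgood n).cb1.measurable) (tendsto_pi_nhds.mpr hlim)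
  obtain ⟨B, hB⟩ := hD.b_cb1.bdd
  obtain ⟨Γ, hΓ⟩ := hD.G_cb1.bdd
  have hFc : Continuous Fn := by unfold Fn; fun_prop
  have hHlim : ∀ x, Tendsto (fun n => H b G (w n) x) atTop (𝓝 (H b G W x)) := by
    intro x
    unfold H
    refine ((hlim x).add ?_).add tendsto_const_nhds
    have h1 : Tendsto (fun n => b x * Real.exp (w n x)) atTop (𝓝 (b x * Real.exp (W x))) :=
      ((Real.continuous_exp.tendsto _).comp (hlim x)).const_mul _
    exact (hFc.tendsto _).comp h1
  have hHmeas : ∀ n, Measurable (H b G (w n)) := fun n =>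
    (CB1.H hD.b_cb1 hD.G_cb1 (hgood n).cb1).measurable
  have hHbd : ∀ n x, |H b G (w n) x| ≤ K + (B * Real.exp K) * (1 + B * Real.exp K) + Γ :=
    fun n x => H_bdd hB hΓ (habs n) x
  have hfix : ∀ x, W x = R (H b G W) x := by
    intro x
    have h1 : Tendsto (fun n => R (H b G (w n)) x) atTop (𝓝 (R (H b G W) x)) :=
      R_tendsto hHmeas hHbd hHlim x
    have h2 : Tendsto (fun n => w (n + 1) x) atTop (𝓝 (W x)) :=
      (hlim x).comp (tendsto_add_atTop_nat 1)
    exact tendsto_nhds_unique h2 h1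
  have hfix' : W = R (H b G W) := funext hfix
  have hHWmeas : Measurable (H b G W) := by
    have h1 := hD.b_cb1.measurable
    have h2 := hD.G_cb1.measurable
    have h3 : Measurable Fn := hFc.measurable
    unfold H
    have h4 : Measurable (fun x => Fn (b x * Real.exp (W x))) :=
      h3.comp (h1.mul (Real.measurable_exp.comp hWmeas))
    exact (hWmeas.add h4).add h2
  have hHWbd : ∀ x, |H b G W x| ≤ K + (B * Real.exp K) * (1 + B * Real.exp K) + Γ :=
    fun x => H_bdd hB hΓ hWabs x
  have hWcont : Continuous W := by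
    rw [hfix']
    exact (R_differentiable hHWmeas hHWbd).continuous
  have hHWcont : Continuous (H b G W) := by
    unfold H
    have h1 := hD.b_cb1.continuous
    have h2 := hD.G_cb1.continuous
    fun_prop
  have hWcb1 : CB1 W := by
    rw [hfix']
    exact R_CB1 hHWcont hHWbd
  have hHWcb1 : CB1 (H b G W) := CB1.H hD.b_cb1 hD.G_cb1 hWcb1
  obtain ⟨hc2, hpde⟩ := R_C2 hHWcb1
  have hle1 : ∀ x, b x * Real.exp (W x) ≤ 1 := by
    intro x
    have h1 : Tendsto (fun n => b x * Real.exp (w n x)) atTop (𝓝 (b x * Real.exp (W x))) :=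
      ((Real.continuous_exp.tendsto _).comp (hlim x)).const_mul _
    exact le_of_tendsto h1 (Eventually.of_forall fun n => (hgood n).le_one x)
  have hge : ∀ x, w0 x ≤ W x := fun x =>
    ge_of_tendsto (hlim x) (Eventually.of_forall fun n => hlower n x)
  refine ⟨W, ?_, hge, ?_, hle1, ?_, ?_⟩
  · rw [hfix']; exact hc2
  · -- squeeze
    have h1 : Tendsto (fun x => -Real.log (b x)) (cocompact E) (𝓝 0) := by
      have h2 : Tendsto (fun x => Real.log (b x)) (cocompact E) (𝓝 0) := by
        have := (Real.continuousAt_log (x := 1) one_ne_zero).tendsto.comp hD.b_lim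
        rw [Real.log_one] at this
        exact this
      simpa using h2.neg
    refine tendsto_of_tendsto_of_tendsto_of_le_of_le' hw0.lim h1 (Eventually.of_forall hge) ?_
    have h3 : ∀ᶠ x in cocompact E, 0 < b x := hD.b_lim.eventually (lt_mem_nhds one_pos)
    filter_upwards [h3] with x hx
    have h4 : Real.log (b x * Real.exp (W x)) ≤ 0 :=
      Real.log_nonpos (mul_nonneg hx.le (Real.exp_nonneg _)) (hle1 x)
    rw [Real.log_mul hx.ne' (Real.exp_pos _).ne', Real.log_exp] at h4
    linarith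
  · intro x
    have := hpde x
    rwa [← hfix'] at this
  · intro Ω V hBV h0 x hx
    exact le_of_tendsto (hlim x) (Eventually.of_forall fun n => hbar Ω V hBV h0 n x hx)

end Pool.Agent.CSV
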