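import Pool.Agent.CSV.Radial
import Pool.Agent.CSV.Exist

set_option autoImplicit false

open Set Filter Topology

namespace Pool.Agent.CSV

/-- `t²+Mt+2M²`. -/
noncomputable def PM (M t : ℝ) : ℝ := t ^ 2 + M * t + 2 * M ^ 2
/-- `a = t(t+M)/P`. -/
noncomputable def aM (M t : ℝ) : ℝ := t * (t + M) / PM M t
/-- `φ_M(t) = log((1+t)(t+M)/P)`. -/
noncomputable def phiM (M t : ℝ) : ℝ := Real.log (1 + t) + Real.log (t + M) - Real.log (PM M t)
/-- Laplacian of `log a`. -/
noncomputable def gM (M t : ℝ) : ℝ :=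
  4 * M / (t + M) ^ 2 - 4 * M * (t ^ 2 + 8 * M * t + 2 * M ^ 2) / (PM M t) ^ 2

theorem PM_pos {M t : ℝ} (hM : 0 < M) (ht : 0 ≤ t) : 0 < PM M t := by
  unfold PM; positivity

variable {ι : Type*} [Fintype ι]

noncomputable def bb (p : ι → E) (x : E) : ℝ := ∏ j, (‖x - p j‖ ^ 2 / (1 + ‖x - p j‖ ^ 2))
noncomputable def GG (p : ι → E) (x : E) : ℝ := ∑ j, (-4 / (1 + ‖x - p j‖ ^ 2) ^ 2)
noncomputable def WW (M : ℝ) (p : ι → E) (x : E) : ℝ := ∑ j, phiM M (‖x - p j‖ ^ 2)

/-! ### the function `q` -/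

theorem contDiff_nsq (n : WithTop ℕ∞) (p : E) : ContDiff ℝ n (fun x : E => ‖x - p‖ ^ 2) :=
  (contDiff_norm_sq ℝ).comp (contDiff_id.sub contDiff_const)

theorem tendsto_nsq (p : E) : Tendsto (fun x : E => ‖x - p‖ ^ 2) (cocompact E) atTop := by
  have h1 : Tendsto (fun x : E => x - p) (cocompact E) (cocompact E) := by
    have := (Homeomorph.addRight (-p)).isClosedEmbedding.tendsto_cocompact
    simpa [sub_eq_add_neg] using this
  have h2 : Tendsto (fun x : E => ‖x - p‖) (cocompact E) atTop := tendsto_norm_cocompact_atTop.comp h1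
  exact (tendsto_pow_atTop (by norm_num)).comp h2

noncomputable def qq (p : E) (x : E) : ℝ := (1 + ‖x - p‖ ^ 2)⁻¹

theorem qq_pos (p x : E) : 0 < qq p x := by unfold qq; positivity

theorem qq_le_one (p x : E) : qq p x ≤ 1 := by
  unfold qq
  exact inv_le_one_of_one_le₀ (by nlinarith [sq_nonneg ‖x - p‖])

theorem qq_cb1 (p : E) : CB1 (qq p) where
  contDiff := by
    unfold qq
    exact (contDiff_const.add (contDiff_nsq 1 p)).inv fun x => by positivity
  bdd := ⟨1, fun x => by rw [abs_of_pos (qq_pos p x)]; exact qq_le_one p x⟩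
  dbdd := by
    refine ⟨1, fun x => ?_⟩
    have h1 : HasFDerivAt (fun x : E => ‖x - p‖ ^ 2) (2 • innerSL ℝ (x - p)) x := by
      have h2 : HasFDerivAt (fun x : E => x - p) (ContinuousLinearMap.id ℝ E) x :=
        (hasFDerivAt_id x).sub_const p
      have h3 := (hasStrictFDerivAt_norm_sq (x - p)).hasFDerivAt.comp x h2
      exact h3.congr_fderiv (ContinuousLinearMap.comp_id _)
    have h2 : HasFDerivAt (fun x : E => 1 + ‖x - p‖ ^ 2) (2 • innerSL ℝ (x - p)) x :=
      h1.const_add 1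
    have hpos : (1 + ‖x - p‖ ^ 2) ≠ 0 := by positivity
    have h3 : HasDerivAt (fun y : ℝ => y⁻¹) (-((1 + ‖x - p‖ ^ 2) ^ 2)⁻¹) (1 + ‖x - p‖ ^ 2) :=
      hasDerivAt_inv hpos
    have h4 := h3.comp_hasFDerivAt x h2
    have h5 : fderiv ℝ (qq p) x = (-((1 + ‖x - p‖ ^ 2) ^ 2)⁻¹) • (2 • innerSL ℝ (x - p)) := h4.fderiv
    have h7 : ‖(2 : ℕ) • innerSL ℝ (x - p)‖ ≤ 2 * ‖x - p‖ := by
      rw [two_smul]
      refine (norm_add_le _ _).trans ?_
      rw [innerSL_apply_norm]; linarith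
    rw [h5, norm_smul, norm_neg, norm_inv, norm_pow,
      Real.norm_of_nonneg (by positivity : (0:ℝ) ≤ 1 + ‖x - p‖ ^ 2)]
    rw [inv_mul_le_iff₀ (by positivity)]
    refine h7.trans ?_
    nlinarith [sq_nonneg (‖x - p‖ - 1), sq_nonneg (‖x - p‖), norm_nonneg (x - p)]

theorem qq_lim (p : E) : Tendsto (qq p) (cocompact E) (𝓝 0) := by
  unfold qq
  exact tendsto_inv_atTop_zero.comp (tendsto_atTop_add_const_left _ 1 (tendsto_nsq p))

/-- composition on a compact set -/
theorem CB1.comp_on {f : E → ℝ} {φ : ℝ → ℝ} {K : Set ℝ} (hK : IsCompact K)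
    (hφ : ∀ t ∈ K, ContDiffAt ℝ 1 φ t) (hf : CB1 f) (hfK : ∀ x, f x ∈ K) :
    CB1 (fun x => φ (f x)) where
  contDiff := contDiff_iff_contDiffAt.mpr fun x => (hφ _ (hfK x)).comp x hf.contDiff.contDiffAt
  bdd := by
    obtain ⟨C, hC⟩ := hK.exists_bound_of_continuousOn
      (fun t ht => (hφ t ht).continuousAt.continuousWithinAt)
    exact ⟨C, fun x => hC _ (hfK x)⟩
  dbdd := by
    obtain ⟨A', hA'⟩ := hf.dbdd
    have hdc : ContinuousOn (deriv φ) K := by
      intro t ht
      have h1 : ContinuousAt (fderiv ℝ φ) t :=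
        ((hφ t ht).fderiv_right (m := 0) (by norm_num)).continuousAt
      have h2 : ContinuousAt (fun s => fderiv ℝ φ s 1) t := h1.clm_apply continuousAt_const
      have e : deriv φ = fun s => fderiv ℝ φ s 1 := by ext s; simp
      rw [e]; exact h2.continuousWithinAt
    obtain ⟨C, hC⟩ := hK.exists_bound_of_continuousOn hdc
    refine ⟨C * A', fun x => ?_⟩
    have hd : HasFDerivAt (fun x => φ (f x)) (deriv φ (f x) • fderiv ℝ f x) x := by
      have h1 : HasDerivAt φ (deriv φ (f x)) (f x) :=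
        ((hφ _ (hfK x)).differentiableAt (by simp)).hasDerivAt
      exact h1.comp_hasFDerivAt x (hf.differentiable x).hasFDerivAt
    rw [hd.fderiv, norm_smul]
    exact mul_le_mul (hC _ (hfK x)) (hA' x) (norm_nonneg _)
      ((norm_nonneg _).trans (hC _ (hfK x)))

theorem CB1.const (c : ℝ) : CB1 (fun _ : E => c) where
  contDiff := contDiff_const
  bdd := ⟨|c|, fun _ => le_rfl⟩
  dbdd := ⟨0, fun x => by simp⟩

theorem CB1.sum {f : ι → E → ℝ} (hf : ∀ i, CB1 (f i)) : CB1 (fun x => ∑ i, f i x) := by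
  classical
  have : ∀ s : Finset ι, CB1 (fun x => ∑ i ∈ s, f i x) := by
    intro s
    induction s using Finset.induction_on with
    | empty => simpa using CB1.const 0
    | insert a s ha ih =>
      simp only [Finset.sum_insert ha]
      exact (hf a).add ih
  exact this _

theorem CB1.prod {f : ι → E → ℝ} (hf : ∀ i, CB1 (f i)) : CB1 (fun x => ∏ i, f i x) := by
  classical
  have : ∀ s : Finset ι, CB1 (fun x => ∏ i ∈ s, f i x) := by
    intro s
    induction s using Finset.induction_on with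
    | empty => simpa using CB1.const 1
    | insert a s ha ih =>
      simp only [Finset.prod_insert ha]
      exact (hf a).mul ih
  exact this _

theorem one_sub_qq (p x : E) : 1 - qq p x = ‖x - p‖ ^ 2 / (1 + ‖x - p‖ ^ 2) := by
  unfold qq
  have : (1 + ‖x - p‖ ^ 2) ≠ 0 := by positivity
  field_simp
  ring

theorem bb_eq (p : ι → E) (x : E) : bb p x = ∏ j, (1 - qq (p j) x) := by
  unfold bb
  exact Finset.prod_congr rfl fun j _ => (one_sub_qq _ _).symm

theorem bb_cb1 (p : ι → E) : CB1 (bb p) := by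
  have h : CB1 (fun x => ∏ j, (1 - qq (p j) x)) := by
    refine CB1.prod fun j => ?_
    have := (CB1.const 1).add ((CB1.const (-1)).mul (qq_cb1 (p j)))
    refine (by simpa [sub_eq_add_neg] using this)
  have e : bb p = fun x => ∏ j, (1 - qq (p j) x) := funext (bb_eq p)
  rw [e]; exact h

theorem GG_cb1 (p : ι → E) : CB1 (GG p) := by
  have h : CB1 (fun x => ∑ j, (-4) * (qq (p j) x * qq (p j) x)) :=
    CB1.sum fun j => (CB1.const (-4)).mul ((qq_cb1 (p j)).mul (qq_cb1 (p j)))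
  have e : GG p = fun x => ∑ j, (-4) * (qq (p j) x * qq (p j) x) := by
    ext x
    unfold GG qq
    refine Finset.sum_congr rfl fun j _ => ?_
    have : (1 + ‖x - p j‖ ^ 2) ≠ 0 := by positivity
    field_simp
  rw [e]; exact h

theorem bb_lim (p : ι → E) : Tendsto (bb p) (cocompact E) (𝓝 1) := by
  have e : bb p = fun x => ∏ j, (1 - qq (p j) x) := funext (bb_eq p)
  rw [e]
  have h : Tendsto (fun x => ∏ j, (1 - qq (p j) x)) (cocompact E) (𝓝 (∏ _j : ι, (1 - 0))) :=
    tendsto_finsetProd _ fun j _ => tendsto_const_nhds.sub (qq_lim (p j))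
  simpa using h

theorem GG_lim (p : ι → E) : Tendsto (GG p) (cocompact E) (𝓝 0) := by
  have e : GG p = fun x => ∑ j, (-4) * (qq (p j) x * qq (p j) x) := by
    ext x
    unfold GG qq
    refine Finset.sum_congr rfl fun j _ => ?_
    have : (1 + ‖x - p j‖ ^ 2) ≠ 0 := by positivity
    field_simp
  rw [e]
  have h : Tendsto (fun x => ∑ j, (-4) * (qq (p j) x * qq (p j) x)) (cocompact E)
      (𝓝 (∑ _j : ι, (-4) * ((0:ℝ) * 0))) :=
    tendsto_finsetSum _ fun j _ => (((qq_lim (p j)).mul (qq_lim (p j))).const_mul (-4))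
  simpa using h

theorem bb_contDiff (p : ι → E) : ContDiff ℝ 2 (bb p) := by
  unfold bb
  refine contDiff_prod fun j _ => ?_
  exact (contDiff_nsq 2 (p j)).div (contDiff_const.add (contDiff_nsq 2 (p j))) fun x => by positivity

theorem bb_nonneg (p : ι → E) (x : E) : 0 ≤ bb p x := by
  unfold bb
  exact Finset.prod_nonneg fun j _ => by positivity

theorem hasDerivAt_log_add {c t : ℝ} (h : c + t ≠ 0) :
    HasDerivAt (fun s : ℝ => Real.log (c + s)) (1 / (c + t)) t := by
  have h1 : HasDerivAt (fun s : ℝ => c + s) 1 t := by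
    simpa using (hasDerivAt_id t).const_add c
  simpa using h1.log h

theorem hasDerivAt_one_div_add {c t : ℝ} (h : c + t ≠ 0) :
    HasDerivAt (fun s : ℝ => 1 / (c + s)) (-1 / (c + t) ^ 2) t := by
  have h1 : HasDerivAt (fun s : ℝ => c + s) 1 t := by
    simpa using (hasDerivAt_id t).const_add c
  have := (hasDerivAt_const t (1:ℝ)).div h1 h
  refine this.congr_deriv ?_
  ring

/-- Laplacian of `log(c + |x-p|²)`. -/
theorem lap_log_add {c : ℝ} {p x : E} (h : c + ‖x - p‖ ^ 2 ≠ 0) :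
    Lap (fun y => Real.log (c + ‖y - p‖ ^ 2)) x = 4 * c / (c + ‖x - p‖ ^ 2) ^ 2 := by
  have h1 := lap_radial (φ := fun t => Real.log (c + t)) (φ1 := fun t => 1 / (c + t))
    (φ2 := -1 / (c + ‖x - p‖ ^ 2) ^ 2) (x := x) (p := p) ?_ ?_ ?_
  · rw [h1]
    field_simp
    ring
  · exact (contDiffAt_const.add contDiffAt_id).log h
  · have : ∀ᶠ t in 𝓝 (‖x - p‖ ^ 2), c + t ≠ 0 :=
      (continuousAt_const.add continuousAt_id).eventually_ne h
    filter_upwards [this] with t ht using hasDerivAt_log_add ht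
  · exact hasDerivAt_one_div_add h

theorem lap_nsq (p x : E) : Lap (fun y => ‖y - p‖ ^ 2) x = 4 := by
  have h1 := lap_radial (φ := fun t => t) (φ1 := fun _ => 1) (φ2 := 0) (x := x) (p := p)
    contDiffAt_id (Eventually.of_forall fun t => hasDerivAt_id t) (hasDerivAt_const _ _)
  rw [h1]; ring

theorem contDiffAt_log_add {c : ℝ} {p x : E} (h : c + ‖x - p‖ ^ 2 ≠ 0) :
    ContDiffAt ℝ 2 (fun y => Real.log (c + ‖y - p‖ ^ 2)) x :=
  (contDiffAt_const.add (contDiff_nsq 2 p).contDiffAt).log h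

theorem bb_ne_zero {p : ι → E} {x : E} (h : bb p x ≠ 0) (j : ι) : ‖x - p j‖ ^ 2 ≠ 0 := by
  intro h0
  apply h
  unfold bb
  refine Finset.prod_eq_zero (Finset.mem_univ j) ?_
  rw [h0]; simp

theorem log_bb {p : ι → E} {x : E} (h : bb p x ≠ 0) :
    Real.log (bb p x) = ∑ j, (Real.log (0 + ‖x - p j‖ ^ 2) - Real.log (1 + ‖x - p j‖ ^ 2)) := by
  unfold bb
  rw [Real.log_prod]
  · refine Finset.sum_congr rfl fun j _ => ?_
    rw [Real.log_div (bb_ne_zero h j) (by positivity), zero_add]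
  · intro j _
    have h1 := bb_ne_zero h j
    positivity

theorem lap_log_bb {p : ι → E} {x : E} (h : bb p x ≠ 0) :
    Lap (fun y => Real.log (bb p y)) x = GG p x := by
  have hev : ∀ᶠ y in 𝓝 x, bb p y ≠ 0 := (bb_contDiff p).continuous.continuousAt.eventually_ne h
  have e : (fun y => Real.log (bb p y)) =ᶠ[𝓝 x]
      fun y => ∑ j, (Real.log (0 + ‖y - p j‖ ^ 2) - Real.log (1 + ‖y - p j‖ ^ 2)) := by
    filter_upwards [hev] with y hy using log_bb hy
  rw [lap_congr e]
  have h0 : ∀ j, (0:ℝ) + ‖x - p j‖ ^ 2 ≠ 0 := fun j => by rw [zero_add]; exact bb_ne_zero h j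
  have h1 : ∀ j, (1:ℝ) + ‖x - p j‖ ^ 2 ≠ 0 := fun j => by positivity
  rw [lap_sum _ (fun j _ => (contDiffAt_log_add (h0 j)).sub (contDiffAt_log_add (h1 j)))]
  unfold GG
  refine Finset.sum_congr rfl fun j _ => ?_
  rw [lap_sub (contDiffAt_log_add (h0 j)) (contDiffAt_log_add (h1 j)), lap_log_add (h0 j),
    lap_log_add (h1 j)]
  ring

theorem data (p : ι → E) : Data (bb p) (GG p) where
  b_cb1 := bb_cb1 p
  b_c2 := bb_contDiff p
  b_nonneg := bb_nonneg p
  b_lim := bb_lim p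
  G_cb1 := GG_cb1 p
  G_lim := GG_lim p
  lap_log := fun _ hx => lap_log_bb hx

end Pool.Agent.CSV
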