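import Pool.Agent.CSV.Final

set_option autoImplicit false

open Set Filter Topology

namespace Pool.Agent.CSV

/-- Square lattice points with spacing `2 d`. -/
noncomputable def pts (d : ℝ) (n : ℕ) (k : Fin n × Fin n) : E :=
  !₂[2 * d * (k.1 : ℕ), 2 * d * (k.2 : ℕ)]

theorem pts_norm {d : ℝ} (hd : 0 ≤ d) {n : ℕ} (k : Fin n × Fin n) : ‖pts d n k‖ ≤ 3 * d * n := by
  have h1 : ‖pts d n k‖ ^ 2 = (2 * d * (k.1 : ℕ)) ^ 2 + (2 * d * (k.2 : ℕ)) ^ 2 := by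
    rw [EuclideanSpace.norm_sq_eq]
    simp [pts, Fin.sum_univ_two]
  have h2 : ((k.1 : ℕ) : ℝ) ≤ n := by exact_mod_cast k.1.2.le
  have h3 : ((k.2 : ℕ) : ℝ) ≤ n := by exact_mod_cast k.2.2.le
  have h4 : (2 * d * (k.1 : ℕ)) ^ 2 ≤ (2 * d * n) ^ 2 := pow_le_pow_left₀ (by positivity) (by gcongr) 2
  have h5 : (2 * d * (k.2 : ℕ)) ^ 2 ≤ (2 * d * n) ^ 2 := pow_le_pow_left₀ (by positivity) (by gcongr) 2
  refine le_of_pow_le_pow_left₀ (n := 2) (by norm_num) (by positivity) ?_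
  rw [h1]
  nlinarith [mul_nonneg (sq_nonneg d) (sq_nonneg (n:ℝ))]

theorem pts_sep {d : ℝ} (hd : 0 < d) {n : ℕ} {k l : Fin n × Fin n} (h : k ≠ l) :
    2 * d ≤ ‖pts d n k - pts d n l‖ := by
  have h1 : ‖pts d n k - pts d n l‖ ^ 2 = (2 * d * ((k.1 : ℕ) - (l.1 : ℕ))) ^ 2 +
      (2 * d * ((k.2 : ℕ) - (l.2 : ℕ))) ^ 2 := by
    rw [EuclideanSpace.norm_sq_eq]
    simp [pts, Fin.sum_univ_two]
    ring
  refine le_of_pow_le_pow_left₀ (n := 2) (by norm_num) (norm_nonneg _) ?_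
  rw [h1]
  have hint : ∀ a b : ℕ, a ≠ b → (1:ℝ) ≤ ((a:ℝ) - b) ^ 2 := by
    intro a b hab
    have h2 : (1:ℤ) ≤ ((a:ℤ) - b) ^ 2 := by
      have h3 : (a:ℤ) - b ≠ 0 := by
        intro h0; apply hab; have : (a:ℤ) = b := by linarith
        exact_mod_cast this
      have h4 := sq_pos_of_ne_zero (a := (a:ℤ) - b) h3
      linarith
    exact_mod_cast h2
  by_cases h1' : k.1 = l.1
  · have h2 : k.2 ≠ l.2 := fun h2 => h (Prod.ext h1' h2)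
    have h3 := hint (k.2 : ℕ) (l.2 : ℕ) (fun h0 => h2 (Fin.ext h0))
    nlinarith [mul_nonneg (sq_nonneg d) (sq_nonneg (((k.1 : ℕ) : ℝ) - (l.1 : ℕ))),
      mul_le_mul_of_nonneg_left h3 (by positivity : 0 ≤ 4 * d ^ 2)]
  · have h3 := hint (k.1 : ℕ) (l.1 : ℕ) (fun h0 => h1' (Fin.ext h0))
    nlinarith [mul_nonneg (sq_nonneg d) (sq_nonneg (((k.2 : ℕ) : ℝ) - (l.2 : ℕ))),
      mul_le_mul_of_nonneg_left h3 (by positivity : 0 ≤ 4 * d ^ 2)]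

/-- Non-uniqueness for `(72 d)²` vortices on a square lattice of spacing `2 d`, `d ≥ 10^7`. -/
theorem nonuniqueness (d : ℕ) (hd : 10 ^ 7 ≤ d) :
    ∃ p : Fin ((72 * d) * (72 * d)) → E, Function.Injective p ∧
      ∃ u v : E → ℝ, IsSol p u ∧ IsSol p v ∧ ∃ x0, (∀ j, x0 ≠ p j) ∧ u x0 ≠ v x0 := by
  have hdR : (10:ℝ) ^ 7 ≤ d := by exact_mod_cast hd
  have hd0 : (0:ℝ) < d := by linarith [show (0:ℝ) < 10 ^ 7 by norm_num]
  have hd1 : (1:ℝ) ≤ d := by linarith [show (1:ℝ) ≤ 10 ^ 7 by norm_num]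
  set n := 72 * d with hn
  have hnR : (n:ℝ) = 72 * d := by rw [hn]; push_cast; ring
  set p : Fin (n * n) → E := fun k => pts d n (finProdFinEquiv.symm k) with hp
  have hsep : ∀ i j, i ≠ j → 2 * (d:ℝ) ≤ ‖p i - p j‖ := fun i j hij =>
    pts_sep hd0 fun h => hij (finProdFinEquiv.symm.injective h)
  have hinj : Function.Injective p := by
    intro i j hij
    by_contra hne
    have := hsep i j hne
    rw [hij, sub_self, norm_zero] at this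
    linarith
  have hcard : (Fintype.card (Fin (n * n)) : ℝ) = (72 * d) ^ 2 := by
    rw [Fintype.card_fin]; push_cast; rw [hnR]; ring
  have hConf : Conf (3 * (d:ℝ) * n) p := by
    refine ⟨by rw [hnR]; positivity, fun j => pts_norm hd0.le _, ?_⟩
    rw [hcard, hnR]
    nlinarith
  set x0 : E := !₂[-(d:ℝ), 0] with hx0
  have hx0n : ‖x0‖ ^ 2 = (d:ℝ) ^ 2 := by
    rw [EuclideanSpace.norm_sq_eq]
    simp [hx0, Fin.sum_univ_two]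
  have hx0n' : ‖x0‖ ≤ 3 * (d:ℝ) * n := by
    have h1 : ‖x0‖ = d := by
      have := Real.sqrt_sq (norm_nonneg x0)
      rw [← this, hx0n, Real.sqrt_sq hd0.le]
    rw [h1, hnR]
    nlinarith
  have hx0d : ∀ j, (d:ℝ) ^ 2 ≤ ‖x0 - p j‖ ^ 2 := by
    intro j
    set k := finProdFinEquiv.symm j with hk
    have h1 : ‖x0 - p j‖ ^ 2 = (-(d:ℝ) - 2 * d * (k.1 : ℕ)) ^ 2 + (0 - 2 * d * (k.2 : ℕ)) ^ 2 := by
      rw [EuclideanSpace.norm_sq_eq]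
      simp [hx0, hp, pts, Fin.sum_univ_two, hk]
    rw [h1]
    have h2 : (0:ℝ) ≤ (k.1 : ℕ) := by positivity
    have h3 : 0 ≤ (d:ℝ) ^ 2 * (k.1 : ℕ) := by positivity
    nlinarith [sq_nonneg ((0:ℝ) - 2 * d * (k.2 : ℕ)), sq_nonneg ((d:ℝ) * (k.1 : ℕ))]
  have hd14 : (10:ℝ) ^ 14 ≤ (d:ℝ) ^ 2 := by
    calc (10:ℝ) ^ 14 = (10 ^ 7) ^ 2 := by norm_num
      _ ≤ _ := pow_le_pow_left₀ (by norm_num) hdR 2
  obtain ⟨u, v, hu, hv, huv⟩ := two_solutions (M := 16384) (d := (d:ℝ)) hConf le_rfl hd1 hsep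
    (by linarith [show (16384:ℝ) / 8 ≤ 10 ^ 14 by norm_num])
    (by
      rw [hcard]
      have h1 : (64:ℝ) * (72 * d) ^ 2 * 16384 ^ 2 = (64 * 72 ^ 2 * 16384 ^ 2) * d ^ 2 := by ring
      rw [h1]
      have h2 : (64 * 72 ^ 2 * 16384 ^ 2 : ℝ) ≤ 10 ^ 14 := by norm_num
      have h3 : (64 * 72 ^ 2 * 16384 ^ 2 : ℝ) ≤ (d:ℝ) ^ 2 := h2.trans hd14
      calc (64 * 72 ^ 2 * 16384 ^ 2 : ℝ) * (d:ℝ) ^ 2 ≤ (d:ℝ) ^ 2 * (d:ℝ) ^ 2 := by gcongr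
        _ = (d:ℝ) ^ 4 := by ring)
    hx0n' hx0d
  refine ⟨p, hinj, u, v, hu, hv, x0, fun j hj => ?_, huv⟩
  have := hx0d j
  rw [hj, sub_self, norm_zero] at this
  nlinarith

end Pool.Agent.CSV
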