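import Pool.Agent.CSV.Resolvent

set_option autoImplicit false

open Set Filter Topology MeasureTheory

namespace Pool.Agent.CSV

theorem hasFDerivAt_gauss (u : E) : HasFDerivAt gauss (-(gauss u) • innerSL ℝ u) u := by
  have h1 : HasFDerivAt (fun z : E => ‖z‖ ^ 2) (2 • innerSL ℝ u) u :=
    (hasStrictFDerivAt_norm_sq u).hasFDerivAt
  have h2 : HasFDerivAt (fun z : E => -(1/2) * ‖z‖ ^ 2) ((-(1/2) : ℝ) • (2 • innerSL ℝ u)) u :=
    h1.const_mul _
  have h3 := (h2.exp).const_mul (2 * Real.pi)⁻¹
  have h4 : gauss = fun z : E => (2 * Real.pi)⁻¹ * Real.exp (-(1/2) * ‖z‖ ^ 2) := by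
    ext z; exact gauss_eq z
  rw [h4]
  refine h3.congr_fderiv ?_
  ext v
  simp
  ring

/-- Derivative of `x ↦ gauss (y - x)`. -/
theorem hasFDerivAt_gauss_sub (y x : E) :
    HasFDerivAt (fun x : E => gauss (y - x)) ((gauss (y - x)) • innerSL ℝ (y - x)) x := by
  have h1 : HasFDerivAt (fun x : E => y - x) (-ContinuousLinearMap.id ℝ E) x :=
    (hasFDerivAt_id x).const_sub y
  have h2 := (hasFDerivAt_gauss (y - x)).comp x h1
  refine h2.congr_fderiv ?_
  ext v
  simp

theorem shift_integral {k : E → ℝ} {C : ℝ} (x : E) :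
    ∫ z : E, k (x + z) * gauss z = ∫ y : E, k y * gauss (y - x) := by
  have := integral_add_left_eq_self (μ := (volume : Measure E)) (fun y : E => k y * gauss (y - x)) x
  rw [← this]
  simp

theorem hasFDerivAt_Q {k : E → ℝ} {C : ℝ} (hm : Measurable k) (hC : ∀ x, |k x| ≤ C) (x : E) :
    HasFDerivAt (fun x : E => ∫ z : E, k (x + z) * gauss z)
      (∫ z : E, (k (x + z) * gauss z) • innerSL ℝ z) x := by
  have hC0 : 0 ≤ C := (abs_nonneg _).trans (hC 0)
  have key := hasFDerivAt_integral_of_dominated_of_fderiv_le (μ := (volume : Measure E))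
    (F := fun (x : E) (y : E) => k y * gauss (y - x))
    (F' := fun (x : E) (y : E) => (k y * gauss (y - x)) • innerSL ℝ (y - x))
    (x₀ := x) (s := Metric.ball x 1) (bound := fun y => C * dom (y - x))
    (Metric.ball_mem_nhds x one_pos) ?_ ?_ ?_ ?_ ?_ ?_
  · have e1 : (fun x : E => ∫ z : E, k (x + z) * gauss z)
        = fun x : E => ∫ y : E, k y * gauss (y - x) := by
      ext x'
      exact shift_integral (C := C) x'
    have e2 : (∫ z : E, (k (x + z) * gauss z) • innerSL ℝ z)
        = ∫ y : E, (k y * gauss (y - x)) • innerSL ℝ (y - x) := by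
      have := integral_add_left_eq_self (μ := (volume : Measure E))
        (fun y : E => (k y * gauss (y - x)) • innerSL ℝ (y - x)) x
      rw [← this]
      simp
    rw [e1, e2]
    exact key
  · refine Eventually.of_forall fun x' => ?_
    have h2 : Measurable (fun y : E => gauss (y - x')) := measurable_gauss.comp (by fun_prop)
    exact (hm.mul h2).aestronglyMeasurable
  · have h3 := (integrable_gauss.comp_sub_right x).const_mul C
    refine h3.mono' ?_ (Eventually.of_forall fun y => ?_)
    · have h2 : Measurable (fun y : E => gauss (y - x)) := measurable_gauss.comp (by fun_prop)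
      exact (hm.mul h2).aestronglyMeasurable
    · rw [norm_mul, Real.norm_of_nonneg (gauss_nonneg _)]
      exact mul_le_mul_of_nonneg_right (hC _) (gauss_nonneg _)
  · have h2 : Measurable (fun y : E => gauss (y - x)) := measurable_gauss.comp (by fun_prop)
    have h3 : Measurable (fun y : E => innerSL ℝ (y - x)) :=
      (innerSL ℝ).continuous.measurable.comp (by fun_prop)
    exact ((hm.mul h2).aestronglyMeasurable).smul h3.aestronglyMeasurable
  · refine Eventually.of_forall fun y x' hx' => ?_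
    have hx1 : ‖x' - x‖ ≤ 1 := by
      rw [Metric.mem_ball, dist_eq_norm] at hx'; exact hx'.le
    rw [norm_smul, norm_mul, innerSL_apply_norm, Real.norm_of_nonneg (gauss_nonneg _)]
    have e : y - x' = (y - x) - (x' - x) := by abel
    have h1 : gauss (y - x') ≤ Real.exp (-(1/4) * ‖y - x‖ ^ 2 + 1/2) := by
      rw [e]; exact gauss_sub_le hx1
    have h2 : ‖y - x'‖ ≤ ‖y - x‖ + 1 := by
      rw [e]
      exact (norm_sub_le _ _).trans (by linarith)
    have h3 : ‖k y‖ ≤ C := hC y
    unfold dom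
    calc ‖k y‖ * gauss (y - x') * ‖y - x'‖
        ≤ C * Real.exp (-(1/4) * ‖y - x‖ ^ 2 + 1/2) * (‖y - x‖ + 1) := by
          have := gauss_nonneg (y - x')
          gcongr
      _ = C * ((‖y - x‖ + 1) * Real.exp (-(1/4) * ‖y - x‖ ^ 2 + 1/2)) := by ring
  · exact (integrable_dom.comp_sub_right x).const_mul C
  · refine Eventually.of_forall fun y x' _ => ?_
    have h := (hasFDerivAt_gauss_sub y x').const_mul (k y)
    refine h.congr_fderiv ?_
    rw [smul_smul]

/-- The derivative of the resolvent as a continuous linear map. -/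
noncomputable def DP (h : E → ℝ) (s : ℝ) (x : E) : E →L[ℝ] ℝ :=
  ∫ z : E, (h (x + s • z) * gauss z) • innerSL ℝ z

noncomputable def DR (h : E → ℝ) (x : E) : E →L[ℝ] ℝ :=
  ∫ s in Ioi (0 : ℝ), Real.exp (-s ^ 2 / 2) • DP h s x

theorem DP_norm_le {h : E → ℝ} {C : ℝ} (hC : ∀ x, |h x| ≤ C) (s : ℝ) (x : E) :
    ‖DP h s x‖ ≤ C * m1 := by
  unfold DP m1
  rw [← integral_const_mul]
  refine norm_integral_le_of_norm_le (integrable_norm_mul_gauss.const_mul C)
    (Eventually.of_forall fun z => ?_)
  rw [norm_smul, norm_mul, innerSL_apply_norm, Real.norm_of_nonneg (gauss_nonneg _)]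
  have h1 : ‖h (x + s • z)‖ ≤ C := hC _
  have h2 := gauss_nonneg z
  calc ‖h (x + s • z)‖ * gauss z * ‖z‖ ≤ C * gauss z * ‖z‖ := by gcongr
    _ = C * (‖z‖ * gauss z) := by ring

theorem hasFDerivAt_P {h : E → ℝ} {C : ℝ} (hm : Measurable h) (hC : ∀ x, |h x| ≤ C) {s : ℝ}
    (hs : 0 < s) (x : E) :
    HasFDerivAt (fun x : E => P h s x) (s⁻¹ • DP h s x) x := by
  have hk : Measurable (fun y : E => h (s • y)) := hm.comp (by fun_prop)
  have h1 := hasFDerivAt_Q hk (fun y => hC (s • y)) (s⁻¹ • x)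
  have h2 : HasFDerivAt (fun x : E => s⁻¹ • x) (s⁻¹ • ContinuousLinearMap.id ℝ E) x :=
    (hasFDerivAt_id (𝕜 := ℝ) x).const_smul s⁻¹
  have h3 := h1.comp x h2
  have e : ∀ x z : E, s • (s⁻¹ • x + z) = x + s • z := by
    intro x z
    rw [smul_add, smul_smul, mul_inv_cancel₀ hs.ne', one_smul]
  have e1 : (fun x : E => P h s x) = (fun x : E => ∫ z : E, h (s • (x + z)) * gauss z) ∘
      (fun x : E => s⁻¹ • x) := by
    ext x'
    simp only [P, Function.comp, e]
  rw [e1]
  refine h3.congr_fderiv ?_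
  simp only [DP, e]
  ext v
  simp

theorem stronglyMeasurable_DP {h : E → ℝ} (hm : Measurable h) (x : E) :
    StronglyMeasurable (fun s : ℝ => DP h s x) := by
  unfold DP
  have h1 : StronglyMeasurable (Function.uncurry fun (s : ℝ) (z : E) =>
      (h (x + s • z) * gauss z) • innerSL ℝ z) := by
    have h2 : Measurable (fun p : ℝ × E => h (x + p.1 • p.2)) := hm.comp (by fun_prop)
    have h3 : Measurable (fun p : ℝ × E => h (x + p.1 • p.2) * gauss p.2) :=
      h2.mul (measurable_gauss.comp measurable_snd)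
    have h4 : StronglyMeasurable (fun p : ℝ × E => innerSL ℝ p.2) :=
      ((innerSL ℝ).continuous.comp continuous_snd).stronglyMeasurable
    exact h3.stronglyMeasurable.smul h4
  exact h1.integral_prod_right'

theorem hasFDerivAt_R {h : E → ℝ} {C : ℝ} (hm : Measurable h) (hC : ∀ x, |h x| ≤ C) (x : E) :
    HasFDerivAt (R h) (DR h x) x := by
  have hC0 : 0 ≤ C := (abs_nonneg _).trans (hC 0)
  have key := hasFDerivAt_integral_of_dominated_of_fderiv_le
    (μ := (volume : Measure ℝ).restrict (Ioi (0:ℝ)))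
    (F := fun (x : E) (s : ℝ) => s * Real.exp (-s ^ 2 / 2) * P h s x)
    (F' := fun (x : E) (s : ℝ) => (s * Real.exp (-s ^ 2 / 2)) • (s⁻¹ • DP h s x))
    (x₀ := x) (s := univ) (bound := fun s => Real.exp (-s ^ 2 / 2) * (C * m1))
    univ_mem ?_ ?_ ?_ ?_ ?_ ?_
  · have e : DR h x = ∫ s in Ioi (0 : ℝ), (s * Real.exp (-s ^ 2 / 2)) • (s⁻¹ • DP h s x) := by
      unfold DR
      refine setIntegral_congr_fun measurableSet_Ioi fun s hs => ?_
      have hs' : (0:ℝ) < s := hs
      rw [smul_smul]
      congr 1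
      field_simp
    rw [e]
    exact key
  · exact Eventually.of_forall fun x' => (integrableOn_R hm hC x').aestronglyMeasurable
  · exact integrableOn_R hm hC x
  · have h1 := stronglyMeasurable_DP hm x
    have h2 : StronglyMeasurable (fun s : ℝ => s * Real.exp (-s ^ 2 / 2)) :=
      (by fun_prop : Measurable fun s : ℝ => s * Real.exp (-s ^ 2 / 2)).stronglyMeasurable
    have h3 : StronglyMeasurable (fun s : ℝ => s⁻¹) := measurable_inv.stronglyMeasurable
    exact (h2.smul (h3.smul h1)).aestronglyMeasurable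
  · refine (ae_restrict_iff' measurableSet_Ioi).mpr (Eventually.of_forall fun s hs x' _ => ?_)
    have hs' : (0:ℝ) < s := hs
    rw [smul_smul, norm_smul]
    have e : s * Real.exp (-s ^ 2 / 2) * s⁻¹ = Real.exp (-s ^ 2 / 2) := by field_simp
    rw [e, Real.norm_of_nonneg (Real.exp_nonneg _)]
    exact mul_le_mul_of_nonneg_left (DP_norm_le hC s x') (Real.exp_nonneg _)
  · exact integrableOn_exp_neg_sq.mul_const _
  · refine (ae_restrict_iff' measurableSet_Ioi).mpr (Eventually.of_forall fun s hs x' _ => ?_)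
    have hs' : (0:ℝ) < s := hs
    exact (hasFDerivAt_P hm hC hs' x').const_mul _

theorem DR_norm_le {h : E → ℝ} {C : ℝ} (hC : ∀ x, |h x| ≤ C) (x : E) :
    ‖DR h x‖ ≤ (∫ s in Ioi (0 : ℝ), Real.exp (-s ^ 2 / 2)) * (C * m1) := by
  unfold DR
  rw [← integral_mul_const]
  refine norm_integral_le_of_norm_le (integrableOn_exp_neg_sq.mul_const _)
    (Eventually.of_forall fun s => ?_)
  rw [norm_smul, Real.norm_of_nonneg (Real.exp_nonneg _)]
  exact mul_le_mul_of_nonneg_left (DP_norm_le hC s x) (Real.exp_nonneg _)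

theorem continuous_DP {h : E → ℝ} {C : ℝ} (hc : Continuous h) (hC : ∀ x, |h x| ≤ C) (s : ℝ) :
    Continuous (fun x => DP h s x) := by
  unfold DP
  refine continuous_of_dominated (bound := fun z => C * (‖z‖ * gauss z)) (fun x => ?_) (fun x => ?_)
    (integrable_norm_mul_gauss.const_mul C) (Eventually.of_forall fun z => ?_)
  · have := continuous_gauss
    have h4 : Continuous (fun z : E => innerSL ℝ z) := (innerSL ℝ).continuous
    exact (by fun_prop : Continuous fun z : E => (h (x + s • z) * gauss z) • innerSL ℝ z).aestronglyMeasurable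
  · refine Eventually.of_forall fun z => ?_
    rw [norm_smul, norm_mul, innerSL_apply_norm, Real.norm_of_nonneg (gauss_nonneg _)]
    have h1 : ‖h (x + s • z)‖ ≤ C := hC _
    have h2 := gauss_nonneg z
    calc ‖h (x + s • z)‖ * gauss z * ‖z‖ ≤ C * gauss z * ‖z‖ := by gcongr
      _ = C * (‖z‖ * gauss z) := by ring
  · fun_prop

theorem continuous_DR {h : E → ℝ} {C : ℝ} (hc : Continuous h) (hC : ∀ x, |h x| ≤ C) :
    Continuous (DR h) := by
  unfold DR
  refine continuous_of_dominated (bound := fun s => Real.exp (-s ^ 2 / 2) * (C * m1)) (fun x => ?_)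
    (fun x => ?_) (integrableOn_exp_neg_sq.mul_const _) (Eventually.of_forall fun s => ?_)
  · have h1 := stronglyMeasurable_DP hc.measurable x
    have h2 : StronglyMeasurable (fun s : ℝ => Real.exp (-s ^ 2 / 2)) :=
      (by fun_prop : Measurable fun s : ℝ => Real.exp (-s ^ 2 / 2)).stronglyMeasurable
    exact (h2.smul h1).aestronglyMeasurable
  · refine Eventually.of_forall fun s => ?_
    rw [norm_smul, Real.norm_of_nonneg (Real.exp_nonneg _)]
    exact mul_le_mul_of_nonneg_left (DP_norm_le hC s x) (Real.exp_nonneg _)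
  · exact (continuous_DP hc hC s).const_smul (Real.exp (-s ^ 2 / 2))

theorem R_differentiable {h : E → ℝ} {C : ℝ} (hm : Measurable h) (hC : ∀ x, |h x| ≤ C) :
    Differentiable ℝ (R h) := fun x => (hasFDerivAt_R hm hC x).differentiableAt

theorem R_contDiff_one {h : E → ℝ} {C : ℝ} (hc : Continuous h) (hC : ∀ x, |h x| ≤ C) :
    ContDiff ℝ 1 (R h) :=
  contDiff_one_iff_hasFDerivAt.mpr ⟨DR h, continuous_DR hc hC, hasFDerivAt_R hc.measurable hC⟩

theorem R_CB1 {h : E → ℝ} {C : ℝ} (hc : Continuous h) (hC : ∀ x, |h x| ≤ C) : CB1 (R h) where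
  contDiff := R_contDiff_one hc hC
  bdd := ⟨C, R_abs_le hC⟩
  dbdd := ⟨_, fun x => by
    rw [(hasFDerivAt_R hc.measurable hC x).fderiv]; exact DR_norm_le hC x⟩

end Pool.Agent.CSV
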