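import Pool.Agent.CSV.WFun

set_option autoImplicit false

open Set Filter Topology

namespace Pool.Agent.CSV

variable {ι : Type*} [Fintype ι]

theorem gM_eq {M t : ℝ} (hM : 0 < M) (ht : 0 ≤ t) :
    gM M t = 4 * M * (2 * M ^ 4 - 8 * M ^ 3 * t - 14 * M ^ 2 * t ^ 2 - 8 * M * t ^ 3) /
      ((t + M) ^ 2 * (PM M t) ^ 2) := by
  have hP := PM_pos hM ht
  have h1 : 0 < t + M := by positivity
  unfold gM
  rw [div_sub_div _ _ (by positivity) (by positivity)]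
  congr 1
  unfold PM
  ring

theorem gM_nonneg {M t : ℝ} (hM : 0 < M) (ht : 0 ≤ t) (h : t ≤ M / 6) : 0 ≤ gM M t := by
  rw [gM_eq hM ht]
  have hP := PM_pos hM ht
  have h1 : 0 < t + M := by positivity
  refine div_nonneg (mul_nonneg (by positivity) ?_) (by positivity)
  have h2 : t ^ 2 ≤ (M / 6) ^ 2 := pow_le_pow_left₀ ht h 2
  have h3 : t ^ 3 ≤ (M / 6) ^ 3 := pow_le_pow_left₀ ht h 3
  have h4 : 8 * M ^ 3 * t ≤ 8 * M ^ 3 * (M / 6) := by gcongr
  have h5 : 14 * M ^ 2 * t ^ 2 ≤ 14 * M ^ 2 * (M / 6) ^ 2 := by gcongr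
  have h6 : 8 * M * t ^ 3 ≤ 8 * M * (M / 6) ^ 3 := by gcongr
  have h7 : 0 < M ^ 4 := by positivity
  nlinarith

theorem gM_ge {M t : ℝ} (hM : 0 < M) (ht : 0 ≤ t) (h : t ≤ M / 8) : 1 / (2 * M) ≤ gM M t := by
  rw [gM_eq hM ht]
  have hP := PM_pos hM ht
  have h1 : 0 < t + M := by positivity
  rw [div_le_div_iff₀ (by positivity) (by positivity)]
  have h2 : t ^ 2 ≤ (M / 8) ^ 2 := pow_le_pow_left₀ ht h 2
  have h3 : t ^ 3 ≤ (M / 8) ^ 3 := pow_le_pow_left₀ ht h 3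
  have h4 : 8 * M ^ 3 * t ≤ 8 * M ^ 3 * (M / 8) := by gcongr
  have h5 : 14 * M ^ 2 * t ^ 2 ≤ 14 * M ^ 2 * (M / 8) ^ 2 := by gcongr
  have h6 : 8 * M * t ^ 3 ≤ 8 * M * (M / 8) ^ 3 := by gcongr
  have h7 : (t + M) ^ 2 ≤ (9 / 8 * M) ^ 2 := pow_le_pow_left₀ h1.le (by linarith) 2
  have h8 : PM M t ≤ 137 / 64 * M ^ 2 := by unfold PM; nlinarith
  have h9 : (PM M t) ^ 2 ≤ (137 / 64 * M ^ 2) ^ 2 := pow_le_pow_left₀ hP.le h8 2
  have h10 : (t + M) ^ 2 * (PM M t) ^ 2 ≤ (9 / 8 * M) ^ 2 * (137 / 64 * M ^ 2) ^ 2 :=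
    mul_le_mul h7 h9 (by positivity) (by positivity)
  have h11 : 0 < M ^ 4 := by positivity
  have h12 : (49/64) * M ^ 4 ≤ 2 * M ^ 4 - 8 * M ^ 3 * t - 14 * M ^ 2 * t ^ 2 - 8 * M * t ^ 3 := by
    nlinarith
  have h13 : 4 * M * ((49/64) * M ^ 4) * (2 * M) ≤
      4 * M * (2 * M ^ 4 - 8 * M ^ 3 * t - 14 * M ^ 2 * t ^ 2 - 8 * M * t ^ 3) * (2 * M) := by
    gcongr
  refine le_trans ?_ h13
  rw [one_mul]
  refine h10.trans ?_
  have h14 : 0 < M ^ 6 := by positivity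
  nlinarith

theorem neg_gM_le {M t : ℝ} (hM : 0 < M) (ht : 0 ≤ t) : -gM M t ≤ 32 * M / PM M t := by
  have hP := PM_pos hM ht
  have h1 : 0 < t + M := by positivity
  unfold gM
  have h2 : 0 ≤ 4 * M / (t + M) ^ 2 := by positivity
  have h3 : 4 * M * (t ^ 2 + 8 * M * t + 2 * M ^ 2) / (PM M t) ^ 2 ≤ 32 * M / PM M t := by
    rw [div_le_div_iff₀ (by positivity) hP]
    have h4 : t ^ 2 + 8 * M * t + 2 * M ^ 2 ≤ 8 * PM M t := by unfold PM; nlinarith [sq_nonneg t, sq_nonneg M]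
    calc 4 * M * (t ^ 2 + 8 * M * t + 2 * M ^ 2) * PM M t ≤ 4 * M * (8 * PM M t) * PM M t := by gcongr
      _ = 32 * M * PM M t ^ 2 := by ring
  linarith

theorem one_sub_aM {M t : ℝ} (hM : 0 < M) (ht : 0 ≤ t) : 1 - aM M t = 2 * M ^ 2 / PM M t := by
  have hP := PM_pos hM ht
  unfold aM
  rw [eq_div_iff hP.ne', sub_mul, div_mul_cancel₀ _ hP.ne']
  unfold PM; ring

theorem neg_gM_le' {M t : ℝ} (hM : 0 < M) (ht : 0 ≤ t) : -gM M t ≤ 16 / M * (1 - aM M t) := by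
  refine (neg_gM_le hM ht).trans (le_of_eq ?_)
  have hP := PM_pos hM ht
  rw [one_sub_aM hM ht]
  field_simp
  ring

theorem aM_ge {M t : ℝ} (hM : 0 < M) (h : M / 8 ≤ t) : 1 / 16 ≤ aM M t := by
  have ht : 0 ≤ t := le_trans (by positivity) h
  have hP := PM_pos hM ht
  unfold aM
  rw [div_le_div_iff₀ (by norm_num) hP]
  unfold PM
  nlinarith [mul_nonneg (sub_nonneg.mpr h) ht]

omit [Fintype ι] in
theorem prod_mul_sum_le (s : Finset ι) (a : ι → ℝ) (h0 : ∀ i, 0 ≤ a i) (h1 : ∀ i, a i ≤ 1) :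
    (∏ i ∈ s, a i) * ∑ i ∈ s, (1 - a i) ≤ 1 - ∏ i ∈ s, a i := by
  classical
  induction s using Finset.induction_on with
  | empty => simp
  | insert j s hj ih =>
    rw [Finset.prod_insert hj, Finset.sum_insert hj]
    set A := ∏ i ∈ s, a i with hA
    have hA0 : 0 ≤ A := Finset.prod_nonneg fun i _ => h0 i
    have hA1 : A ≤ 1 := Finset.prod_le_one (fun i _ => h0 i) fun i _ => h1 i
    have h2 := mul_le_mul_of_nonneg_left ih (h0 j)
    have h3 : a j * A ≤ 1 := by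
      calc a j * A ≤ 1 * 1 := mul_le_mul (h1 j) hA1 hA0 zero_le_one
        _ = 1 := one_mul 1
    nlinarith [mul_nonneg (sub_nonneg.mpr (h1 j)) (sub_nonneg.mpr h3)]

omit [Fintype ι] in
theorem one_sub_sum_le_prod (s : Finset ι) (a : ι → ℝ) (h0 : ∀ i, 0 ≤ a i) (h1 : ∀ i, a i ≤ 1) :
    1 - ∑ i ∈ s, (1 - a i) ≤ ∏ i ∈ s, a i := by
  classical
  induction s using Finset.induction_on with
  | empty => simp
  | insert j s hj ih =>
    rw [Finset.prod_insert hj, Finset.sum_insert hj]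
    set A := ∏ i ∈ s, a i with hA
    have hA0 : 0 ≤ A := Finset.prod_nonneg fun i _ => h0 i
    have hA1 : A ≤ 1 := Finset.prod_le_one (fun i _ => h0 i) fun i _ => h1 i
    nlinarith [mul_nonneg (sub_nonneg.mpr (h1 j)) (sub_nonneg.mpr hA1)]

theorem Fn_nonneg {s : ℝ} (h0 : 0 ≤ s) (h1 : s ≤ 1) : 0 ≤ Fn s :=
  mul_nonneg h0 (sub_nonneg.mpr h1)

/-- First mechanism: the product is not too small. -/
theorem sub_of_prod {M : ℝ} (hM : 0 < M) {p : ι → E} {x : E}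
    (h : 16 / M ≤ (∏ j, aM M (‖x - p j‖ ^ 2)) ^ 2) :
    0 ≤ ∑ j, gM M (‖x - p j‖ ^ 2) + Fn (∏ j, aM M (‖x - p j‖ ^ 2)) := by
  set a : ι → ℝ := fun j => aM M (‖x - p j‖ ^ 2) with ha
  have h0 : ∀ i, 0 ≤ a i := fun i => aM_nonneg hM (by positivity)
  have h1 : ∀ i, a i ≤ 1 := fun i => aM_le_one hM (by positivity)
  have h2 : -∑ j, gM M (‖x - p j‖ ^ 2) ≤ 16 / M * ∑ j, (1 - a j) := by
    rw [← Finset.sum_neg_distrib, Finset.mul_sum]
    exact Finset.sum_le_sum fun j _ => neg_gM_le' hM (by positivity)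
  have h3 := prod_mul_sum_le Finset.univ a h0 h1
  set A := ∏ j, a j with hA
  have hA0 : 0 ≤ A := Finset.prod_nonneg fun i _ => h0 i
  have hS : 0 ≤ ∑ j, (1 - a j) := Finset.sum_nonneg fun i _ => sub_nonneg.mpr (h1 i)
  have h4 : A ^ 2 * ∑ j, (1 - a j) ≤ Fn A := by
    unfold Fn
    calc A ^ 2 * ∑ j, (1 - a j) = A * (A * ∑ j, (1 - a j)) := by ring
      _ ≤ A * (1 - A) := mul_le_mul_of_nonneg_left h3 hA0
  have h5 := mul_le_mul_of_nonneg_right h hS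
  linarith

/-- The subsolution for the second solution: `M` huge. -/
theorem subCond_huge {M R0 : ℝ} (hM : 0 < M) {p : ι → E} (hp : ∀ j, ‖p j‖ ≤ R0)
    (h1 : 1344 * R0 ^ 2 ≤ M) (h2 : 16 * 256 ^ Fintype.card ι ≤ M) : SubCond M p := by
  intro x
  by_cases hall : ∀ j, M / 8 ≤ ‖x - p j‖ ^ 2
  · refine sub_of_prod hM ?_
    have h3 : ∏ _j : ι, (1/16:ℝ) ≤ ∏ j, aM M (‖x - p j‖ ^ 2) :=
      Finset.prod_le_prod (fun _ _ => by norm_num) fun j _ => aM_ge hM (hall j)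
    rw [Finset.prod_const, Finset.card_univ] at h3
    have h4 : ((1/16:ℝ) ^ Fintype.card ι) ^ 2 ≤ (∏ j, aM M (‖x - p j‖ ^ 2)) ^ 2 :=
      pow_le_pow_left₀ (by positivity) h3 2
    refine le_trans ?_ h4
    rw [← pow_mul, mul_comm, pow_mul]
    have h5 : ((1/16:ℝ) ^ 2) ^ Fintype.card ι * 256 ^ Fintype.card ι = 1 := by
      rw [← mul_pow]; norm_num
    rw [div_le_iff₀ hM]
    have h6 : (0:ℝ) ≤ ((1/16:ℝ) ^ 2) ^ Fintype.card ι := by positivity
    nlinarith [mul_le_mul_of_nonneg_left h2 h6]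
  · push Not at hall
    obtain ⟨i, hi⟩ := hall
    have h3 : ∀ j, ‖x - p j‖ ^ 2 ≤ M / 6 := by
      intro j
      have h4 : ‖x - p j‖ ≤ ‖x - p i‖ + 2 * R0 := by
        have e : x - p j = (x - p i) + (p i - p j) := by abel
        rw [e]
        refine (norm_add_le _ _).trans (add_le_add le_rfl ?_)
        have := norm_sub_le (p i) (p j)
        have := hp i
        have := hp j
        linarith
      have h5 : ‖x - p j‖ ^ 2 ≤ (‖x - p i‖ + 2 * R0) ^ 2 := pow_le_pow_left₀ (norm_nonneg _) h4 2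
      nlinarith [sq_nonneg (‖x - p i‖ - 12 * R0)]
    refine add_nonneg (Finset.sum_nonneg fun j _ => gM_nonneg hM (by positivity) (h3 j)) ?_
    exact Fn_nonneg (Finset.prod_nonneg fun j _ => aM_nonneg hM (by positivity))
      (Finset.prod_le_one (fun j _ => aM_nonneg hM (by positivity))
        fun j _ => aM_le_one hM (by positivity))

theorem PM_ge {M t d : ℝ} (hM : 0 < M) (h : d ^ 2 ≤ t) : d ^ 4 ≤ PM M t := by
  have ht : 0 ≤ t := le_trans (by positivity) h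
  unfold PM
  nlinarith [mul_nonneg hM.le ht, sq_nonneg M, mul_nonneg (sub_nonneg.mpr h) (sq_nonneg d),
    mul_nonneg (sub_nonneg.mpr h) ht]

omit [Fintype ι] in
theorem far_of_near {p : ι → E} {d : ℝ} (hd : 0 < d) {x : E} {i j : ι}
    (hsep : 2 * d ≤ ‖p i - p j‖) (hi : ‖x - p i‖ ^ 2 < d ^ 2) : d ^ 2 ≤ ‖x - p j‖ ^ 2 := by
  have h1 : ‖x - p i‖ < d := lt_of_pow_lt_pow_left₀ 2 hd.le hi
  have h2 : ‖p i - p j‖ ≤ ‖x - p i‖ + ‖x - p j‖ := by
    have e : p i - p j = -(x - p i) + (x - p j) := by abel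
    rw [e]
    refine (norm_add_le _ _).trans ?_
    rw [norm_neg]
  have h3 : d ≤ ‖x - p j‖ := by linarith
  exact pow_le_pow_left₀ hd.le h3 2

/-- The subsolution for the first solution: well separated points. -/
theorem subCond_sep {M d : ℝ} (hM : 16384 ≤ M) {p : ι → E} (hd : 0 < d)
    (hsep : ∀ i j, i ≠ j → 2 * d ≤ ‖p i - p j‖) (hMd : M / 8 ≤ d ^ 2)
    (hN : 64 * (Fintype.card ι) * M ^ 2 ≤ d ^ 4) : SubCond M p := by
  classical
  have hM0 : 0 < M := by linarith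
  have hd4 : 0 < d ^ 4 := by positivity
  intro x
  have ha0 : ∀ i, 0 ≤ aM M (‖x - p i‖ ^ 2) := fun i => aM_nonneg hM0 (by positivity)
  have ha1 : ∀ i, aM M (‖x - p i‖ ^ 2) ≤ 1 := fun i => aM_le_one hM0 (by positivity)
  by_cases hall : ∀ j, M / 8 ≤ ‖x - p j‖ ^ 2
  · refine sub_of_prod hM0 ?_
    have key : 1/32 ≤ ∏ j, aM M (‖x - p j‖ ^ 2) := by
      have hfar : ∀ (s : Finset ι), (∀ j ∈ s, d ^ 2 ≤ ‖x - p j‖ ^ 2) →
          1/2 ≤ ∏ j ∈ s, aM M (‖x - p j‖ ^ 2) := by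
        intro s hs
        refine le_trans ?_ (one_sub_sum_le_prod s (fun j => aM M (‖x - p j‖ ^ 2)) ha0 ha1)
        have h1 : ∑ j ∈ s, (1 - aM M (‖x - p j‖ ^ 2)) ≤ ∑ _j ∈ s, 2 * M ^ 2 / d ^ 4 := by
          refine Finset.sum_le_sum fun j hj => ?_
          rw [one_sub_aM hM0 (by positivity)]
          have := PM_ge hM0 (hs j hj)
          gcongr
        rw [Finset.sum_const, nsmul_eq_mul] at h1
        have h2 : (s.card : ℝ) ≤ Fintype.card ι := by exact_mod_cast Finset.card_le_univ s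
        have h3 : (s.card : ℝ) * (2 * M ^ 2 / d ^ 4) ≤ 1/2 := by
          rw [← mul_div_assoc, div_le_iff₀ hd4]
          nlinarith [mul_le_mul_of_nonneg_right h2 (by positivity : (0:ℝ) ≤ M ^ 2)]
        linarith
      by_cases hi : ∃ i, ‖x - p i‖ ^ 2 < d ^ 2
      · obtain ⟨i, hi⟩ := hi
        rw [← Finset.mul_prod_erase Finset.univ _ (Finset.mem_univ i)]
        have h1 := hfar (Finset.univ.erase i) fun j hj =>
          far_of_near hd (hsep i j (Finset.ne_of_mem_erase hj).symm) hi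
        have h2 := aM_ge hM0 (hall i)
        calc (1/32:ℝ) = (1/16) * (1/2) := by norm_num
          _ ≤ _ := mul_le_mul h2 h1 (by norm_num) (ha0 i)
      · push Not at hi
        have := hfar Finset.univ fun j _ => hi j
        linarith
    have h2 : (1/32:ℝ) ^ 2 ≤ (∏ j, aM M (‖x - p j‖ ^ 2)) ^ 2 := pow_le_pow_left₀ (by norm_num) key 2
    refine le_trans ?_ h2
    rw [div_le_iff₀ hM0]
    linarith
  · push Not at hall
    obtain ⟨i, hi⟩ := hall
    have h1 : 0 ≤ Fn (∏ j, aM M (‖x - p j‖ ^ 2)) :=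
      Fn_nonneg (Finset.prod_nonneg fun j _ => ha0 j) (Finset.prod_le_one (fun j _ => ha0 j) fun j _ => ha1 j)
    refine add_nonneg ?_ h1
    rw [← Finset.add_sum_erase Finset.univ _ (Finset.mem_univ i)]
    have h2 : 1 / (2 * M) ≤ gM M (‖x - p i‖ ^ 2) := gM_ge hM0 (by positivity) hi.le
    have h3 : -∑ j ∈ Finset.univ.erase i, gM M (‖x - p j‖ ^ 2) ≤ 1 / (2 * M) := by
      rw [← Finset.sum_neg_distrib]
      have h4 : ∑ j ∈ Finset.univ.erase i, -gM M (‖x - p j‖ ^ 2) ≤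
          ∑ _j ∈ Finset.univ.erase i, 32 * M / d ^ 4 := by
        refine Finset.sum_le_sum fun j hj => ?_
        refine (neg_gM_le hM0 (by positivity)).trans ?_
        have := PM_ge (M := M) (t := ‖x - p j‖ ^ 2) hM0
          (far_of_near hd (hsep i j (Finset.ne_of_mem_erase hj).symm) (lt_of_lt_of_le hi hMd))
        gcongr
      refine h4.trans ?_
      rw [Finset.sum_const, nsmul_eq_mul]
      have h5 : ((Finset.univ.erase i).card : ℝ) ≤ Fintype.card ι := by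
        exact_mod_cast Finset.card_le_univ _
      rw [← mul_div_assoc, div_le_div_iff₀ hd4 (by positivity)]
      have h6 : ((Finset.univ.erase i).card : ℝ) * (64 * M ^ 2) ≤ (Fintype.card ι : ℝ) * (64 * M ^ 2) := by
        gcongr
      nlinarith
    linarith

end Pool.Agent.CSV
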