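import Pool.Agent.CSV.Bar2
import Pool.Agent.CSV.Sub

set_option autoImplicit false

open Set Filter Topology

namespace Pool.Agent.CSV

variable {ι : Type*} [Fintype ι]

/-- What the frozen statement requires of a solution (with `lam = 1` and all multiplicities one). -/
structure IsSol (p : ι → E) (u : E → ℝ) : Prop where
  cd : ContDiffOn ℝ 2 u {x | ∀ j, x ≠ p j}
  pde : ∀ x, (∀ j, x ≠ p j) → Lap u x = Real.exp (u x) * (Real.exp (u x) - 1)
  sing : ∀ j, ∃ δ > 0, ∃ C : ℝ, ∀ x, 0 < ‖x - p j‖ → ‖x - p j‖ < δ →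
    |u x - 2 * Real.log ‖x - p j‖| ≤ C
  lim : Tendsto u (cocompact E) (𝓝 0)

theorem bb_pos {p : ι → E} {x : E} (hx : ∀ j, x ≠ p j) : 0 < bb p x := by
  unfold bb
  refine Finset.prod_pos fun j _ => ?_
  have : 0 < ‖x - p j‖ := norm_pos_iff.mpr (sub_ne_zero.mpr (hx j))
  positivity

/-- From a solution `w` of the fixed point equation to a solution of the vortex equation. -/
theorem isSol_of_w {p : ι → E} {d : ℝ} (hd : 1 ≤ d)
    (hsep : ∀ i j, i ≠ j → 2 * d ≤ ‖p i - p j‖) {w : E → ℝ} (hw : ContDiff ℝ 2 w)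
    (hlim : Tendsto w (cocompact E) (𝓝 0)) (hpde : ∀ x, w x - Lap w x = H (bb p) (GG p) w x) :
    IsSol p (fun x => Real.log (bb p x) + w x) where
  cd := by
    intro x hx
    exact (((bb_contDiff p).contDiffAt.log (bb_pos hx).ne').add hw.contDiffAt).contDiffWithinAt
  pde := by
    intro x hx
    have hb := bb_pos hx
    rw [lap_add ((bb_contDiff p).contDiffAt.log hb.ne') hw.contDiffAt, lap_log_bb hb.ne',
      Real.exp_add, Real.exp_log hb]
    have h1 := hpde x
    unfold H Fn at h1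
    linarith
  sing := by
    classical
    intro j
    -- bound for w on the closed ball
    obtain ⟨C, hC⟩ := (isCompact_closedBall (p j) 1).exists_bound_of_continuousOn
      hw.continuous.continuousOn
    refine ⟨1, one_pos, Fintype.card ι * Real.log 2 + Real.log 2 + C, fun x hx0 hx1 => ?_⟩
    have hcard0 : (0:ℝ) ≤ Fintype.card ι := by positivity
    have hlog2 : 0 ≤ Real.log 2 := Real.log_nonneg (by norm_num)
    have hwb : |w x| ≤ C := hC x (by rw [Metric.mem_closedBall, dist_eq_norm]; exact hx1.le)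
    have hfar : ∀ i, i ≠ j → 1 ≤ ‖x - p i‖ ^ 2 := by
      intro i hi
      have h1 := far_of_near (d := d) (x := x) (i := j) (j := i) (by linarith) (hsep j i hi.symm)
        (pow_lt_pow_left₀ (lt_of_lt_of_le hx1 hd) (norm_nonneg _) (by norm_num))
      nlinarith
    have hxp : ∀ i, x ≠ p i := by
      intro i hi
      by_cases hij : i = j
      · subst hij; rw [hi, sub_self, norm_zero] at hx0; exact lt_irrefl _ hx0
      · have := hfar i hij
        rw [hi, sub_self, norm_zero] at this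
        norm_num at this
    rw [log_bb (bb_pos hxp).ne', ← Finset.add_sum_erase Finset.univ _ (Finset.mem_univ j)]
    have h2 : Real.log (0 + ‖x - p j‖ ^ 2) = 2 * Real.log ‖x - p j‖ := by
      rw [zero_add, Real.log_pow]; norm_num
    rw [h2]
    have h3 : |Real.log (1 + ‖x - p j‖ ^ 2)| ≤ Real.log 2 := by
      rw [abs_of_nonneg (Real.log_nonneg (by nlinarith [sq_nonneg ‖x - p j‖]))]
      exact Real.log_le_log (by positivity) (by nlinarith)
    have h4 : |∑ i ∈ Finset.univ.erase j,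
        (Real.log (0 + ‖x - p i‖ ^ 2) - Real.log (1 + ‖x - p i‖ ^ 2))| ≤
        Fintype.card ι * Real.log 2 := by
      refine (Finset.abs_sum_le_sum_abs _ _).trans ?_
      have h5 : ∀ i ∈ Finset.univ.erase j,
          |Real.log (0 + ‖x - p i‖ ^ 2) - Real.log (1 + ‖x - p i‖ ^ 2)| ≤ Real.log 2 := by
        intro i hi
        have hi1 := hfar i (Finset.ne_of_mem_erase hi)
        rw [zero_add, abs_sub_comm, abs_of_nonneg]
        · rw [← Real.log_div (by positivity) (by positivity)]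
          refine Real.log_le_log (by positivity) ?_
          rw [div_le_iff₀ (by positivity)]
          linarith
        · exact sub_nonneg.mpr (Real.log_le_log (by positivity) (by linarith))
      refine (Finset.sum_le_sum h5).trans ?_
      rw [Finset.sum_const, nsmul_eq_mul]
      have h6 : ((Finset.univ.erase j).card : ℝ) ≤ Fintype.card ι := by
        exact_mod_cast Finset.card_le_univ _
      exact mul_le_mul_of_nonneg_right h6 hlog2
    have e : 2 * Real.log ‖x - p j‖ - Real.log (1 + ‖x - p j‖ ^ 2) +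
        ∑ i ∈ Finset.univ.erase j, (Real.log (0 + ‖x - p i‖ ^ 2) - Real.log (1 + ‖x - p i‖ ^ 2)) +
        w x - 2 * Real.log ‖x - p j‖ = -Real.log (1 + ‖x - p j‖ ^ 2) +
        ∑ i ∈ Finset.univ.erase j, (Real.log (0 + ‖x - p i‖ ^ 2) - Real.log (1 + ‖x - p i‖ ^ 2)) +
        w x := by ring
    rw [e]
    refine (abs_add_le _ _).trans (add_le_add ((abs_add_le _ _).trans ?_) hwb)
    rw [abs_neg]
    linarith
  lim := by
    have h2 : Tendsto (fun x => Real.log (bb p x)) (cocompact E) (𝓝 0) := by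
      have := (Real.continuousAt_log (x := 1) one_ne_zero).tendsto.comp (bb_lim p)
      rw [Real.log_one] at this
      exact this
    have h3 := h2.add hlim
    rw [add_zero] at h3
    exact h3

theorem exists_sol {R0 d M : ℝ} {p : ι → E} (hM : 1 ≤ M) (hd : 1 ≤ d)
    (hp : ∀ j, ‖p j‖ ≤ R0)
    (hsep : ∀ i j, i ≠ j → 2 * d ≤ ‖p i - p j‖) (hS : SubCond M p) :
    ∃ u : E → ℝ, IsSol p u ∧ (∀ x, (∀ j, x ≠ p j) → Real.log (∏ j, aM M (‖x - p j‖ ^ 2)) ≤ u x) ∧
      ∀ Ω V, Barrier (bb p) (GG p) Ω V → (∀ x ∈ Ω, WW M p x ≤ V x) →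
        ∀ x ∈ Ω, (∀ j, x ≠ p j) → u x ≤ Real.log (bb p x * Real.exp (V x)) := by
  obtain ⟨w, h1, h2, h3, _, h5, h6⟩ := exists_solution (data p) (WW_good hM p) (WW_sub hM hS)
    (barrier_V1 (L := R0 + 1) rfl hp) (fun x hx => WW_le_V1 hM hx)
    (c := (1/2 : ℝ) ^ (Fintype.card ι)) (by positivity) (fun x hx => bb_ge rfl hp hx)
  refine ⟨fun x => Real.log (bb p x) + w x, isSol_of_w hd hsep h1 h3 h5, fun x hx => ?_, ?_⟩
  · have hb := bb_pos hx
    rw [← bb_mul_exp_WW (lt_of_lt_of_le one_pos hM), Real.log_mul hb.ne' (Real.exp_pos _).ne',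
      Real.log_exp]
    have := h2 x
    linarith
  · intro Ω V hB hV x hx hxp
    have hb := bb_pos hxp
    have := h6 Ω V hB hV x hx
    rw [Real.log_mul hb.ne' (Real.exp_pos _).ne', Real.log_exp]
    linarith

/-- Two different solutions for a suitable configuration. -/
theorem two_solutions {R0 d M : ℝ} {p : ι → E} (hC : Conf R0 p) (hM : 16384 ≤ M) (hd : 1 ≤ d)
    (hsep : ∀ i j, i ≠ j → 2 * d ≤ ‖p i - p j‖) (hMd : M / 8 ≤ d ^ 2)
    (hN : 64 * (Fintype.card ι) * M ^ 2 ≤ d ^ 4) {x0 : E} (hx0 : ‖x0‖ ≤ R0)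
    (hx0d : ∀ j, d ^ 2 ≤ ‖x0 - p j‖ ^ 2) :
    ∃ u v : E → ℝ, IsSol p u ∧ IsSol p v ∧ u x0 ≠ v x0 := by
  have hd0 : 0 < d := by linarith
  have hM0 : 0 < M := by linarith
  obtain ⟨u, hu, hu1, _⟩ := exists_sol (M := M) (by linarith) hd hC.norm_le hsep
    (subCond_sep hM hd0 hsep hMd hN)
  set M2 : ℝ := 1344 * R0 ^ 2 + 16 * 256 ^ Fintype.card ι with hM2
  have hR0 := hC.pos
  have hp1 : (1:ℝ) ≤ 256 ^ Fintype.card ι := one_le_pow₀ (by norm_num)
  have hsq : 0 ≤ R0 ^ 2 := sq_nonneg _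
  have hM21 : 1 ≤ M2 := by rw [hM2]; nlinarith
  obtain ⟨v, hv, _, hv2⟩ := exists_sol (M := M2) hM21 hd hC.norm_le hsep
    (subCond_huge (by linarith) hC.norm_le (by rw [hM2]; nlinarith) (by rw [hM2]; nlinarith))
  refine ⟨u, v, hu, hv, ?_⟩
  have hxp : ∀ j, x0 ≠ p j := by
    intro j hj
    have := hx0d j
    rw [hj, sub_self, norm_zero] at this
    nlinarith
  have hE := hC.EE_le_inside hx0
  have hcard := hC.card_pos
  have h14 : (1/4 : ℝ) ^ Fintype.card ι ≤ 1/4 := by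
    calc (1/4 : ℝ) ^ Fintype.card ι ≤ (1/4) ^ 1 := pow_le_pow_of_le_one (by norm_num) (by norm_num) hcard
      _ = 1/4 := pow_one _
  have hEpos : 0 < EE (4 * R0) p x0 := by
    rw [EE_eq (by linarith) hxp]; exact Real.exp_pos _
  -- upper bound for v
  have hv3 : v x0 ≤ Real.log (1/4) := by
    have h1 := hv2 _ _ hC.barrier (fun x hx => hC.WW_le_V2 (by rw [hM2]; nlinarith) hx) x0
      (by show EE (4 * R0) p x0 < 4; linarith) hxp
    refine h1.trans ?_
    rw [bb_mul_exp_V2 (by linarith)]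
    refine Real.log_le_log (mul_pos hEpos (Real.exp_pos _)) ?_
    have h3 : Real.exp ((-1/4) * EE (4 * R0) p x0 + (-(1/4) ^ Fintype.card ι/4) * ‖x0 - 0‖ ^ 2) ≤ 1 := by
      rw [Real.exp_le_one_iff]
      have h4 : 0 ≤ (1/4 : ℝ) ^ Fintype.card ι * ‖x0 - 0‖ ^ 2 := by positivity
      have e : (-(1/4 : ℝ) ^ Fintype.card ι/4) * ‖x0 - 0‖ ^ 2 =
        -((1/4 : ℝ) ^ Fintype.card ι * ‖x0 - 0‖ ^ 2) / 4 := by ring
      rw [e]
      linarith
    calc EE (4 * R0) p x0 * _ ≤ EE (4 * R0) p x0 * 1 := mul_le_mul_of_nonneg_left h3 hEpos.le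
      _ ≤ 1/4 := by rw [mul_one]; linarith
  -- lower bound for u
  have hu3 : Real.log (1/2) ≤ u x0 := by
    refine le_trans ?_ (hu1 x0 hxp)
    refine Real.log_le_log (by norm_num) ?_
    have ha0 : ∀ i, 0 ≤ aM M (‖x0 - p i‖ ^ 2) := fun i => aM_nonneg hM0 (by positivity)
    have ha1 : ∀ i, aM M (‖x0 - p i‖ ^ 2) ≤ 1 := fun i => aM_le_one hM0 (by positivity)
    refine le_trans ?_ (one_sub_sum_le_prod Finset.univ (fun j => aM M (‖x0 - p j‖ ^ 2)) ha0 ha1)
    have hd4 : 0 < d ^ 4 := by positivity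
    have h1 : ∑ j, (1 - aM M (‖x0 - p j‖ ^ 2)) ≤ ∑ _j : ι, 2 * M ^ 2 / d ^ 4 := by
      refine Finset.sum_le_sum fun j _ => ?_
      rw [one_sub_aM hM0 (by positivity)]
      have := PM_ge hM0 (hx0d j)
      gcongr
    rw [Finset.sum_const, nsmul_eq_mul, Finset.card_univ] at h1
    have h3 : (Fintype.card ι : ℝ) * (2 * M ^ 2 / d ^ 4) ≤ 1/2 := by
      rw [← mul_div_assoc, div_le_iff₀ hd4]
      nlinarith [sq_nonneg M]
    linarith
  have h5 : Real.log (1/4) < Real.log (1/2) := Real.log_lt_log (by norm_num) (by norm_num)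
  intro heq
  rw [heq] at hu3
  linarith

end Pool.Agent.CSV
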