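import Pool.Agent.CSV.Basic

set_option autoImplicit false

open Set Filter Topology MeasureTheory

namespace Pool.Agent.CSV

theorem integrable_exp_neg_sq {c : ℝ} (hc : 0 < c) :
    Integrable (fun z : E => Real.exp (-c * ‖z‖ ^ 2)) := by
  by_contra hcon
  have h1 := GaussianFourier.integral_rexp_neg_mul_sq_norm (V := E) hc
  rw [integral_undef hcon] at h1
  have : 0 < (Real.pi / c) ^ ((Module.finrank ℝ E : ℝ) / 2) := by positivity
  linarith

theorem gauss_nonneg (z : E) : 0 ≤ gauss z := by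
  unfold gauss; positivity

theorem continuous_gauss : Continuous gauss := by
  unfold gauss; fun_prop

theorem measurable_gauss : Measurable gauss := continuous_gauss.measurable

theorem gauss_eq (z : E) : gauss z = (2 * Real.pi)⁻¹ * Real.exp (-(1/2) * ‖z‖ ^ 2) := by
  unfold gauss; congr 2; ring

theorem integrable_gauss : Integrable gauss := by
  have h := (integrable_exp_neg_sq (c := 1/2) (by norm_num)).const_mul (2 * Real.pi)⁻¹
  refine h.congr (Eventually.of_forall fun z => ?_)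
  rw [gauss_eq]

theorem integral_gauss : ∫ z : E, gauss z = 1 := by
  have h1 := GaussianFourier.integral_rexp_neg_mul_sq_norm (V := E) (b := 1/2) (by norm_num)
  have h2 : ∫ z : E, gauss z = (2 * Real.pi)⁻¹ * ∫ z : E, Real.exp (-(1/2) * ‖z‖ ^ 2) := by
    rw [← integral_const_mul]
    exact integral_congr_ae (Eventually.of_forall fun z => gauss_eq z)
  rw [h2, h1]
  have h3 : (Module.finrank ℝ E : ℝ) / 2 = 1 := by simp
  rw [h3, Real.rpow_one]
  have := Real.pi_pos
  field_simp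

/-- The dominating function. -/
noncomputable def dom (z : E) : ℝ := (‖z‖ + 1) * Real.exp (-(1/4) * ‖z‖ ^ 2 + 1/2)

theorem integrable_dom : Integrable dom := by
  have h := (integrable_exp_neg_sq (c := 1/8) (by norm_num)).const_mul (3 * Real.exp (1/2))
  refine h.mono' (by unfold dom; fun_prop) (Eventually.of_forall fun z => ?_)
  have h0 : 0 ≤ dom z := by unfold dom; positivity
  rw [Real.norm_of_nonneg h0]
  unfold dom
  have h1 : ‖z‖ + 1 ≤ 3 * Real.exp (1/8 * ‖z‖ ^ 2) := by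
    have h2 : 1/8 * ‖z‖ ^ 2 + 1 ≤ Real.exp (1/8 * ‖z‖ ^ 2) := Real.add_one_le_exp _
    nlinarith [sq_nonneg (‖z‖ - 4), norm_nonneg z]
  calc (‖z‖ + 1) * Real.exp (-(1/4) * ‖z‖ ^ 2 + 1/2)
      ≤ (3 * Real.exp (1/8 * ‖z‖ ^ 2)) * Real.exp (-(1/4) * ‖z‖ ^ 2 + 1/2) := by gcongr
    _ = 3 * Real.exp (1/2) * Real.exp (-(1/8) * ‖z‖ ^ 2) := by
        rw [mul_assoc, mul_assoc, ← Real.exp_add, ← Real.exp_add]; congr 2; ring

theorem gauss_sub_le {u v : E} (h : ‖v‖ ≤ 1) : gauss (u - v) ≤ Real.exp (-(1/4) * ‖u‖ ^ 2 + 1/2) := by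
  have h1 : ‖u‖ ≤ ‖u - v‖ + 1 := by
    have := norm_add_le (u - v) v
    rw [sub_add_cancel] at this; linarith
  have h2 : (2 * Real.pi)⁻¹ ≤ 1 := by
    have := Real.pi_gt_three
    rw [inv_le_one₀ (by positivity)]; linarith
  rw [gauss_eq]
  have h3 : Real.exp (-(1/2) * ‖u - v‖ ^ 2) ≤ Real.exp (-(1/4) * ‖u‖ ^ 2 + 1/2) := by
    apply Real.exp_le_exp.mpr
    nlinarith [norm_nonneg (u - v), norm_nonneg u, sq_nonneg (‖u - v‖ - 1)]
  calc (2 * Real.pi)⁻¹ * Real.exp (-(1/2) * ‖u - v‖ ^ 2) ≤ 1 * Real.exp (-(1/2) * ‖u - v‖ ^ 2) := by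
        gcongr
    _ ≤ _ := by rw [one_mul]; exact h3

theorem norm_mul_gauss_le (z : E) : ‖z‖ * gauss z ≤ dom z := by
  have h := gauss_sub_le (u := z) (v := 0) (by simp)
  rw [sub_zero] at h
  unfold dom
  have := gauss_nonneg z
  have h2 : ‖z‖ ≤ ‖z‖ + 1 := by linarith
  exact mul_le_mul h2 h this (by positivity)

theorem integrable_norm_mul_gauss : Integrable (fun z : E => ‖z‖ * gauss z) := by
  refine integrable_dom.mono' (by have := continuous_gauss; fun_prop) (Eventually.of_forall fun z => ?_)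
  rw [Real.norm_of_nonneg (mul_nonneg (norm_nonneg _) (gauss_nonneg _))]
  exact norm_mul_gauss_le z

/-- First absolute moment. -/
noncomputable def m1 : ℝ := ∫ z : E, ‖z‖ * gauss z

theorem m1_nonneg : 0 ≤ m1 := integral_nonneg fun z => mul_nonneg (norm_nonneg _) (gauss_nonneg _)

/-! weights in `s` -/

theorem integrableOn_exp_neg_sq : IntegrableOn (fun s : ℝ => Real.exp (-s ^ 2 / 2)) (Ioi 0) := by
  have h := (integrable_exp_neg_mul_sq (b := 1/2) (by norm_num)).integrableOn (s := Ioi (0:ℝ))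
  refine h.congr_fun (fun s _ => ?_) measurableSet_Ioi
  simp only; congr 1; ring

theorem integrableOn_mul_exp_neg_sq :
    IntegrableOn (fun s : ℝ => s * Real.exp (-s ^ 2 / 2)) (Ioi 0) := by
  have h := (integrable_mul_exp_neg_mul_sq (b := 1/2) (by norm_num)).integrableOn (s := Ioi (0:ℝ))
  refine h.congr_fun (fun s _ => ?_) measurableSet_Ioi
  simp only; congr 2; ring

theorem tendsto_exp_neg_sq : Tendsto (fun s : ℝ => Real.exp (-s ^ 2 / 2)) atTop (𝓝 0) := by
  have h1 : Tendsto (fun s : ℝ => -s ^ 2 / 2) atTop atBot := by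
    have h2 : Tendsto (fun s : ℝ => s ^ 2) atTop atTop := tendsto_pow_atTop (by norm_num)
    have h3 : Tendsto (fun s : ℝ => s ^ 2 * (1/2)) atTop atTop := h2.atTop_mul_const (by norm_num)
    have h4 := tendsto_neg_atTop_atBot.comp h3
    refine h4.congr fun s => ?_
    simp only [Function.comp]; ring
  exact Real.tendsto_exp_atBot.comp h1

theorem hasDerivAt_exp_neg_sq (s : ℝ) :
    HasDerivAt (fun s : ℝ => Real.exp (-s ^ 2 / 2)) (-(s * Real.exp (-s ^ 2 / 2))) s := by
  have h : HasDerivAt (fun s : ℝ => -s ^ 2 / 2) (-s) s := by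
    have := ((hasDerivAt_pow 2 s).neg.div_const 2)
    refine this.congr_deriv ?_
    simp; ring
  have h2 := h.exp
  refine h2.congr_deriv ?_
  ring

theorem integral_mul_exp_neg_sq : ∫ s in Ioi (0 : ℝ), s * Real.exp (-s ^ 2 / 2) = 1 := by
  have h := integral_Ioi_of_hasDerivAt_of_tendsto (a := (0:ℝ)) (m := 0)
    (f := fun s : ℝ => -Real.exp (-s ^ 2 / 2)) (f' := fun s => s * Real.exp (-s ^ 2 / 2))
    (by fun_prop) (fun s _ => by
      have := (hasDerivAt_exp_neg_sq s).neg
      rw [neg_neg] at this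
      exact this) integrableOn_mul_exp_neg_sq (by simpa using tendsto_exp_neg_sq.neg)
  rw [h]; simp

end Pool.Agent.CSV
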