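import Pool.Agent.CSV.Basic

set_option autoImplicit false

open Set Filter Topology

namespace Pool.Agent.CSV

theorem deriv_line {z : E → ℝ} {x v : E} (hz : ContDiffAt ℝ 2 z x) :
    (fun t : ℝ => deriv (fun t : ℝ => z (x + t • v)) t) =ᶠ[𝓝 0]
      fun t : ℝ => fderiv ℝ z (x + t • v) v := by
  have h1 : ∀ᶠ y in 𝓝 x, ContDiffAt ℝ 2 z y := hz.eventually (by simp)
  have hc : Tendsto (fun t : ℝ => x + t • v) (𝓝 0) (𝓝 x) := by
    have : Continuous (fun t : ℝ => x + t • v) := by fun_prop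
    simpa using this.tendsto 0
  filter_upwards [hc.eventually h1] with t ht
  have h2 : HasDerivAt (fun t : ℝ => x + t • v) v t := by
    have := ((hasDerivAt_id t).smul_const v).const_add x
    simpa using this
  have h3 := (ht.differentiableAt (by simp)).hasFDerivAt.comp_hasDerivAt t h2
  exact h3.deriv

theorem deriv_deriv_line {z : E → ℝ} {x v : E} (hz : ContDiffAt ℝ 2 z x) :
    deriv (deriv (fun t : ℝ => z (x + t • v))) 0 = iteratedFDeriv ℝ 2 z x ![v, v] := by
  have h0 := (deriv_line (v := v) hz).deriv_eq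
  have e : deriv (deriv (fun t : ℝ => z (x + t • v))) 0
      = deriv (fun t : ℝ => deriv (fun t : ℝ => z (x + t • v)) t) 0 := rfl
  rw [e, h0, iteratedFDeriv_two_apply]
  simp only [Matrix.cons_val_zero, Matrix.cons_val_one]
  have hd : DifferentiableAt ℝ (fderiv ℝ z) x :=
    (hz.fderiv_right (m := 1) (by norm_num)).differentiableAt (by simp)
  have h2 : HasDerivAt (fun t : ℝ => x + t • v) v 0 := by
    have := ((hasDerivAt_id (0:ℝ)).smul_const v).const_add x
    simpa using this
  have hd' : HasFDerivAt (fderiv ℝ z) (fderiv ℝ (fderiv ℝ z) x) (x + (0:ℝ) • v) := by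
    simpa using hd.hasFDerivAt
  have h3 := hd'.comp_hasDerivAt (0:ℝ) h2
  have h4 : HasDerivAt (fun t : ℝ => fderiv ℝ z (x + t • v) v) (fderiv ℝ (fderiv ℝ z) x v v) 0 := by
    have := h3.clm_apply (hasDerivAt_const (0:ℝ) v)
    simpa using this
  exact h4.deriv

theorem deriv_deriv_nonneg_of_isLocalMin {f : ℝ → ℝ} {x : ℝ} (hf : IsLocalMin f x)
    (hc : ContinuousAt f x) : 0 ≤ deriv (deriv f) x := by
  by_contra hneg
  push Not at hneg
  have hd : deriv f x = 0 := hf.deriv_eq_zero
  have hmax : IsLocalMax f x := isLocalMax_of_deriv_deriv_neg hneg hd hc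
  have heq : f =ᶠ[𝓝 x] fun _ => f x := by
    filter_upwards [hf, hmax] with y h1 h2
    exact le_antisymm h2 h1
  have h1 : deriv f =ᶠ[𝓝 x] deriv (fun _ => f x) := heq.deriv
  have h2 : deriv (deriv f) x = 0 := by
    rw [h1.deriv_eq]
    simp
  linarith

/-- At a local minimum of a `C²` function the Laplacian is nonnegative. -/
theorem lap_nonneg_of_isLocalMin {z : E → ℝ} {x : E} (hz : ContDiffAt ℝ 2 z x)
    (hmin : IsLocalMin z x) : 0 ≤ Lap z x := by
  unfold Lap
  refine Finset.sum_nonneg fun i _ => ?_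
  set v : E := EuclideanSpace.single i (1 : ℝ) with hv
  rw [← deriv_deriv_line hz]
  have hc : Continuous (fun t : ℝ => x + t • v) := by fun_prop
  refine deriv_deriv_nonneg_of_isLocalMin ?_ ?_
  · have hc0 : Tendsto (fun t : ℝ => x + t • v) (𝓝 0) (𝓝 x) := by simpa using hc.tendsto 0
    have h1 : ∀ᶠ t in 𝓝 (0:ℝ), z x ≤ z (x + t • v) := hc0.eventually hmin
    simpa [IsLocalMin, IsMinFilter] using h1
  · have h2 : ContinuousAt z (x + (0:ℝ) • v) := by simpa using hz.continuousAt
    exact ContinuousAt.comp (f := fun t : ℝ => x + t • v) (g := z) h2 hc.continuousAt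

theorem lap_sub {f g : E → ℝ} {x : E} (hf : ContDiffAt ℝ 2 f x) (hg : ContDiffAt ℝ 2 g x) :
    Lap (fun y => f y - g y) x = Lap f x - Lap g x := by
  unfold Lap
  rw [← Finset.sum_sub_distrib]
  refine Finset.sum_congr rfl fun i _ => ?_
  have := iteratedFDeriv_sub_apply (i := 2) (by exact_mod_cast hf) (by exact_mod_cast hg)
  have h2 : iteratedFDeriv ℝ 2 (fun y => f y - g y) x = iteratedFDeriv ℝ 2 f x - iteratedFDeriv ℝ 2 g x := this
  rw [h2]; rfl

theorem lap_add {f g : E → ℝ} {x : E} (hf : ContDiffAt ℝ 2 f x) (hg : ContDiffAt ℝ 2 g x) :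
    Lap (fun y => f y + g y) x = Lap f x + Lap g x := by
  unfold Lap
  rw [← Finset.sum_add_distrib]
  refine Finset.sum_congr rfl fun i _ => ?_
  have := iteratedFDeriv_add_apply (i := 2) (by exact_mod_cast hf) (by exact_mod_cast hg)
  have h2 : iteratedFDeriv ℝ 2 (fun y => f y + g y) x = iteratedFDeriv ℝ 2 f x + iteratedFDeriv ℝ 2 g x := this
  rw [h2]; rfl

theorem lap_congr {f g : E → ℝ} {x : E} (h : f =ᶠ[𝓝 x] g) : Lap f x = Lap g x := by
  unfold Lap
  refine Finset.sum_congr rfl fun i _ => ?_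
  rw [(h.iteratedFDeriv ℝ 2).eq_of_nhds]

theorem lap_const_mul {f : E → ℝ} {x : E} (c : ℝ) (hf : ContDiffAt ℝ 2 f x) :
    Lap (fun y => c * f y) x = c * Lap f x := by
  unfold Lap
  rw [Finset.mul_sum]
  refine Finset.sum_congr rfl fun i _ => ?_
  have := iteratedFDeriv_const_smul_apply (i := 2) (a := c) (f := f) (x := x) (by exact_mod_cast hf)
  have h2 : iteratedFDeriv ℝ 2 (fun y => c * f y) x = c • iteratedFDeriv ℝ 2 f x := this
  rw [h2]; rfl

theorem lap_sum {ι : Type*} (s : Finset ι) {f : ι → E → ℝ} {x : E}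
    (hf : ∀ i ∈ s, ContDiffAt ℝ 2 (f i) x) :
    Lap (fun y => ∑ i ∈ s, f i y) x = ∑ i ∈ s, Lap (f i) x := by
  classical
  induction s using Finset.induction_on with
  | empty =>
    simp only [Finset.sum_empty]
    unfold Lap
    simp [iteratedFDeriv_two_apply]
  | insert a s ha ih =>
    simp only [Finset.sum_insert ha]
    rw [lap_add (hf a (Finset.mem_insert_self a s)) (ContDiffAt.sum fun i hi =>
      hf i (Finset.mem_insert_of_mem hi)), ih fun i hi => hf i (Finset.mem_insert_of_mem hi)]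

theorem lap_const (c : ℝ) (x : E) : Lap (fun _ : E => c) x = 0 := by
  unfold Lap
  simp [iteratedFDeriv_two_apply]

end Pool.Agent.CSV
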