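import Pool.Agent.CSV.Second
import Pool.Agent.CSV.MaxP

set_option autoImplicit false

open Set Filter Topology MeasureTheory

namespace Pool.Agent.CSV

/-- The nonlinearity `s(1-s)`. -/
noncomputable def Fn (s : ℝ) : ℝ := s * (1 - s)

/-- Right-hand side of the fixed point equation `w - Lap w = H b G w`. -/
noncomputable def H (b G w : E → ℝ) (x : E) : ℝ := w x + Fn (b x * Real.exp (w x)) + G x

theorem H_mono_aux {β w1 w2 : ℝ} (hβ : 0 ≤ β) (hw : w1 ≤ w2) (h2 : β * Real.exp w2 ≤ 1) :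
    w1 + Fn (β * Real.exp w1) ≤ w2 + Fn (β * Real.exp w2) := by
  set s1 := β * Real.exp w1 with hs1
  set s2 := β * Real.exp w2 with hs2
  have h12 : s1 ≤ s2 := mul_le_mul_of_nonneg_left (Real.exp_le_exp.mpr hw) hβ
  have hs2' : 0 ≤ s2 := mul_nonneg hβ (Real.exp_nonneg _)
  have h3 : s2 - s1 ≤ s2 * (w2 - w1) := by
    have e : s1 = s2 * Real.exp (w1 - w2) := by
      rw [hs1, hs2, mul_assoc, ← Real.exp_add]; congr 2; ring
    have h4 : w1 - w2 + 1 ≤ Real.exp (w1 - w2) := Real.add_one_le_exp _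
    have h5 : s2 * (w1 - w2 + 1) ≤ s2 * Real.exp (w1 - w2) := mul_le_mul_of_nonneg_left h4 hs2'
    rw [← e] at h5
    linarith
  unfold Fn
  nlinarith [mul_le_mul_of_nonneg_right h2 (sub_nonneg.mpr hw), mul_nonneg (sub_nonneg.mpr h12)
    (by linarith : (0:ℝ) ≤ 2 - s1 - s2)]

theorem Fn_le (s : ℝ) : Fn s ≤ 1/4 := by unfold Fn; nlinarith [sq_nonneg (s - 1/2)]

/-! closure properties of `CB1` -/

theorem CB1.add {f g : E → ℝ} (hf : CB1 f) (hg : CB1 g) : CB1 (fun x => f x + g x) where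
  contDiff := hf.contDiff.add hg.contDiff
  bdd := by
    obtain ⟨A, hA⟩ := hf.bdd
    obtain ⟨B, hB⟩ := hg.bdd
    exact ⟨A + B, fun x => (abs_add_le _ _).trans (add_le_add (hA x) (hB x))⟩
  dbdd := by
    obtain ⟨A, hA⟩ := hf.dbdd
    obtain ⟨B, hB⟩ := hg.dbdd
    refine ⟨A + B, fun x => ?_⟩
    have : fderiv ℝ (fun x => f x + g x) x = fderiv ℝ f x + fderiv ℝ g x :=
      fderiv_add (hf.differentiable x) (hg.differentiable x)
    rw [this]
    exact (norm_add_le _ _).trans (add_le_add (hA x) (hB x))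

theorem CB1.mul {f g : E → ℝ} (hf : CB1 f) (hg : CB1 g) : CB1 (fun x => f x * g x) where
  contDiff := hf.contDiff.mul hg.contDiff
  bdd := by
    obtain ⟨A, hA⟩ := hf.bdd
    obtain ⟨B, hB⟩ := hg.bdd
    refine ⟨A * B, fun x => ?_⟩
    rw [abs_mul]
    exact mul_le_mul (hA x) (hB x) (abs_nonneg _) ((abs_nonneg _).trans (hA x))
  dbdd := by
    obtain ⟨A, hA⟩ := hf.dbdd
    obtain ⟨B, hB⟩ := hg.dbdd
    obtain ⟨A', hA'⟩ := hf.bdd
    obtain ⟨B', hB'⟩ := hg.bdd
    refine ⟨A' * B + B' * A, fun x => ?_⟩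
    have : fderiv ℝ (fun x => f x * g x) x = f x • fderiv ℝ g x + g x • fderiv ℝ f x :=
      fderiv_mul (hf.differentiable x) (hg.differentiable x)
    rw [this]
    refine (norm_add_le _ _).trans (add_le_add ?_ ?_)
    · rw [norm_smul]
      exact mul_le_mul (hA' x) (hB x) (norm_nonneg _) ((abs_nonneg _).trans (hA' x))
    · rw [norm_smul]
      exact mul_le_mul (hB' x) (hA x) (norm_nonneg _) ((abs_nonneg _).trans (hB' x))

theorem CB1.comp {f : E → ℝ} {φ : ℝ → ℝ} (hφ : ContDiff ℝ 1 φ) (hf : CB1 f) :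
    CB1 (fun x => φ (f x)) where
  contDiff := hφ.comp hf.contDiff
  bdd := by
    obtain ⟨A, hA⟩ := hf.bdd
    obtain ⟨C, hC⟩ := (isCompact_Icc (a := -A) (b := A)).exists_bound_of_continuousOn
      hφ.continuous.continuousOn
    exact ⟨C, fun x => hC _ (abs_le.mp (hA x))⟩
  dbdd := by
    obtain ⟨A, hA⟩ := hf.bdd
    obtain ⟨A', hA'⟩ := hf.dbdd
    obtain ⟨C, hC⟩ := (isCompact_Icc (a := -A) (b := A)).exists_bound_of_continuousOn
      (hφ.continuous_deriv (by simp)).continuousOn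
    refine ⟨C * A', fun x => ?_⟩
    have hd : HasFDerivAt (fun x => φ (f x)) (deriv φ (f x) • fderiv ℝ f x) x := by
      have h1 : HasDerivAt φ (deriv φ (f x)) (f x) :=
        ((hφ.differentiable (by simp)) (f x)).hasDerivAt
      exact h1.comp_hasFDerivAt x (hf.differentiable x).hasFDerivAt
    rw [hd.fderiv, norm_smul]
    exact mul_le_mul (hC _ (abs_le.mp (hA x))) (hA' x) (norm_nonneg _)
      ((norm_nonneg _).trans (hC _ (abs_le.mp (hA x))))

theorem CB1.H {b G w : E → ℝ} (hb : CB1 b) (hG : CB1 G) (hw : CB1 w) : CB1 (H b G w) := by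
  have h1 : CB1 (fun x => Real.exp (w x)) := CB1.comp Real.contDiff_exp hw
  have h2 : CB1 (fun x => b x * Real.exp (w x)) := hb.mul h1
  have h3 : CB1 (fun x => Fn (b x * Real.exp (w x))) := by
    refine CB1.comp (φ := Fn) ?_ h2
    unfold Fn
    fun_prop
  exact (hw.add h3).add hG

/-- The background data. -/
structure Data (b G : E → ℝ) : Prop where
  b_cb1 : CB1 b
  b_c2 : ContDiff ℝ 2 b
  b_nonneg : ∀ x, 0 ≤ b x
  b_lim : Tendsto b (cocompact E) (𝓝 1)
  G_cb1 : CB1 G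
  G_lim : Tendsto G (cocompact E) (𝓝 0)
  lap_log : ∀ x, b x ≠ 0 → Lap (fun y => Real.log (b y)) x = G x

/-- A local barrier from above. -/
structure Barrier (b G : E → ℝ) (Ω : Set E) (V : E → ℝ) : Prop where
  isOpen : IsOpen Ω
  bounded : Bornology.IsBounded Ω
  c2 : ContDiff ℝ 2 V
  ineq : ∀ x ∈ Ω, b x * Real.exp (V x) ≤ 1 → H b G V x ≤ V x - Lap V x
  bdry : ∀ x ∈ frontier Ω, 1 ≤ b x * Real.exp (V x)

theorem H_bdd {b G w : E → ℝ} {B Γ C : ℝ} (hb : ∀ x, |b x| ≤ B) (hG : ∀ x, |G x| ≤ Γ)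
    (hw : ∀ x, |w x| ≤ C) (x : E) :
    |H b G w x| ≤ C + (B * Real.exp C) * (1 + B * Real.exp C) + Γ := by
  unfold H
  have h1 : |b x * Real.exp (w x)| ≤ B * Real.exp C := by
    rw [abs_mul, abs_of_nonneg (Real.exp_nonneg _)]
    exact mul_le_mul (hb x) (Real.exp_le_exp.mpr ((le_abs_self _).trans (hw x)))
      (Real.exp_nonneg _) ((abs_nonneg _).trans (hb x))
  have h2 : |Fn (b x * Real.exp (w x))| ≤ (B * Real.exp C) * (1 + B * Real.exp C) := by
    unfold Fn
    rw [abs_mul]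
    refine mul_le_mul h1 ?_ (abs_nonneg _) ((abs_nonneg _).trans h1)
    calc |1 - b x * Real.exp (w x)| ≤ |1| + |b x * Real.exp (w x)| := abs_sub _ _
      _ ≤ 1 + B * Real.exp C := by rw [abs_one]; linarith
  calc |w x + Fn (b x * Real.exp (w x)) + G x| ≤ |w x| + |Fn (b x * Real.exp (w x))| + |G x| :=
        (abs_add_le _ _).trans (add_le_add (abs_add_le _ _) le_rfl)
    _ ≤ _ := add_le_add (add_le_add (hw x) h2) (hG x)

/-- Global maximum principle for `1 - Lap`. -/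
theorem nonneg_of_sub_lap_nonneg {z : E → ℝ} (hz : ContDiff ℝ 2 z)
    (hlim : Tendsto z (cocompact E) (𝓝 0)) (h : ∀ x, 0 ≤ z x - Lap z x) (x : E) : 0 ≤ z x := by
  by_contra hneg
  push Not at hneg
  -- exists global minimum
  obtain ⟨y, hy⟩ : ∃ y, ∀ x, z y ≤ z x := by
    have h1 : ∀ᶠ y in cocompact E, z x ≤ z y := by
      filter_upwards [hlim.eventually (lt_mem_nhds hneg)] with y hy using hy.le
    exact hz.continuous.exists_forall_le' x h1
  have h2 : 0 ≤ Lap z y := lap_nonneg_of_isLocalMin hz.contDiffAt (Eventually.of_forall hy)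
  have h3 := h y
  have h4 := hy x
  linarith

end Pool.Agent.CSV
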