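import Pool.Agent.CSV.Iter

set_option autoImplicit false

open Set Filter Topology

namespace Pool.Agent.CSV

theorem norm_line (x p v : E) (s : ℝ) :
    ‖x + s • v - p‖ ^ 2 = ‖x - p‖ ^ 2 + 2 * s * inner ℝ (x - p) v + s ^ 2 * ‖v‖ ^ 2 := by
  have e : x + s • v - p = (x - p) + s • v := by abel
  rw [e, norm_add_sq_real, norm_smul, inner_smul_right, mul_pow, Real.norm_eq_abs, sq_abs]
  ring

theorem norm_single (i : Fin 2) : ‖(EuclideanSpace.single i (1 : ℝ) : E)‖ = 1 := by simp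

theorem sum_inner_sq (y : E) :
    ∑ i : Fin 2, (inner ℝ y (EuclideanSpace.single i (1 : ℝ) : E)) ^ 2 = ‖y‖ ^ 2 := by
  rw [EuclideanSpace.norm_sq_eq]
  simp [Fin.sum_univ_two, EuclideanSpace.inner_single_right]

/-- Laplacian of a radial function. -/
theorem lap_radial {φ φ1 : ℝ → ℝ} {φ2 : ℝ} {x p : E}
    (hφ : ContDiffAt ℝ 2 φ (‖x - p‖ ^ 2))
    (h1 : ∀ᶠ t in 𝓝 (‖x - p‖ ^ 2), HasDerivAt φ (φ1 t) t)
    (h2 : HasDerivAt φ1 φ2 (‖x - p‖ ^ 2)) :
    Lap (fun y => φ (‖y - p‖ ^ 2)) x = 4 * (‖x - p‖ ^ 2 * φ2 + φ1 (‖x - p‖ ^ 2)) := by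
  have hns : ContDiffAt ℝ 2 (fun y : E => ‖y - p‖ ^ 2) x :=
    ((contDiff_norm_sq ℝ).comp (contDiff_id.sub contDiff_const)).contDiffAt
  have hf : ContDiffAt ℝ 2 (fun y => φ (‖y - p‖ ^ 2)) x := hφ.comp x hns
  unfold Lap
  have key : ∀ i : Fin 2, iteratedFDeriv ℝ 2 (fun y => φ (‖y - p‖ ^ 2)) x
      ![EuclideanSpace.single i (1 : ℝ), EuclideanSpace.single i (1 : ℝ)]
      = 4 * φ2 * (inner ℝ (x - p) (EuclideanSpace.single i (1 : ℝ) : E)) ^ 2 +
        2 * φ1 (‖x - p‖ ^ 2) := by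
    intro i
    rw [← deriv_deriv_line hf]
    set v : E := EuclideanSpace.single i (1 : ℝ) with hv
    have hv1 : ‖v‖ = 1 := norm_single i
    set c : ℝ := inner ℝ (x - p) v with hc
    set T : ℝ → ℝ := fun s => ‖x - p‖ ^ 2 + 2 * s * c + s ^ 2 with hT
    have hT0 : T 0 = ‖x - p‖ ^ 2 := by simp [hT]
    have e1 : (fun s : ℝ => φ (‖x + s • v - p‖ ^ 2)) = fun s => φ (T s) := by
      ext s
      rw [norm_line, hv1]
      simp [hT, hc]
    rw [e1]
    have hTd : ∀ s, HasDerivAt T (2 * c + 2 * s) s := by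
      intro s
      have h3 : HasDerivAt (fun s : ℝ => ‖x - p‖ ^ 2 + 2 * s * c + s ^ 2)
          (0 + 2 * 1 * c + (2:ℕ) * s ^ (2 - 1)) s :=
        ((((hasDerivAt_id s).const_mul 2).mul_const c).const_add (‖x - p‖ ^ 2) |>.congr_deriv
          (by simp)).add (hasDerivAt_pow 2 s)
      refine h3.congr_deriv ?_
      simp
    have hTc : Tendsto T (𝓝 0) (𝓝 (‖x - p‖ ^ 2)) := by
      rw [← hT0]; exact (hTd 0).continuousAt.tendsto
    have hev : deriv (fun s => φ (T s)) =ᶠ[𝓝 0] fun s => φ1 (T s) * (2 * c + 2 * s) := by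
      filter_upwards [hTc.eventually h1] with s hs
      exact (hs.comp s (hTd s)).deriv
    rw [hev.deriv_eq]
    have h4 : HasDerivAt (fun s => φ1 (T s)) (φ2 * (2 * c + 2 * 0)) 0 := by
      have h5 : HasDerivAt φ1 φ2 (T 0) := by rw [hT0]; exact h2
      exact h5.comp 0 (hTd 0)
    have h6 : HasDerivAt (fun s : ℝ => 2 * c + 2 * s) 2 0 := by
      have := ((hasDerivAt_id (0:ℝ)).const_mul 2).const_add (2 * c)
      simpa using this
    have h7 : HasDerivAt (fun s => φ1 (T s) * (2 * c + 2 * s))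
        (φ2 * (2 * c + 2 * 0) * (2 * c + 2 * 0) + φ1 (T 0) * 2) 0 := h4.mul h6
    rw [h7.deriv, hT0]
    ring
  simp only [key]
  rw [Finset.sum_add_distrib, ← Finset.mul_sum, sum_inner_sq]
  simp
  ring

/-- Laplacian of an exponential. -/
theorem lap_exp {f : E → ℝ} {x : E} (hf : ContDiffAt ℝ 2 f x) :
    Lap (fun y => Real.exp (f y)) x = Real.exp (f x) * (Lap f x +
      ∑ i : Fin 2, (fderiv ℝ f x (EuclideanSpace.single i (1 : ℝ))) ^ 2) := by
  unfold Lap
  rw [← Finset.sum_add_distrib, Finset.mul_sum]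
  refine Finset.sum_congr rfl fun i _ => ?_
  set v : E := EuclideanSpace.single i (1 : ℝ) with hv
  rw [← deriv_deriv_line hf, ← deriv_deriv_line hf.exp]
  set g : ℝ → ℝ := fun s => f (x + s • v) with hg
  have hline : ContDiffAt ℝ 2 (fun s : ℝ => x + s • v) 0 := by fun_prop
  have hg2 : ContDiffAt ℝ 2 g 0 := by
    have h0 : ContDiffAt ℝ 2 f ((fun s : ℝ => x + s • v) 0) := by simpa using hf
    exact h0.comp (0:ℝ) hline
  have hgd : ∀ᶠ s in 𝓝 (0:ℝ), DifferentiableAt ℝ g s := by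
    filter_upwards [hg2.eventually (by simp)] with s hs using hs.differentiableAt (by simp)
  have hev : deriv (fun s => Real.exp (g s)) =ᶠ[𝓝 0] fun s => Real.exp (g s) * deriv g s := by
    filter_upwards [hgd] with s hs
    exact hs.hasDerivAt.exp.deriv
  have e1 : deriv (deriv fun t : ℝ => Real.exp (f (x + t • v))) 0
      = deriv (deriv fun s => Real.exp (g s)) 0 := rfl
  rw [e1, hev.deriv_eq]
  have hdg : DifferentiableAt ℝ (deriv g) 0 := by
    have h1 : DifferentiableAt ℝ (fun s => fderiv ℝ g s 1) 0 :=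
      ((hg2.fderiv_right (m := 1) (by norm_num)).differentiableAt (by simp)).clm_apply
        (differentiableAt_const 1)
    have e2 : deriv g = fun s => fderiv ℝ g s 1 := by ext s; simp
    rw [e2]; exact h1
  have h2 : HasDerivAt (fun s => Real.exp (g s) * deriv g s)
      (Real.exp (g 0) * deriv g 0 * deriv g 0 + Real.exp (g 0) * deriv (deriv g) 0) 0 :=
    hgd.self_of_nhds.hasDerivAt.exp.mul hdg.hasDerivAt
  rw [h2.deriv]
  have h3 : deriv g 0 = fderiv ℝ f x v := by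
    have h4 : HasDerivAt (fun t : ℝ => x + t • v) v 0 := by
      have := ((hasDerivAt_id (0:ℝ)).smul_const v).const_add x
      simpa using this
    have h5 : HasFDerivAt f (fderiv ℝ f x) (x + (0:ℝ) • v) := by
      simpa using (hf.differentiableAt (by simp)).hasFDerivAt
    exact (h5.comp_hasDerivAt (0:ℝ) h4).deriv
  have h6 : g 0 = f x := by simp [hg]
  rw [h3, h6]
  ring

end Pool.Agent.CSV
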