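import Pool.Agent.CSV.Gauss

set_option autoImplicit false

open Set Filter Topology MeasureTheory

namespace Pool.Agent.CSV

theorem integrable_P {h : E → ℝ} {C : ℝ} (hm : Measurable h) (hC : ∀ x, |h x| ≤ C) (s : ℝ) (x : E) :
    Integrable (fun z : E => h (x + s • z) * gauss z) := by
  refine (integrable_gauss.const_mul C).mono' ?_ (Eventually.of_forall fun z => ?_)
  · have := measurable_gauss
    exact ((hm.comp (by fun_prop)).mul this).aestronglyMeasurable
  · rw [norm_mul, Real.norm_of_nonneg (gauss_nonneg z)]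
    exact mul_le_mul_of_nonneg_right (hC _) (gauss_nonneg z)

theorem P_abs_le {h : E → ℝ} {C : ℝ} (hC : ∀ x, |h x| ≤ C) (s : ℝ) (x : E) :
    |P h s x| ≤ C := by
  unfold P
  have h1 := norm_integral_le_of_norm_le (f := fun z : E => h (x + s • z) * gauss z)
    (integrable_gauss.const_mul C) (Eventually.of_forall fun z => by
      rw [norm_mul, Real.norm_of_nonneg (gauss_nonneg z)]
      exact mul_le_mul_of_nonneg_right (hC _) (gauss_nonneg z))
  rw [integral_const_mul, integral_gauss, mul_one] at h1
  exact h1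

theorem stronglyMeasurable_P {h : E → ℝ} (hm : Measurable h) (x : E) :
    StronglyMeasurable (fun s : ℝ => P h s x) := by
  unfold P
  have h1 : Measurable (Function.uncurry fun (s : ℝ) (z : E) => h (x + s • z) * gauss z) := by
    have h2 : Measurable (fun p : ℝ × E => h (x + p.1 • p.2)) := hm.comp (by fun_prop)
    exact h2.mul (measurable_gauss.comp measurable_snd)
  exact h1.stronglyMeasurable.integral_prod_right'

theorem integrableOn_R {h : E → ℝ} {C : ℝ} (hm : Measurable h) (hC : ∀ x, |h x| ≤ C) (x : E) :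
    IntegrableOn (fun s : ℝ => s * Real.exp (-s ^ 2 / 2) * P h s x) (Ioi 0) := by
  refine (integrableOn_mul_exp_neg_sq.mul_const C).mono' ?_ ?_
  · have := (stronglyMeasurable_P hm x).measurable
    exact (by fun_prop : Measurable fun s : ℝ => s * Real.exp (-s ^ 2 / 2) * P h s x).aestronglyMeasurable
  · refine (ae_restrict_iff' measurableSet_Ioi).mpr (Eventually.of_forall fun s hs => ?_)
    have hs' : (0:ℝ) < s := hs
    rw [norm_mul, Real.norm_of_nonneg (by positivity)]
    exact mul_le_mul_of_nonneg_left (P_abs_le hC s x) (by positivity)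

theorem R_abs_le {h : E → ℝ} {C : ℝ} (hC : ∀ x, |h x| ≤ C) (x : E) :
    |R h x| ≤ C := by
  unfold R
  have h1 := norm_integral_le_of_norm_le (μ := volume.restrict (Ioi (0:ℝ)))
    (f := fun s : ℝ => s * Real.exp (-s ^ 2 / 2) * P h s x)
    (integrableOn_mul_exp_neg_sq.mul_const C)
    ((ae_restrict_iff' measurableSet_Ioi).mpr (Eventually.of_forall fun s hs => by
      have hs' : (0:ℝ) < s := hs
      rw [norm_mul, Real.norm_of_nonneg (by positivity)]
      exact mul_le_mul_of_nonneg_left (P_abs_le hC s x) (by positivity)))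
  rw [integral_mul_const, integral_mul_exp_neg_sq, one_mul] at h1
  exact h1

theorem R_mono {h k : E → ℝ} {C : ℝ} (hm : Measurable h) (km : Measurable k)
    (hC : ∀ x, |h x| ≤ C) (kC : ∀ x, |k x| ≤ C) (hle : ∀ x, h x ≤ k x) (x : E) :
    R h x ≤ R k x := by
  unfold R
  refine setIntegral_mono_on (integrableOn_R hm hC x) (integrableOn_R km kC x) measurableSet_Ioi
    fun s hs => ?_
  have hs' : (0:ℝ) < s := hs
  refine mul_le_mul_of_nonneg_left ?_ (by positivity)
  exact integral_mono (integrable_P hm hC s x) (integrable_P km kC s x) fun z =>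
    mul_le_mul_of_nonneg_right (hle _) (gauss_nonneg z)

theorem R_tendsto_filter {ι : Type*} {l : Filter ι} [l.IsCountablyGenerated] {h : ι → E → ℝ}
    {k : ℝ → E → ℝ} {C : ℝ} (hm : ∀ n, Measurable (h n))
    (hC : ∀ n x, |h n x| ≤ C) (y : ι → E) (K : ℝ)
    (hlim : ∀ (s : ℝ) (z : E), Tendsto (fun n => h n (y n + s • z)) l (𝓝 (k s z)))
    (hK : K = ∫ s in Ioi (0 : ℝ), s * Real.exp (-s ^ 2 / 2) * ∫ z : E, k s z * gauss z) :
    Tendsto (fun n => R (h n) (y n)) l (𝓝 K) := by
  rw [hK]
  unfold R
  refine tendsto_integral_filter_of_dominated_convergence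
    (fun s => s * Real.exp (-s ^ 2 / 2) * C) (Eventually.of_forall fun n => ?_)
    (Eventually.of_forall fun n => ?_) (integrableOn_mul_exp_neg_sq.mul_const C) ?_
  · exact (integrableOn_R (hm n) (hC n) (y n)).aestronglyMeasurable
  · refine (ae_restrict_iff' measurableSet_Ioi).mpr (Eventually.of_forall fun s hs => ?_)
    have hs' : (0:ℝ) < s := hs
    rw [norm_mul, Real.norm_of_nonneg (by positivity)]
    exact mul_le_mul_of_nonneg_left (P_abs_le (hC n) s (y n)) (by positivity)
  · refine Eventually.of_forall fun s => ?_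
    refine Tendsto.const_mul _ ?_
    unfold P
    refine tendsto_integral_filter_of_dominated_convergence
      (fun z => C * gauss z) (Eventually.of_forall fun n => ?_)
      (Eventually.of_forall fun n => ?_) (integrable_gauss.const_mul C) ?_
    · exact (integrable_P (hm n) (hC n) s (y n)).aestronglyMeasurable
    · refine Eventually.of_forall fun z => ?_
      rw [norm_mul, Real.norm_of_nonneg (gauss_nonneg z)]
      exact mul_le_mul_of_nonneg_right (hC n _) (gauss_nonneg z)
    · exact Eventually.of_forall fun z => (hlim s z).mul_const _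

theorem R_tendsto {h : ℕ → E → ℝ} {k : E → ℝ} {C : ℝ} (hm : ∀ n, Measurable (h n))
    (hC : ∀ n x, |h n x| ≤ C) (hlim : ∀ x, Tendsto (fun n => h n x) atTop (𝓝 (k x))) (x : E) :
    Tendsto (fun n => R (h n) x) atTop (𝓝 (R k x)) :=
  R_tendsto_filter hm hC (fun _ => x) _ (fun s z => hlim (x + s • z)) rfl

theorem R_zero_at_infty {h : E → ℝ} {C : ℝ} (hm : Measurable h) (hC : ∀ x, |h x| ≤ C)
    (hlim : Tendsto h (cocompact E) (𝓝 0)) : Tendsto (R h) (cocompact E) (𝓝 0) := by
  haveI : (cocompact E).IsCountablyGenerated := by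
    rw [← Metric.cobounded_eq_cocompact, ← comap_norm_atTop]
    infer_instance
  refine R_tendsto_filter (h := fun _ => h) (k := fun _ _ => 0) (fun _ => hm) (fun _ => hC)
    (fun x => x) _ (fun s z => ?_) (by simp)
  exact hlim.comp (Homeomorph.addRight (s • z)).isClosedEmbedding.tendsto_cocompact

end Pool.Agent.CSV
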