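import Pool.Agent.CSV.Deriv

set_option autoImplicit false

open Set Filter Topology MeasureTheory

namespace Pool.Agent.CSV

theorem DP_apply {h : E → ℝ} {C : ℝ} (hm : Measurable h) (hC : ∀ x, |h x| ≤ C) (s : ℝ) (x v : E) :
    DP h s x v = ∫ z : E, h (x + s • z) * gauss z * inner ℝ z v := by
  unfold DP
  have hint : Integrable (fun z : E => (h (x + s • z) * gauss z) • innerSL ℝ z) := by
    refine (integrable_norm_mul_gauss.const_mul C).mono' ?_ (Eventually.of_forall fun z => ?_)
    · have h2 : Measurable (fun z : E => h (x + s • z) * gauss z) :=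
        (hm.comp (by fun_prop)).mul measurable_gauss
      exact h2.aestronglyMeasurable.smul (innerSL ℝ).continuous.aestronglyMeasurable
    · rw [norm_smul, norm_mul, innerSL_apply_norm, Real.norm_of_nonneg (gauss_nonneg _)]
      have h1 : ‖h (x + s • z)‖ ≤ C := hC _
      have h2 := gauss_nonneg z
      calc ‖h (x + s • z)‖ * gauss z * ‖z‖ ≤ C * gauss z * ‖z‖ := by gcongr
        _ = C * (‖z‖ * gauss z) := by ring
  rw [ContinuousLinearMap.integral_apply hint]
  refine integral_congr_ae (Eventually.of_forall fun z => ?_)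
  simp

theorem DR_apply {h : E → ℝ} {C : ℝ} (hm : Measurable h) (hC : ∀ x, |h x| ≤ C) (x v : E) :
    DR h x v = ∫ s in Ioi (0 : ℝ), Real.exp (-s ^ 2 / 2) *
      ∫ z : E, h (x + s • z) * gauss z * inner ℝ z v := by
  unfold DR
  have hint : Integrable (fun s : ℝ => Real.exp (-s ^ 2 / 2) • DP h s x)
      (volume.restrict (Ioi (0:ℝ))) := by
    refine (integrableOn_exp_neg_sq.mul_const (C * m1)).mono' ?_ (Eventually.of_forall fun s => ?_)
    · have h1 := stronglyMeasurable_DP hm x
      have h2 : StronglyMeasurable (fun s : ℝ => Real.exp (-s ^ 2 / 2)) :=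
        (by fun_prop : Measurable fun s : ℝ => Real.exp (-s ^ 2 / 2)).stronglyMeasurable
      exact (h2.smul h1).aestronglyMeasurable
    · rw [norm_smul, Real.norm_of_nonneg (Real.exp_nonneg _)]
      exact mul_le_mul_of_nonneg_left (DP_norm_le hC s x) (Real.exp_nonneg _)
  rw [ContinuousLinearMap.integral_apply hint]
  refine integral_congr_ae (Eventually.of_forall fun s => ?_)
  simp only [smul_apply, smul_eq_mul]
  rw [DP_apply hm hC]

section CB1

variable {h : E → ℝ}

theorem CB1.continuous (hh : CB1 h) : Continuous h := hh.contDiff.continuous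

theorem CB1.measurable (hh : CB1 h) : Measurable h := hh.continuous.measurable

theorem CB1.differentiable (hh : CB1 h) : Differentiable ℝ h := hh.contDiff.differentiable (by simp)

theorem CB1.continuous_fderiv (hh : CB1 h) : Continuous (fderiv ℝ h) :=
  hh.contDiff.continuous_fderiv (by simp)

theorem CB1.dir_continuous (hh : CB1 h) (v : E) : Continuous (fun x => fderiv ℝ h x v) :=
  hh.continuous_fderiv.clm_apply continuous_const

theorem CB1.dir_bdd (hh : CB1 h) (v : E) : ∃ C, ∀ x, |fderiv ℝ h x v| ≤ C := by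
  obtain ⟨C, hC⟩ := hh.dbdd
  refine ⟨C * ‖v‖, fun x => ?_⟩
  have h1 := (fderiv ℝ h x).le_opNorm v
  exact h1.trans (mul_le_mul_of_nonneg_right (hC x) (norm_nonneg _))

/-- Derivative of `P h s` passes to `h`. -/
theorem CB1.hasFDerivAt_P (hh : CB1 h) (s : ℝ) (x : E) :
    HasFDerivAt (fun x : E => P h s x) (∫ z : E, gauss z • fderiv ℝ h (x + s • z)) x := by
  obtain ⟨C, hC⟩ := hh.bdd
  obtain ⟨C', hC'⟩ := hh.dbdd
  refine hasFDerivAt_integral_of_dominated_of_fderiv_le (μ := (volume : Measure E))
    (F := fun (x : E) (z : E) => h (x + s • z) * gauss z)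
    (F' := fun (x : E) (z : E) => gauss z • fderiv ℝ h (x + s • z))
    (x₀ := x) (s := univ) (bound := fun z => C' * gauss z) univ_mem ?_ ?_ ?_ ?_ ?_ ?_
  · exact Eventually.of_forall fun x' => (integrable_P hh.measurable hC s x').aestronglyMeasurable
  · exact integrable_P hh.measurable hC s x
  · have h1 := continuous_gauss
    have h2 := hh.continuous_fderiv
    exact (by fun_prop : Continuous fun z : E => gauss z • fderiv ℝ h (x + s • z)).aestronglyMeasurable
  · refine Eventually.of_forall fun z x' _ => ?_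
    rw [norm_smul, Real.norm_of_nonneg (gauss_nonneg _), mul_comm]
    exact mul_le_mul_of_nonneg_right (hC' _) (gauss_nonneg _)
  · exact integrable_gauss.const_mul _
  · refine Eventually.of_forall fun z x' _ => ?_
    have h1 : HasFDerivAt (fun x : E => h (x + s • z)) (fderiv ℝ h (x' + s • z)) x' := by
      have h2 : HasFDerivAt (fun x : E => x + s • z) (ContinuousLinearMap.id ℝ E) x' :=
        (hasFDerivAt_id x').add_const _
      have h3 := (hh.differentiable (x' + s • z)).hasFDerivAt.comp x' h2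
      exact h3.congr_fderiv (ContinuousLinearMap.comp_id _)
    exact h1.mul_const (gauss z)

theorem CB1.stronglyMeasurable_aux (hh : CB1 h) (x : E) :
    StronglyMeasurable (fun s : ℝ => ∫ z : E, gauss z • fderiv ℝ h (x + s • z)) := by
  have h0 := continuous_gauss
  have h2 := hh.continuous_fderiv
  have h1 : StronglyMeasurable (Function.uncurry fun (s : ℝ) (z : E) =>
      gauss z • fderiv ℝ h (x + s • z)) := by
    refine Continuous.stronglyMeasurable ?_
    unfold Function.uncurry
    fun_prop
  exact h1.integral_prod_right'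

theorem CB1.norm_aux_le (_hh : CB1 h) {C' : ℝ} (hC' : ∀ x, ‖fderiv ℝ h x‖ ≤ C') (s : ℝ) (x : E) :
    ‖∫ z : E, gauss z • fderiv ℝ h (x + s • z)‖ ≤ C' := by
  have h1 := norm_integral_le_of_norm_le (f := fun z : E => gauss z • fderiv ℝ h (x + s • z))
    (integrable_gauss.const_mul C') (Eventually.of_forall fun z => by
      rw [norm_smul, Real.norm_of_nonneg (gauss_nonneg _), mul_comm]
      exact mul_le_mul_of_nonneg_right (hC' _) (gauss_nonneg _))
  rw [integral_const_mul, integral_gauss, mul_one] at h1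
  exact h1

theorem CB1.hasFDerivAt_R (hh : CB1 h) (x : E) :
    HasFDerivAt (R h) (∫ s in Ioi (0 : ℝ), (s * Real.exp (-s ^ 2 / 2)) •
      ∫ z : E, gauss z • fderiv ℝ h (x + s • z)) x := by
  obtain ⟨C, hC⟩ := hh.bdd
  obtain ⟨C', hC'⟩ := hh.dbdd
  refine hasFDerivAt_integral_of_dominated_of_fderiv_le
    (μ := (volume : Measure ℝ).restrict (Ioi (0:ℝ)))
    (F := fun (x : E) (s : ℝ) => s * Real.exp (-s ^ 2 / 2) * P h s x)
    (F' := fun (x : E) (s : ℝ) => (s * Real.exp (-s ^ 2 / 2)) •
      ∫ z : E, gauss z • fderiv ℝ h (x + s • z))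
    (x₀ := x) (s := univ) (bound := fun s => s * Real.exp (-s ^ 2 / 2) * C')
    univ_mem ?_ ?_ ?_ ?_ ?_ ?_
  · exact Eventually.of_forall fun x' => (integrableOn_R hh.measurable hC x').aestronglyMeasurable
  · exact integrableOn_R hh.measurable hC x
  · have h2 : StronglyMeasurable (fun s : ℝ => s * Real.exp (-s ^ 2 / 2)) :=
      (by fun_prop : Measurable fun s : ℝ => s * Real.exp (-s ^ 2 / 2)).stronglyMeasurable
    exact (h2.smul (hh.stronglyMeasurable_aux x)).aestronglyMeasurable
  · refine (ae_restrict_iff' measurableSet_Ioi).mpr (Eventually.of_forall fun s hs x' _ => ?_)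
    have hs' : (0:ℝ) < s := hs
    rw [norm_smul, Real.norm_of_nonneg (by positivity)]
    exact mul_le_mul_of_nonneg_left (hh.norm_aux_le hC' s x') (by positivity)
  · exact integrableOn_mul_exp_neg_sq.mul_const _
  · exact Eventually.of_forall fun s x' _ => (hh.hasFDerivAt_P s x').const_mul _

theorem CB1.fderiv_R_apply (hh : CB1 h) (x v : E) :
    fderiv ℝ (R h) x v = R (fun y => fderiv ℝ h y v) x := by
  obtain ⟨C', hC'⟩ := hh.dbdd
  rw [(hh.hasFDerivAt_R x).fderiv]
  have hint : Integrable (fun s : ℝ => (s * Real.exp (-s ^ 2 / 2)) •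
      ∫ z : E, gauss z • fderiv ℝ h (x + s • z)) (volume.restrict (Ioi (0:ℝ))) := by
    refine (integrableOn_mul_exp_neg_sq.mul_const C').mono' ?_ ?_
    · have h2 : StronglyMeasurable (fun s : ℝ => s * Real.exp (-s ^ 2 / 2)) :=
        (by fun_prop : Measurable fun s : ℝ => s * Real.exp (-s ^ 2 / 2)).stronglyMeasurable
      exact (h2.smul (hh.stronglyMeasurable_aux x)).aestronglyMeasurable
    · refine (ae_restrict_iff' measurableSet_Ioi).mpr (Eventually.of_forall fun s hs => ?_)
      have hs' : (0:ℝ) < s := hs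
      rw [norm_smul, Real.norm_of_nonneg (by positivity)]
      exact mul_le_mul_of_nonneg_left (hh.norm_aux_le hC' s x) (by positivity)
  rw [ContinuousLinearMap.integral_apply hint]
  unfold R
  refine integral_congr_ae (Eventually.of_forall fun s => ?_)
  simp only [smul_apply, smul_eq_mul]
  congr 1
  have hint2 : Integrable (fun z : E => gauss z • fderiv ℝ h (x + s • z)) := by
    refine (integrable_gauss.const_mul C').mono' ?_ (Eventually.of_forall fun z => ?_)
    · have h1 := continuous_gauss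
      have h2 := hh.continuous_fderiv
      exact (by fun_prop : Continuous fun z : E => gauss z • fderiv ℝ h (x + s • z)).aestronglyMeasurable
    · rw [norm_smul, Real.norm_of_nonneg (gauss_nonneg _), mul_comm]
      exact mul_le_mul_of_nonneg_right (hC' _) (gauss_nonneg _)
  rw [ContinuousLinearMap.integral_apply hint2]
  unfold P
  refine integral_congr_ae (Eventually.of_forall fun z => ?_)
  simp [mul_comm]

theorem CB1.contDiff_two_R (hh : CB1 h) : ContDiff ℝ 2 (R h) := by
  have h1 : ContDiff ℝ (1 + 1) (R h) := by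
    rw [contDiff_succ_iff_fderiv]
    obtain ⟨C, hC⟩ := hh.bdd
    refine ⟨R_differentiable hh.measurable hC, by simp, ?_⟩
    rw [contDiff_clm_apply_iff]
    intro v
    have e : (fun x => fderiv ℝ (R h) x v) = R (fun y => fderiv ℝ h y v) := by
      ext x; exact hh.fderiv_R_apply x v
    rw [e]
    obtain ⟨C', hC'⟩ := hh.dir_bdd v
    exact R_contDiff_one (hh.dir_continuous v) hC'
  exact_mod_cast h1

theorem CB1.lap_R_aux (hh : CB1 h) (x : E) :
    Lap (R h) x = ∫ s in Ioi (0 : ℝ), Real.exp (-s ^ 2 / 2) *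
      ∫ z : E, fderiv ℝ h (x + s • z) z * gauss z := by
  obtain ⟨C', hC'⟩ := hh.dbdd
  unfold Lap
  have e1 : ∀ i : Fin 2, iteratedFDeriv ℝ 2 (R h) x
      ![EuclideanSpace.single i (1 : ℝ), EuclideanSpace.single i (1 : ℝ)]
      = ∫ s in Ioi (0 : ℝ), Real.exp (-s ^ 2 / 2) *
        ∫ z : E, fderiv ℝ h (x + s • z) (EuclideanSpace.single i (1 : ℝ)) * gauss z *
          inner ℝ z (EuclideanSpace.single i (1 : ℝ)) := by
    intro i
    rw [iteratedFDeriv_two_apply]
    simp only [Matrix.cons_val_zero, Matrix.cons_val_one]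
    set v : E := EuclideanSpace.single i (1 : ℝ) with hv
    have hd : DifferentiableAt ℝ (fderiv ℝ (R h)) x :=
      (hh.contDiff_two_R.fderiv_right (m := 1) (by norm_num)).differentiable (by simp) x
    have e2 : fderiv ℝ (fun x => fderiv ℝ (R h) x v) x v = fderiv ℝ (fderiv ℝ (R h)) x v v := by
      rw [fderiv_clm_apply hd (differentiableAt_const v)]
      simp
    rw [← e2]
    have e : (fun x => fderiv ℝ (R h) x v) = R (fun y => fderiv ℝ h y v) := by
      ext x; exact hh.fderiv_R_apply x v
    rw [e]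
    obtain ⟨C2, hC2⟩ := hh.dir_bdd v
    have hm2 := (hh.dir_continuous v).measurable
    rw [(Pool.Agent.CSV.hasFDerivAt_R hm2 hC2 x).fderiv, DR_apply hm2 hC2]
  simp only [e1]
  have hm2 : ∀ v : E, Measurable (fun x => fderiv ℝ h x v) := fun v => (hh.dir_continuous v).measurable
  have hintz : ∀ (v : E) (s : ℝ), Integrable (fun z : E => fderiv ℝ h (x + s • z) v * gauss z *
      inner ℝ z v) := by
    intro v s
    refine (integrable_norm_mul_gauss.const_mul (C' * ‖v‖ * ‖v‖)).mono' ?_
      (Eventually.of_forall fun z => ?_)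
    · have h1 := continuous_gauss
      have h2 := hh.dir_continuous v
      exact (by fun_prop : Continuous fun z : E => fderiv ℝ h (x + s • z) v * gauss z *
        inner ℝ z v).aestronglyMeasurable
    · rw [norm_mul, norm_mul, Real.norm_of_nonneg (gauss_nonneg _)]
      have h3 : ‖fderiv ℝ h (x + s • z) v‖ ≤ C' * ‖v‖ :=
        ((fderiv ℝ h _).le_opNorm v).trans (mul_le_mul_of_nonneg_right (hC' _) (norm_nonneg _))
      have h4 : ‖inner ℝ z v‖ ≤ ‖z‖ * ‖v‖ := norm_inner_le_norm z v
      have h5 := gauss_nonneg z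
      have h6 : 0 ≤ C' * ‖v‖ := (norm_nonneg _).trans h3
      calc ‖fderiv ℝ h (x + s • z) v‖ * gauss z * ‖inner ℝ z v‖
          ≤ (C' * ‖v‖) * gauss z * (‖z‖ * ‖v‖) := by gcongr
        _ = C' * ‖v‖ * ‖v‖ * (‖z‖ * gauss z) := by ring
  have hints : ∀ (v : E), IntegrableOn (fun s : ℝ => Real.exp (-s ^ 2 / 2) *
      ∫ z : E, fderiv ℝ h (x + s • z) v * gauss z * inner ℝ z v) (Ioi 0) := by
    intro v
    refine (integrableOn_exp_neg_sq.mul_const ((C' * ‖v‖ * ‖v‖) * m1)).mono' ?_
      (Eventually.of_forall fun s => ?_)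
    · have h0 := continuous_gauss
      have h2 := hh.dir_continuous v
      have h1 : StronglyMeasurable (Function.uncurry fun (s : ℝ) (z : E) =>
          fderiv ℝ h (x + s • z) v * gauss z * inner ℝ z v) := by
        refine Continuous.stronglyMeasurable ?_
        unfold Function.uncurry
        fun_prop
      have h3 : StronglyMeasurable (fun s : ℝ => Real.exp (-s ^ 2 / 2)) :=
        (by fun_prop : Measurable fun s : ℝ => Real.exp (-s ^ 2 / 2)).stronglyMeasurable
      exact (h3.mul h1.integral_prod_right').aestronglyMeasurable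
    · rw [norm_mul, Real.norm_of_nonneg (Real.exp_nonneg _)]
      refine mul_le_mul_of_nonneg_left ?_ (Real.exp_nonneg _)
      unfold m1
      rw [← integral_const_mul]
      refine norm_integral_le_of_norm_le (integrable_norm_mul_gauss.const_mul _)
        (Eventually.of_forall fun z => ?_)
      rw [norm_mul, norm_mul, Real.norm_of_nonneg (gauss_nonneg _)]
      have h3 : ‖fderiv ℝ h (x + s • z) v‖ ≤ C' * ‖v‖ :=
        ((fderiv ℝ h _).le_opNorm v).trans (mul_le_mul_of_nonneg_right (hC' _) (norm_nonneg _))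
      have h4 : ‖inner ℝ z v‖ ≤ ‖z‖ * ‖v‖ := norm_inner_le_norm z v
      have h5 := gauss_nonneg z
      have h6 : 0 ≤ C' * ‖v‖ := (norm_nonneg _).trans h3
      calc ‖fderiv ℝ h (x + s • z) v‖ * gauss z * ‖inner ℝ z v‖
          ≤ (C' * ‖v‖) * gauss z * (‖z‖ * ‖v‖) := by gcongr
        _ = C' * ‖v‖ * ‖v‖ * (‖z‖ * gauss z) := by ring
  rw [← integral_finsetSum _ (fun i _ => hints _)]
  refine integral_congr_ae (Eventually.of_forall fun s => ?_)
  simp only
  rw [← Finset.mul_sum]
  congr 1
  rw [← integral_finsetSum _ (fun i _ => hintz _ s)]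
  refine integral_congr_ae (Eventually.of_forall fun z => ?_)
  simp only
  have hz : z = ∑ i : Fin 2, (inner ℝ z (EuclideanSpace.single i (1 : ℝ))) •
      (EuclideanSpace.single i (1 : ℝ) : E) := by
    ext j
    fin_cases j <;> simp [Fin.sum_univ_two, EuclideanSpace.inner_single_right]
  conv_rhs => rw [hz]
  simp only [map_sum, map_smul, smul_eq_mul, Finset.sum_mul]
  refine Finset.sum_congr rfl fun i _ => ?_
  rw [← hz]
  ring

theorem CB1.R_sub_lap (hh : CB1 h) (x : E) : R h x - Lap (R h) x = h x := by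
  obtain ⟨C, hC⟩ := hh.bdd
  obtain ⟨C', hC'⟩ := hh.dbdd
  have hC0 : 0 ≤ C := (abs_nonneg _).trans (hC 0)
  have hC0' : 0 ≤ C' := (norm_nonneg _).trans (hC' 0)
  have hcg := continuous_gauss
  have hch := hh.continuous
  have hcd := hh.continuous_fderiv
  -- Fubini for both
  have hI1 : Integrable (Function.uncurry fun (s : ℝ) (z : E) =>
      Real.exp (-s ^ 2 / 2) * (fderiv ℝ h (x + s • z) z * gauss z))
      ((volume.restrict (Ioi (0:ℝ))).prod volume) := by
    have hprod : Integrable (fun p : ℝ × E => (Real.exp (-p.1 ^ 2 / 2)) * (‖p.2‖ * gauss p.2))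
        ((volume.restrict (Ioi (0:ℝ))).prod volume) :=
      integrableOn_exp_neg_sq.mul_prod integrable_norm_mul_gauss
    refine (hprod.const_mul C').mono' ?_ (Eventually.of_forall fun p => ?_)
    · refine Continuous.aestronglyMeasurable ?_
      unfold Function.uncurry
      fun_prop
    · simp only [Function.uncurry]
      rw [norm_mul, norm_mul, Real.norm_of_nonneg (Real.exp_nonneg _),
        Real.norm_of_nonneg (gauss_nonneg _)]
      have h3 : ‖fderiv ℝ h (x + p.1 • p.2) p.2‖ ≤ C' * ‖p.2‖ :=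
        ((fderiv ℝ h _).le_opNorm _).trans (mul_le_mul_of_nonneg_right (hC' _) (norm_nonneg _))
      have h5 := gauss_nonneg p.2
      calc Real.exp (-p.1 ^ 2 / 2) * (‖fderiv ℝ h (x + p.1 • p.2) p.2‖ * gauss p.2)
          ≤ Real.exp (-p.1 ^ 2 / 2) * ((C' * ‖p.2‖) * gauss p.2) := by gcongr
        _ = C' * (Real.exp (-p.1 ^ 2 / 2) * (‖p.2‖ * gauss p.2)) := by ring
  have hI2 : Integrable (Function.uncurry fun (s : ℝ) (z : E) =>
      s * Real.exp (-s ^ 2 / 2) * (h (x + s • z) * gauss z))
      ((volume.restrict (Ioi (0:ℝ))).prod volume) := by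
    have hprod : Integrable (fun p : ℝ × E => (p.1 * Real.exp (-p.1 ^ 2 / 2)) * gauss p.2)
        ((volume.restrict (Ioi (0:ℝ))).prod volume) :=
      integrableOn_mul_exp_neg_sq.mul_prod integrable_gauss
    refine (hprod.norm.const_mul C).mono' ?_ (Eventually.of_forall fun p => ?_)
    · refine Continuous.aestronglyMeasurable ?_
      unfold Function.uncurry
      fun_prop
    · simp only [Function.uncurry]
      rw [norm_mul (p.1 * Real.exp (-p.1 ^ 2 / 2)) (h (x + p.1 • p.2) * gauss p.2),
        norm_mul (h (x + p.1 • p.2)), norm_mul (p.1 * Real.exp (-p.1 ^ 2 / 2)) (gauss p.2)]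
      have h3 : ‖h (x + p.1 • p.2)‖ ≤ C := hC _
      calc ‖p.1 * Real.exp (-p.1 ^ 2 / 2)‖ * (‖h (x + p.1 • p.2)‖ * ‖gauss p.2‖)
          ≤ ‖p.1 * Real.exp (-p.1 ^ 2 / 2)‖ * (C * ‖gauss p.2‖) := by gcongr
        _ = C * (‖p.1 * Real.exp (-p.1 ^ 2 / 2)‖ * ‖gauss p.2‖) := by ring
  have e1 : Lap (R h) x = ∫ z : E, (∫ s in Ioi (0 : ℝ), Real.exp (-s ^ 2 / 2) *
      fderiv ℝ h (x + s • z) z) * gauss z := by
    rw [hh.lap_R_aux x]
    have h1 : ∀ s : ℝ, Real.exp (-s ^ 2 / 2) * ∫ z : E, fderiv ℝ h (x + s • z) z * gauss z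
        = ∫ z : E, Real.exp (-s ^ 2 / 2) * (fderiv ℝ h (x + s • z) z * gauss z) := by
      intro s; rw [integral_const_mul]
    simp only [h1]
    rw [integral_integral_swap hI1]
    refine integral_congr_ae (Eventually.of_forall fun z => ?_)
    simp only
    rw [← integral_mul_const]
    refine integral_congr_ae (Eventually.of_forall fun s => ?_)
    simp only
    ring
  have e2 : R h x = ∫ z : E, (∫ s in Ioi (0 : ℝ), s * Real.exp (-s ^ 2 / 2) *
      h (x + s • z)) * gauss z := by
    unfold R P
    have h1 : ∀ s : ℝ, s * Real.exp (-s ^ 2 / 2) * ∫ z : E, h (x + s • z) * gauss z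
        = ∫ z : E, s * Real.exp (-s ^ 2 / 2) * (h (x + s • z) * gauss z) := by
      intro s; rw [integral_const_mul]
    simp only [h1]
    rw [integral_integral_swap hI2]
    refine integral_congr_ae (Eventually.of_forall fun z => ?_)
    simp only
    rw [← integral_mul_const]
    refine integral_congr_ae (Eventually.of_forall fun s => ?_)
    simp only
    ring
  -- inner integration by parts
  have key : ∀ z : E, ∫ s in Ioi (0 : ℝ), Real.exp (-s ^ 2 / 2) * fderiv ℝ h (x + s • z) z
      = (∫ s in Ioi (0 : ℝ), s * Real.exp (-s ^ 2 / 2) * h (x + s • z)) - h x := by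
    intro z
    have hi1 : IntegrableOn (fun s : ℝ => Real.exp (-s ^ 2 / 2) * fderiv ℝ h (x + s • z) z)
        (Ioi 0) := by
      refine (integrableOn_exp_neg_sq.mul_const (C' * ‖z‖)).mono' ?_
        (Eventually.of_forall fun s => ?_)
      · refine Continuous.aestronglyMeasurable ?_
        fun_prop
      · rw [norm_mul, Real.norm_of_nonneg (Real.exp_nonneg _)]
        refine mul_le_mul_of_nonneg_left ?_ (Real.exp_nonneg _)
        exact ((fderiv ℝ h _).le_opNorm _).trans (mul_le_mul_of_nonneg_right (hC' _) (norm_nonneg _))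
    have hi2 : IntegrableOn (fun s : ℝ => s * Real.exp (-s ^ 2 / 2) * h (x + s • z)) (Ioi 0) := by
      refine (integrableOn_mul_exp_neg_sq.mul_const C).mono' ?_ ?_
      · refine Continuous.aestronglyMeasurable ?_
        fun_prop
      · refine (ae_restrict_iff' measurableSet_Ioi).mpr (Eventually.of_forall fun s hs => ?_)
        have hs' : (0:ℝ) < s := hs
        rw [norm_mul, Real.norm_of_nonneg (by positivity)]
        exact mul_le_mul_of_nonneg_left (hC _) (by positivity)
    have hd : ∀ s : ℝ, HasDerivAt (fun s : ℝ => Real.exp (-s ^ 2 / 2) * h (x + s • z))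
        (Real.exp (-s ^ 2 / 2) * fderiv ℝ h (x + s • z) z -
          s * Real.exp (-s ^ 2 / 2) * h (x + s • z)) s := by
      intro s
      have h1 : HasDerivAt (fun s : ℝ => h (x + s • z)) (fderiv ℝ h (x + s • z) z) s := by
        have h2 : HasDerivAt (fun s : ℝ => x + s • z) z s := by
          have := ((hasDerivAt_id s).smul_const z).const_add x
          simpa using this
        exact (hh.differentiable (x + s • z)).hasFDerivAt.comp_hasDerivAt s h2
      have h3 := (hasDerivAt_exp_neg_sq s).mul h1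
      refine h3.congr_deriv ?_
      ring
    have hlim : Tendsto (fun s : ℝ => Real.exp (-s ^ 2 / 2) * h (x + s • z)) atTop (𝓝 0) := by
      have h1 : Tendsto (fun s : ℝ => Real.exp (-s ^ 2 / 2) * C) atTop (𝓝 0) := by
        simpa using tendsto_exp_neg_sq.mul_const C
      refine squeeze_zero_norm (fun s => ?_) h1
      rw [norm_mul, Real.norm_of_nonneg (Real.exp_nonneg _)]
      exact mul_le_mul_of_nonneg_left (hC _) (Real.exp_nonneg _)
    have h4 := integral_Ioi_of_hasDerivAt_of_tendsto (a := (0:ℝ)) (m := 0)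
      (f := fun s : ℝ => Real.exp (-s ^ 2 / 2) * h (x + s • z))
      (f' := fun s : ℝ => Real.exp (-s ^ 2 / 2) * fderiv ℝ h (x + s • z) z -
          s * Real.exp (-s ^ 2 / 2) * h (x + s • z))
      (hd 0).continuousAt.continuousWithinAt (fun s _ => hd s) (hi1.sub hi2) hlim
    rw [integral_sub hi1 hi2] at h4
    simp at h4
    linarith
  rw [e1, e2]
  have hJ1 : Integrable (fun z : E => (∫ s in Ioi (0 : ℝ), s * Real.exp (-s ^ 2 / 2) *
      h (x + s • z)) * gauss z) := by
    have h1 := hI2.swap.integral_prod_left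
    refine h1.congr (Eventually.of_forall fun z => ?_)
    simp only [Function.uncurry, Function.comp, Prod.swap]
    rw [← integral_mul_const]
    refine integral_congr_ae (Eventually.of_forall fun s => ?_)
    simp only
    ring
  have e3 : ∫ z : E, (∫ s in Ioi (0 : ℝ), Real.exp (-s ^ 2 / 2) *
      fderiv ℝ h (x + s • z) z) * gauss z = (∫ z : E, (∫ s in Ioi (0 : ℝ),
        s * Real.exp (-s ^ 2 / 2) * h (x + s • z)) * gauss z) - h x := by
    have h1 : ∀ z : E, (∫ s in Ioi (0 : ℝ), Real.exp (-s ^ 2 / 2) *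
        fderiv ℝ h (x + s • z) z) * gauss z = (∫ s in Ioi (0 : ℝ),
        s * Real.exp (-s ^ 2 / 2) * h (x + s • z)) * gauss z - h x * gauss z := by
      intro z; rw [key z]; ring
    simp only [h1]
    rw [integral_sub hJ1 (integrable_gauss.const_mul _), integral_const_mul, integral_gauss, mul_one]
  rw [e3]
  ring

end CB1

theorem R_C2 {h : E → ℝ} (hh : CB1 h) : ContDiff ℝ 2 (R h) ∧ ∀ x, R h x - Lap (R h) x = h x :=
  ⟨hh.contDiff_two_R, hh.R_sub_lap⟩

end Pool.Agent.CSV
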