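import Pool.Agent.CSV.Conc

set_option autoImplicit false

open Set Filter Topology

namespace Pool.Agent.CSV

variable {ι : Type*} [Fintype ι]

noncomputable def psiM (M q : ℝ) : ℝ :=
  Real.log (1 + (M - 1) * q) - Real.log ((1 - q) ^ 2 + M * q * (1 - q) + 2 * M ^ 2 * q ^ 2)

theorem phiM_eq {M : ℝ} (hM : 0 < M) (p x : E) :
    phiM M (‖x - p‖ ^ 2) = psiM M (qq p x) := by
  unfold phiM psiM qq
  set t := ‖x - p‖ ^ 2 with ht
  have ht0 : 0 ≤ t := by positivity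
  have hu : 0 < 1 + t := by positivity
  have hP := PM_pos hM ht0
  have e1 : 1 + (M - 1) * (1 + t)⁻¹ = (t + M) / (1 + t) := by field_simp; ring
  have e2 : (1 - (1 + t)⁻¹) ^ 2 + M * (1 + t)⁻¹ * (1 - (1 + t)⁻¹) + 2 * M ^ 2 * ((1 + t)⁻¹) ^ 2
      = PM M t / (1 + t) ^ 2 := by unfold PM; field_simp; ring
  rw [e1, e2, Real.log_div (by positivity) hu.ne', Real.log_div hP.ne' (by positivity),
    Real.log_pow]
  push_cast
  ring

theorem psi_den_pos {M : ℝ} (hM : 0 < M) (q : ℝ) :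
    0 < (1 - q) ^ 2 + M * q * (1 - q) + 2 * M ^ 2 * q ^ 2 := by
  have e : (1 - q) ^ 2 + M * q * (1 - q) + 2 * M ^ 2 * q ^ 2
      = ((1 - q) + M * q / 2) ^ 2 + 7/4 * (M * q) ^ 2 := by ring
  rw [e]
  by_cases hq : q = 0
  · subst hq; norm_num
  · positivity

theorem psi_contDiffAt {M : ℝ} (hM : 1 ≤ M) {q : ℝ} (hq : q ∈ Icc (0:ℝ) 1) :
    ContDiffAt ℝ 1 (psiM M) q := by
  unfold psiM
  have h1 : 1 + (M - 1) * q ≠ 0 := by
    have := mul_nonneg (sub_nonneg.mpr hM) hq.1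
    positivity
  have h2 := (psi_den_pos (lt_of_lt_of_le one_pos hM) q).ne'
  refine ContDiffAt.sub ?_ ?_
  · exact ContDiffAt.log (by fun_prop) h1
  · exact ContDiffAt.log (by fun_prop) h2

theorem WW_eq {M : ℝ} (hM : 0 < M) (p : ι → E) : WW M p = fun x => ∑ j, psiM M (qq (p j) x) := by
  ext x
  unfold WW
  exact Finset.sum_congr rfl fun j _ => phiM_eq hM _ _

theorem WW_cb1 {M : ℝ} (hM : 1 ≤ M) (p : ι → E) : CB1 (WW M p) := by
  rw [WW_eq (lt_of_lt_of_le one_pos hM)]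
  exact CB1.sum fun j => CB1.comp_on (isCompact_Icc (a := (0:ℝ)) (b := 1))
    (fun t ht => psi_contDiffAt hM ht) (qq_cb1 (p j)) fun x => ⟨(qq_pos _ _).le, qq_le_one _ _⟩

theorem WW_lim {M : ℝ} (hM : 1 ≤ M) (p : ι → E) : Tendsto (WW M p) (cocompact E) (𝓝 0) := by
  rw [WW_eq (lt_of_lt_of_le one_pos hM)]
  have h0 : psiM M 0 = 0 := by simp [psiM]
  have h : Tendsto (fun x => ∑ j, psiM M (qq (p j) x)) (cocompact E) (𝓝 (∑ _j : ι, psiM M 0)) :=
    tendsto_finsetSum _ fun j _ =>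
      ((psi_contDiffAt hM ⟨le_rfl, zero_le_one⟩).continuousAt.tendsto).comp (qq_lim (p j))
  simpa [h0] using h

theorem PM_hasDerivAt (M t : ℝ) : HasDerivAt (PM M) (2 * t + M) t := by
  have h1 : HasDerivAt (fun t : ℝ => t ^ 2 + M * t + 2 * M ^ 2) (2 * t + M) t := by
    have h2 : HasDerivAt (fun t : ℝ => t ^ 2) (2 * t) t := by simpa using hasDerivAt_pow 2 t
    have h3 : HasDerivAt (fun t : ℝ => M * t) M t := by simpa using (hasDerivAt_id t).const_mul M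
    exact (h2.add h3).add_const _
  exact h1

theorem PM_contDiff (M : ℝ) (n : WithTop ℕ∞) : ContDiff ℝ n (PM M) := by
  unfold PM; fun_prop

theorem lap_log_PM {M : ℝ} (hM : 0 < M) (p x : E) :
    Lap (fun y => Real.log (PM M (‖y - p‖ ^ 2))) x =
      4 * M * ((‖x - p‖ ^ 2) ^ 2 + 8 * M * ‖x - p‖ ^ 2 + 2 * M ^ 2) / (PM M (‖x - p‖ ^ 2)) ^ 2 := by
  set t := ‖x - p‖ ^ 2 with ht
  have ht0 : 0 ≤ t := by positivity
  have hP := PM_pos hM ht0
  have h1 := lap_radial (φ := fun t => Real.log (PM M t)) (φ1 := fun t => (2 * t + M) / PM M t)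
    (φ2 := (2 * PM M t - (2 * t + M) * (2 * t + M)) / (PM M t) ^ 2) (x := x) (p := p) ?_ ?_ ?_
  · rw [h1, ← ht]
    unfold PM at *
    field_simp
    ring
  · rw [← ht]
    exact (PM_contDiff M 2).contDiffAt.log hP.ne'
  · rw [← ht]
    have : ∀ᶠ t in 𝓝 t, PM M t ≠ 0 := (PM_contDiff M 1).continuous.continuousAt.eventually_ne hP.ne'
    filter_upwards [this] with t ht using (PM_hasDerivAt M t).log ht
  · rw [← ht]
    have h2 : HasDerivAt (fun t : ℝ => 2 * t + M) 2 t := by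
      simpa using ((hasDerivAt_id t).const_mul (2:ℝ)).add_const M
    have h3 := h2.div (PM_hasDerivAt M t) hP.ne'
    exact h3

theorem contDiffAt_log_PM {M : ℝ} (hM : 0 < M) (p x : E) :
    ContDiffAt ℝ 2 (fun y => Real.log (PM M (‖y - p‖ ^ 2))) x :=
  ((PM_contDiff M 2).contDiffAt.comp x (contDiff_nsq 2 p).contDiffAt).log
    (PM_pos hM (by positivity)).ne'

theorem phi_comp_eq (M : ℝ) (p y : E) : phiM M (‖y - p‖ ^ 2) =
    Real.log (1 + ‖y - p‖ ^ 2) + Real.log (M + ‖y - p‖ ^ 2) - Real.log (PM M (‖y - p‖ ^ 2)) := by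
  unfold phiM; rw [add_comm (‖y - p‖ ^ 2) M]

theorem phi_contDiffAt {M : ℝ} (hM : 0 < M) (p x : E) :
    ContDiffAt ℝ 2 (fun y => phiM M (‖y - p‖ ^ 2)) x := by
  have e : (fun y => phiM M (‖y - p‖ ^ 2)) = fun y => Real.log (1 + ‖y - p‖ ^ 2) +
      Real.log (M + ‖y - p‖ ^ 2) - Real.log (PM M (‖y - p‖ ^ 2)) := funext fun y => phi_comp_eq M p y
  rw [e]
  have h1 : (1:ℝ) + ‖x - p‖ ^ 2 ≠ 0 := by positivity
  have h2 : M + ‖x - p‖ ^ 2 ≠ 0 := by positivity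
  exact ((contDiffAt_log_add h1).add (contDiffAt_log_add h2)).sub (contDiffAt_log_PM hM p x)

theorem lap_phi {M : ℝ} (hM : 0 < M) (p x : E) :
    Lap (fun y => phiM M (‖y - p‖ ^ 2)) x =
      4 / (1 + ‖x - p‖ ^ 2) ^ 2 + gM M (‖x - p‖ ^ 2) := by
  have e : (fun y => phiM M (‖y - p‖ ^ 2)) = fun y => (Real.log (1 + ‖y - p‖ ^ 2) +
      Real.log (M + ‖y - p‖ ^ 2)) - Real.log (PM M (‖y - p‖ ^ 2)) := funext fun y => phi_comp_eq M p y
  rw [e]
  have h1 : (1:ℝ) + ‖x - p‖ ^ 2 ≠ 0 := by positivity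
  have h2 : M + ‖x - p‖ ^ 2 ≠ 0 := by positivity
  rw [lap_sub ((contDiffAt_log_add h1).add (contDiffAt_log_add h2)) (contDiffAt_log_PM hM p x),
    lap_add (contDiffAt_log_add h1) (contDiffAt_log_add h2), lap_log_add h1, lap_log_add h2,
    lap_log_PM hM p x]
  unfold gM
  rw [add_comm M (‖x - p‖ ^ 2)]
  ring

theorem WW_contDiff {M : ℝ} (hM : 0 < M) (p : ι → E) : ContDiff ℝ 2 (WW M p) :=
  contDiff_iff_contDiffAt.mpr fun x => ContDiffAt.sum fun j _ => phi_contDiffAt hM (p j) x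

theorem lap_WW {M : ℝ} (hM : 0 < M) (p : ι → E) (x : E) :
    Lap (WW M p) x = -GG p x + ∑ j, gM M (‖x - p j‖ ^ 2) := by
  have h := lap_sum (Finset.univ : Finset ι) (f := fun j y => phiM M (‖y - p j‖ ^ 2)) (x := x)
    (fun j _ => phi_contDiffAt hM (p j) x)
  have e : Lap (WW M p) x = ∑ j, Lap (fun y => phiM M (‖y - p j‖ ^ 2)) x := h
  rw [e]
  simp only [lap_phi hM]
  rw [Finset.sum_add_distrib]
  unfold GG
  rw [← Finset.sum_neg_distrib]
  congr 1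
  refine Finset.sum_congr rfl fun j _ => ?_
  ring

theorem bb_mul_exp_WW {M : ℝ} (hM : 0 < M) (p : ι → E) (x : E) :
    bb p x * Real.exp (WW M p x) = ∏ j, aM M (‖x - p j‖ ^ 2) := by
  unfold bb WW
  rw [Real.exp_sum, ← Finset.prod_mul_distrib]
  refine Finset.prod_congr rfl fun j _ => ?_
  set t := ‖x - p j‖ ^ 2 with ht
  have ht0 : 0 ≤ t := by positivity
  have hP := PM_pos hM ht0
  unfold phiM aM
  have h1 : 0 < 1 + t := by positivity
  have h2 : 0 < t + M := by positivity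
  rw [Real.exp_sub, Real.exp_add, Real.exp_log h1, Real.exp_log h2, Real.exp_log hP]
  field_simp

theorem aM_nonneg {M t : ℝ} (hM : 0 < M) (ht : 0 ≤ t) : 0 ≤ aM M t := by
  have := PM_pos hM ht
  unfold aM; positivity

theorem aM_le_one {M t : ℝ} (hM : 0 < M) (ht : 0 ≤ t) : aM M t ≤ 1 := by
  have h := PM_pos hM ht
  unfold aM
  rw [div_le_one h]
  unfold PM; nlinarith [sq_nonneg M]

/-- The subsolution condition. -/
def SubCond (M : ℝ) (p : ι → E) : Prop :=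
  ∀ x : E, 0 ≤ ∑ j, gM M (‖x - p j‖ ^ 2) + Fn (∏ j, aM M (‖x - p j‖ ^ 2))

theorem WW_good {M : ℝ} (hM : 1 ≤ M) (p : ι → E) : Good (bb p) (WW M p) where
  cb1 := WW_cb1 hM p
  c2 := WW_contDiff (lt_of_lt_of_le one_pos hM) p
  lim := WW_lim hM p
  le_one := fun x => by
    have hM' := lt_of_lt_of_le one_pos hM
    rw [bb_mul_exp_WW hM']
    exact Finset.prod_le_one (fun j _ => aM_nonneg hM' (by positivity))
      (fun j _ => aM_le_one hM' (by positivity))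

theorem WW_sub {M : ℝ} (hM : 1 ≤ M) {p : ι → E} (h : SubCond M p) (x : E) :
    WW M p x - Lap (WW M p) x ≤ H (bb p) (GG p) (WW M p) x := by
  have hM' := lt_of_lt_of_le one_pos hM
  unfold H
  rw [lap_WW hM', bb_mul_exp_WW hM']
  have := h x
  linarith

end Pool.Agent.CSV
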